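import Pool.Agent.H730R2.LD.Main
import Pool.Agent.H730R2.LD.Grid

set_option autoImplicit false

/-!
# L₁ Bernstein inequality on hyperbolic crosses in all dimensions: abstract definitions
-/

namespace Pool.Agent.H714R3.BD

open Finset Pool.Agent.H730R2.LD

variable {d R : ℕ} {X : Type} [Fintype X] (S : Sys d R X)

/-- the levels `K` with `K s < R` and `∑ K = n` -/
noncomputable def LevN (d R n : ℕ) : Finset (Fin d → ℕ) :=
  (Lev d R univ).filter (fun K => ∑ s, K s = n)

theorem mem_LevN {d R n : ℕ} {K : Fin d → ℕ} :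
    K ∈ LevN d R n ↔ (∀ s, K s < R) ∧ ∑ s, K s = n := by
  unfold LevN
  rw [mem_filter, mem_Lev]
  constructor
  · rintro ⟨⟨h1, _⟩, h3⟩
    exact ⟨fun s => h1 s (mem_univ s), h3⟩
  · rintro ⟨h1, h2⟩
    exact ⟨⟨fun s _ => h1 s, fun s hs => absurd (mem_univ s) hs⟩, h2⟩

/-- the product of `1 - E s (K s)` over `U` -/
noncomputable def cut (U : Finset (Fin d)) (K : Fin d → ℕ) (f : X → ℝ) : X → ℝ :=
  ∑ V ∈ U.powerset, (-1 : ℝ) ^ V.card • S.EU V K f

/-- the Haar spectrum of `f` lies in `{L : ∑ L ≤ n}` (up to functions constant in a coordinate) -/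
def HSpec (n : ℕ) (f : X → ℝ) : Prop :=
  ∀ K : Fin d → ℕ, (∀ s, K s ≤ R) → ∑ s, K s = n + 1 → cut S univ K f = 0

/-- Haar coefficient (as a function) -/
noncomputable def co (K : Fin d → ℕ) (f : X → ℝ) : X → ℝ :=
  S.EU univ K (S.chi univ K * f)

/-- square function of the level `n` -/
noncomputable def SQ (n : ℕ) (f : X → ℝ) (x : X) : ℝ :=
  Real.sqrt (∑ K ∈ LevN d R n, (co S K f x) ^ 2)

/-- tower property, easy order -/
theorem tower_le (s : Fin d) {k l : ℕ} (h : k ≤ l) (f : X → ℝ) :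
    S.E s l (S.E s k f) = S.E s k f := by
  have h1 := S.E_pull s l (S.E s k f) 1
    (fun x y hxy => S.E_meas s k f x y (S.rel_mono s k l x y h hxy))
  rw [mul_one, S.E_one, mul_one] at h1
  exact h1

/-- tower property -/
theorem tower_ge (s : Fin d) {k l : ℕ} (h : k ≤ l) (f : X → ℝ) :
    S.E s k (S.E s l f) = S.E s k f := by
  classical
  ext x
  have key : ∀ g : X → ℝ, ∑ y, g y * S.E s k (S.E s l f) y = ∑ y, g y * S.E s k f y := by
    intro g
    rw [S.E_adj s k g (S.E s l f), S.E_adj s l (S.E s k g) f, tower_le S s h, ← S.E_adj s k g f]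
  have h1 := key (fun y => if y = x then 1 else 0)
  simpa using h1

theorem EU_tower {U : Finset (Fin d)} {K L : Fin d → ℕ} (h : ∀ s ∈ U, K s ≤ L s) (f : X → ℝ) :
    S.EU U L (S.EU U K f) = S.EU U K f := by
  classical
  induction U using Finset.induction_on generalizing f with
  | empty => simp
  | insert s U hs ih =>
    rw [S.EU_insert hs, S.EU_insert hs, ← S.EU_comm hs, ih (fun t ht => h t (mem_insert_of_mem ht)),
      tower_le S s (h s (mem_insert_self s U))]

end Pool.Agent.H714R3.BD
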