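import Mathlib

set_option autoImplicit false

namespace Pool.Agent.H714R3.BD

open Finset

/-- the sign of a boolean -/
def sg (b : Bool) : ℂ := if b then 1 else -1

/-- B2a (file Khin.lean): Khintchine's inequality with values in `ℓ²`. -/
theorem khin {ι β : Type} [Fintype ι] [DecidableEq ι] [Fintype β] (b : ι → β → ℂ) :
    Real.sqrt (∑ i, ∑ j, ‖b i j‖ ^ 2) ≤
      2 * (((2 : ℝ) ^ Fintype.card ι)⁻¹ *
        ∑ ε : ι → Bool, Real.sqrt (∑ j, ‖∑ i, sg (ε i) * b i j‖ ^ 2)) := by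
  sorry

/-- B2b (file Khin.lean): the converse. -/
theorem khin' {ι β : Type} [Fintype ι] [DecidableEq ι] [Fintype β] (b : ι → β → ℂ) :
    ((2 : ℝ) ^ Fintype.card ι)⁻¹ * ∑ ε : ι → Bool, Real.sqrt (∑ j, ‖∑ i, sg (ε i) * b i j‖ ^ 2) ≤
      Real.sqrt (∑ i, ∑ j, ‖b i j‖ ^ 2) := by
  sorry

/-- B2c (file Khin.lean): vector valued extension of a linear `L¹(ℓ²)` bound. -/
theorem vv {α β : Type} [Fintype α] [Fintype β] {N : ℕ} (H : (α → Fin N → ℂ) → Prop)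
    (T : (α → Fin N → ℂ) → (β → Fin N → ℂ)) (C : ℝ) (hC : 0 ≤ C)
    (hT : ∀ F, H F → ∑ x, Real.sqrt (∑ b, ‖T F b x‖ ^ 2) ≤ C * ∑ x, Real.sqrt (∑ a, ‖F a x‖ ^ 2))
    {ι : Type} [Fintype ι] [DecidableEq ι]
    (hH : ∀ (c : ι → ℂ) (F : ι → α → Fin N → ℂ), (∀ i, H (F i)) → H (fun a x => ∑ i, c i * F i a x))
    (hlin : ∀ (c : ι → ℂ) (F : ι → α → Fin N → ℂ) (b : β) (x : Fin N),
      T (fun a x => ∑ i, c i * F i a x) b x = ∑ i, c i * T (F i) b x)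
    (F : ι → α → Fin N → ℂ) (hF : ∀ i, H (F i)) :
    ∑ x, Real.sqrt (∑ i, ∑ b, ‖T (F i) b x‖ ^ 2) ≤
      2 * C * ∑ x, Real.sqrt (∑ i, ∑ a, ‖F i a x‖ ^ 2) := by
  sorry

end Pool.Agent.H714R3.BD
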