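import Pool.Agent.H714R3.BD.GDefs
import Pool.Agent.H714R3.BD.Khin
import Pool.Agent.Helper643.Bern.Main

set_option autoImplicit false

namespace Pool.Agent.H714R3.BD

open Finset BernT Matrix

variable {d M : ℕ}

/-! B3 (file One.lean): vector valued inequalities in one coordinate of the grid -/

/-! ### the scalar inequalities -/

theorem One_vfam :
    ∃ C : ℝ, 0 < C ∧ ∀ (M j : ℕ) (w : ℤ) (F : ℕ → Fin (2^M) → ℂ), (∀ a, Haar M a (F a)) →
      ∑ x, Real.sqrt (∑ a ∈ range M, ‖(TV M j w a *ᵥ F a) x‖^2) ≤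
        C * (1/2)^j * (2:ℝ)^(-(|(w:ℝ)|/2)) * ∑ x, Real.sqrt (∑ a ∈ range M, ‖F a x‖^2) :=
  ST13a.vfam ST3.formA ST4.formB
    (fun M a p a' h1 h2 h3 A hA κ h4 h5 => ST7.kVA M a p a' h1 h2 h3 A hA κ h4 h5)
    (fun M p a' h1 A hA κ h4 h5 => ST7.kVB M p a' h1 A hA κ h4 h5)
    (ST10.vker (fun M B p μ A h1 h2 h3 h4 => ST9.kerBound M B p μ A h1 h2 h3 h4))
    (fun M T δ hδ hfar hL2 => (ST2.famOp
      (fun M Nrm h0 hadd δ hδ hH => ST1.glc M Nrm h0 hadd δ hδ hH) M T δ hδ hfar).1 hL2)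

theorem One_mfam (r : ℝ) (hr : 0 ≤ r) :
    ∃ C : ℝ, 0 < C ∧ ∀ (M : ℕ) (u v : ℂ), ‖u‖ ≤ 1 → ‖v‖ ≤ 1 → ∀ (w : ℤ)
      (F : ℕ → Fin (2^M) → ℂ), (∀ a, Haar M a (F a)) →
      (∑ x, Real.sqrt (∑ a ∈ range M, ‖(TM r u v M w a *ᵥ F a) x‖^2) ≤
        C * (2:ℝ)^(-(|(w:ℝ)|/2)) * ∑ x, Real.sqrt (∑ a ∈ range M, ‖F a x‖^2)) ∧
      (∑ x, ‖∑ a ∈ range M, (TM r u v M w a *ᵥ F a) x‖ ≤
        C * (2:ℝ)^(-(|(w:ℝ)|/2)) * ∑ x, Real.sqrt (∑ a ∈ range M, ‖F a x‖^2)) :=
  ST13b.mfam ST3.formA ST4.formB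
    (fun M a p h1 h2 A hA κ h3 h4 => ST5.kAm M a p h1 h2 A hA κ h3 h4)
    (fun M p A hA κ κ' h1 h2 h3 => ST5.kBm M p A hA κ κ' h1 h2 h3) r
    (SS3.mker (fun M B p μ A h1 h2 h3 h4 => ST9.kerBound M B p μ A h1 h2 h3 h4) SS2.symE r
      (SS1.symR r hr))
    (fun M n B hB μ hμ v => ST12.nearOrth M n B hB μ hμ v)
    (fun M T δ hδ hfar => ST2.famOp
      (fun M Nrm h0 hadd δ hδ hH => ST1.glc M Nrm h0 hadd δ hδ hH) M T δ hδ hfar)

open BernT.ST15c in
theorem One_mart (M : ℕ) (F : ℕ → Fin (2^M) → ℂ) (hF : ∀ a, Haar M a (F a)) :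
    ∑ x, ‖∑ a ∈ range M, F a x‖ ≤ 4 * ∑ x, Real.sqrt (∑ a ∈ range M, ‖F a x‖^2) := by
  have main := ST1.glc M (fun G => ∑ x, ‖∑ a ∈ range M, G a x‖) (by simp)
      (by
        intro G H
        rw [← Finset.sum_add_distrib]
        refine Finset.sum_le_sum (fun x _ => ?_)
        have : ∑ a ∈ range M, (G + H) a x = ∑ a ∈ range M, G a x + ∑ a ∈ range M, H a x := by
          rw [← Finset.sum_add_distrib]; rfl
        rw [this]; exact norm_add_le _ _) 1 zero_le_one
      (by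
        intro q hq c hc G hG _ hsupp
        have hz : ∀ x : Fin (2^M), (x:ℕ)/2^(M-q) ≠ c → ‖∑ a ∈ range M, G a x‖ = 0 := by
          intro x hx
          rw [Finset.sum_eq_zero (fun a _ => hsupp a x hx), norm_zero]
        have e1 : ∑ x, ‖∑ a ∈ range M, G a x‖ =
            ∑ x ∈ univ.filter (fun w : Fin (2^M) => (w:ℕ)/2^(M-q) = c), ‖∑ a ∈ range M, G a x‖ := by
          rw [Finset.sum_filter]
          refine Finset.sum_congr rfl (fun x _ => ?_)
          by_cases hx : (x:ℕ)/2^(M-q) = c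
          · rw [if_pos hx]
          · rw [if_neg hx, hz x hx]
        have e2 : (∑ x ∈ univ.filter (fun w : Fin (2^M) => (w:ℕ)/2^(M-q) = c), (1:ℝ)^2) = 2^(M-q) := by
          rw [one_pow, Finset.sum_const, card_block M q c hc hq.le]; simp
        have e3 : ∑ x ∈ univ.filter (fun w : Fin (2^M) => (w:ℕ)/2^(M-q) = c), ‖∑ a ∈ range M, G a x‖^2
            ≤ ∑ a ∈ range M, ∑ x, ‖G a x‖^2 := by
          rw [← orth_sum M G hG]
          exact Finset.sum_le_sum_of_subset_of_nonneg (Finset.filter_subset _ _) (fun _ _ _ => by positivity)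
        rw [e1, one_mul]
        have hcs : (∑ x ∈ univ.filter (fun w : Fin (2^M) => (w:ℕ)/2^(M-q) = c), ‖∑ a ∈ range M, G a x‖)^2
            ≤ 2^(M-q) * ∑ a ∈ range M, ∑ x, ‖G a x‖^2 := by
          have := Finset.sum_mul_sq_le_sq_mul_sq (univ.filter (fun w : Fin (2^M) => (w:ℕ)/2^(M-q) = c))
            (fun _ => (1:ℝ)) (fun x => ‖∑ a ∈ range M, G a x‖)
          simp only [one_mul] at this
          rw [e2] at this
          exact this.trans (mul_le_mul_of_nonneg_left e3 (by positivity))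
        rw [← Real.sqrt_mul (by positivity)]
        exact Real.le_sqrt_of_sq_le hcs) F hF
  rw [mul_one] at main
  exact main

/-! ### the `ℓ²`-valued inequalities on the line -/

/-- the vector valued extension of a bound for a family of matrices -/
theorem One_line {β : Type} [Fintype β] (K : β → ℕ → Mx M) (C : ℝ) (hC : 0 ≤ C)
    (h : ∀ F : ℕ → Fin (2^M) → ℂ, (∀ a, Haar M a (F a)) →
      ∑ x, Real.sqrt (∑ b, ‖∑ a ∈ range M, (K b a *ᵥ F a) x‖ ^ 2) ≤
        C * ∑ x, Real.sqrt (∑ a ∈ range M, ‖F a x‖ ^ 2))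
    {ι : Type} [Fintype ι] (F : ι → ℕ → Fin (2^M) → ℂ) (hF : ∀ i a, Haar M a (F i a)) :
    ∑ x, Real.sqrt (∑ i, ∑ b, ‖∑ a ∈ range M, (K b a *ᵥ F i a) x‖ ^ 2) ≤
      2 * C * ∑ x, Real.sqrt (∑ i, ∑ a ∈ range M, ‖F i a x‖ ^ 2) := by
  classical
  have key := vv (α := Fin M) (β := β) (N := 2 ^ M)
    (fun G => ∀ a : Fin M, Haar M a (G a))
    (fun G b x => ∑ a : Fin M, (K b a *ᵥ G a) x) C hC
    (by
      intro G hG
      set G' : ℕ → Fin (2^M) → ℂ := fun a => if ha : a < M then G ⟨a, ha⟩ else 0 with hG'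
      have e : ∀ a : Fin M, G' a = G a := by
        intro a
        rw [hG']
        simp
      have hH : ∀ a, Haar M a (G' a) := by
        intro a
        by_cases ha : a < M
        · have := hG ⟨a, ha⟩
          rw [← e ⟨a, ha⟩] at this
          exact this
        · have : G' a = 0 := by rw [hG']; simp [ha]
          rw [this]
          unfold Haar
          rw [Matrix.mulVec_zero]
      have h1 := h G' hH
      have e1 : ∀ b x, ∑ a ∈ range M, (K b a *ᵥ G' a) x = ∑ a : Fin M, (K b a *ᵥ G a) x := by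
        intro b x
        rw [Finset.sum_range]
        exact Finset.sum_congr rfl (fun a _ => by rw [e a])
      have e2 : ∀ x, ∑ a ∈ range M, ‖G' a x‖ ^ 2 = ∑ a : Fin M, ‖G a x‖ ^ 2 := by
        intro x
        rw [Finset.sum_range]
        exact Finset.sum_congr rfl (fun a _ => by rw [e a])
      simp only [e1, e2] at h1
      exact h1)
    (ι := ι)
    (by
      intro c G hG a
      have h1 : ∀ i, Dm M a *ᵥ G i a = G i a := fun i => hG i a
      show Dm M a *ᵥ (fun x => ∑ i, c i * G i a x) = fun x => ∑ i, c i * G i a x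
      have e : (fun x => ∑ i, c i * G i a x) = ∑ i, c i • G i a := by
        funext x
        simp [Finset.sum_apply]
      rw [e, Matrix.mulVec_sum]
      exact Finset.sum_congr rfl (fun i _ => by rw [Matrix.mulVec_smul, h1 i]))
    (by
      intro c G b x
      have e : ∀ a : Fin M, (fun x => ∑ i, c i * G i a x) = ∑ i, c i • G i a := by
        intro a
        funext x
        simp [Finset.sum_apply]
      simp only [e, Matrix.mulVec_sum, Matrix.mulVec_smul, Finset.sum_apply, Pi.smul_apply,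
        smul_eq_mul]
      rw [Finset.sum_comm]
      exact Finset.sum_congr rfl (fun i _ => by rw [Finset.mul_sum]))
    (fun i a => F i a) (fun i a => hF i a)
  have e1 : ∀ i b x, ∑ a ∈ range M, (K b a *ᵥ F i a) x = ∑ a : Fin M, (K b a *ᵥ F i a) x :=
    fun i b x => Finset.sum_range _
  have e2 : ∀ i x, ∑ a ∈ range M, ‖F i a x‖ ^ 2 = ∑ a : Fin M, ‖F i a x‖ ^ 2 :=
    fun i x => Finset.sum_range _
  simp only [e1, e2]
  exact key

/-! ### the grid -/

/-- summation over the lines in direction `s` -/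
theorem One_sum (s : Fin d) (g : (Fin d → Fin (2 ^ M)) → ℝ) :
    ∑ x : Fin d → Fin (2 ^ M), ∑ z, g (Function.update x s z) = 2 ^ M * ∑ x, g x := by
  rw [← Fintype.sum_prod_type' (fun x z => g (Function.update x s z))]
  let e : ((Fin d → Fin (2 ^ M)) × Fin (2 ^ M)) ≃ ((Fin d → Fin (2 ^ M)) × Fin (2 ^ M)) :=
    { toFun := fun p => (Function.update p.1 s p.2, p.1 s)
      invFun := fun p => (Function.update p.1 s p.2, p.1 s)
      left_inv := by rintro ⟨x, z⟩; simp
      right_inv := by rintro ⟨x, z⟩; simp }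
  have h : ∑ p : (Fin d → Fin (2 ^ M)) × Fin (2 ^ M), g (Function.update p.1 s p.2) =
      ∑ p : (Fin d → Fin (2 ^ M)) × Fin (2 ^ M), g p.1 :=
    Equiv.sum_comp e (fun p => g p.1)
  rw [h, Fintype.sum_prod_type]
  simp only [Finset.sum_const, Finset.card_univ, Fintype.card_fin, nsmul_eq_mul]
  rw [Finset.mul_sum]
  push_cast
  rfl

theorem One_act (s : Fin d) (T : Mx M) (f : GF d M) (x : Fin d → Fin (2 ^ M)) (z : Fin (2 ^ M)) :
    act s T f (Function.update x s z) = (T *ᵥ (fun z => f (Function.update x s z))) z := by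
  unfold act Matrix.mulVec dotProduct
  simp only [Function.update_self, Function.update_idem]

/-- the vector valued inequality on the grid -/
theorem One_grid {β : Type} [Fintype β] (K : β → ℕ → Mx M) (C : ℝ) (hC : 0 ≤ C)
    (h : ∀ F : ℕ → Fin (2^M) → ℂ, (∀ a, Haar M a (F a)) →
      ∑ x, Real.sqrt (∑ b, ‖∑ a ∈ range M, (K b a *ᵥ F a) x‖ ^ 2) ≤
        C * ∑ x, Real.sqrt (∑ a ∈ range M, ‖F a x‖ ^ 2)) (s : Fin d)
    {ι : Type} [Fintype ι] (F : ι → ℕ → GF d M) (hF : ∀ i a, act s (Dm M a) (F i a) = F i a) :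
    ∑ x, Real.sqrt (∑ i, ∑ b, ‖∑ a ∈ range M, act s (K b a) (F i a) x‖ ^ 2) ≤
      2 * C * ∑ x, Real.sqrt (∑ i, ∑ a ∈ range M, ‖F i a x‖ ^ 2) := by
  have hN : (0 : ℝ) < 2 ^ M := by positivity
  refine le_of_mul_le_mul_left ?_ hN
  rw [← One_sum s]
  have e : (2 : ℝ) ^ M * (2 * C * ∑ x, Real.sqrt (∑ i, ∑ a ∈ range M, ‖F i a x‖ ^ 2)) =
      2 * C * ∑ x : Fin d → Fin (2 ^ M), ∑ z,
        Real.sqrt (∑ i, ∑ a ∈ range M, ‖F i a (Function.update x s z)‖ ^ 2) := by
    rw [One_sum s (fun x => Real.sqrt (∑ i, ∑ a ∈ range M, ‖F i a x‖ ^ 2))]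
    ring
  rw [e, Finset.mul_sum]
  apply Finset.sum_le_sum
  intro x _
  have h1 := One_line K C hC h (fun i a z => F i a (Function.update x s z))
    (by
      intro i a
      unfold Haar
      funext z
      rw [← One_act, hF i a])
  simp only [One_act]
  exact h1

/-- B3a: the family `TV` (low pass followed by a Haar block, scale gap `j`, offset `w`) -/
theorem act_vfam :
    ∃ C : ℝ, 0 < C ∧ ∀ (d M j : ℕ) (w : ℤ) (s : Fin d) (ι : Type) [Fintype ι]
      (F : ι → ℕ → GF d M), (∀ i a, act s (Dm M a) (F i a) = F i a) →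
      ∑ x, Real.sqrt (∑ i, ∑ a ∈ range M, ‖act s (TV M j w a) (F i a) x‖ ^ 2) ≤
        C * (1 / 2) ^ j * (2 : ℝ) ^ (-(|(w : ℝ)| / 2)) *
          ∑ x, Real.sqrt (∑ i, ∑ a ∈ range M, ‖F i a x‖ ^ 2) := by
  obtain ⟨C, hC, h⟩ := One_vfam
  refine ⟨2 * C, by positivity, ?_⟩
  intro d M j w s ι _ F hF
  have key := One_grid (M := M) (β := Fin M) (fun b a => if a = (b : ℕ) then TV M j w a else 0)
    (C * (1 / 2) ^ j * (2 : ℝ) ^ (-(|(w : ℝ)| / 2))) (by positivity)
    (by
      intro G hG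
      have h1 := h M j w G hG
      have e1 : ∀ x, ∑ b : Fin M, ‖∑ a ∈ range M,
          ((if a = (b : ℕ) then TV M j w a else 0) *ᵥ G a) x‖ ^ 2 =
          ∑ a ∈ range M, ‖(TV M j w a *ᵥ G a) x‖ ^ 2 := by
        intro x
        rw [Finset.sum_range]
        refine Finset.sum_congr rfl (fun b _ => ?_)
        rw [Finset.sum_eq_single (b : ℕ)]
        · rw [if_pos rfl]
        · intro a _ ha
          rw [if_neg ha, Matrix.zero_mulVec]
          rfl
        · intro hb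
          exact absurd (Finset.mem_range.2 b.2) hb
      simp only [e1]
      exact h1) s F hF
  have e2 : ∀ i x, ∑ b : Fin M, ‖∑ a ∈ range M,
      act s (if a = (b : ℕ) then TV M j w a else 0) (F i a) x‖ ^ 2 =
      ∑ a ∈ range M, ‖act s (TV M j w a) (F i a) x‖ ^ 2 := by
    intro i x
    rw [Finset.sum_range]
    refine Finset.sum_congr rfl (fun b _ => ?_)
    rw [Finset.sum_eq_single (b : ℕ)]
    · rw [if_pos rfl]
    · intro a _ ha
      rw [if_neg ha]
      simp [act]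
    · intro hb
      exact absurd (Finset.mem_range.2 b.2) hb
  simp only [e2] at key
  refine key.trans (le_of_eq ?_)
  ring

/-- B3b: the family `TM` (derivative blocks, offset `w`), summed -/
theorem act_mfam (r : ℝ) (hr : 0 ≤ r) :
    ∃ C : ℝ, 0 < C ∧ ∀ (d M : ℕ) (u v : ℂ), ‖u‖ ≤ 1 → ‖v‖ ≤ 1 → ∀ (w : ℤ) (s : Fin d)
      (ι : Type) [Fintype ι] (F : ι → ℕ → GF d M), (∀ i a, act s (Dm M a) (F i a) = F i a) →
      ∑ x, Real.sqrt (∑ i, ‖∑ a ∈ range M, act s (TM r u v M w a) (F i a) x‖ ^ 2) ≤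
        C * (2 : ℝ) ^ (-(|(w : ℝ)| / 2)) *
          ∑ x, Real.sqrt (∑ i, ∑ a ∈ range M, ‖F i a x‖ ^ 2) := by
  obtain ⟨C, hC, h⟩ := One_mfam r hr
  refine ⟨2 * C, by positivity, ?_⟩
  intro d M u v hu hv w s ι _ F hF
  have key := One_grid (M := M) (β := Unit) (fun _ a => TM r u v M w a)
    (C * (2 : ℝ) ^ (-(|(w : ℝ)| / 2))) (by positivity)
    (by
      intro G hG
      have h1 := (h M u v hu hv w G hG).2
      simp only [Finset.univ_unique, Finset.sum_singleton, Real.sqrt_sq (norm_nonneg _)]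
      exact h1) s F hF
  simp only [Finset.univ_unique, Finset.sum_singleton] at key
  refine key.trans (le_of_eq ?_)
  ring

/-- B3c: martingale version, summed -/
theorem act_mart :
    ∃ C : ℝ, 0 < C ∧ ∀ (d M : ℕ) (s : Fin d)
      (ι : Type) [Fintype ι] (F : ι → ℕ → GF d M), (∀ i a, act s (Dm M a) (F i a) = F i a) →
      ∑ x, Real.sqrt (∑ i, ‖∑ a ∈ range M, F i a x‖ ^ 2) ≤
        C * ∑ x, Real.sqrt (∑ i, ∑ a ∈ range M, ‖F i a x‖ ^ 2) := by
  refine ⟨2 * 4, by norm_num, ?_⟩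
  intro d M s ι _ F hF
  have key := One_grid (M := M) (β := Unit) (fun _ _ => 1) 4 (by norm_num)
    (by
      intro G hG
      have h1 := One_mart M G hG
      simp only [Finset.univ_unique, Finset.sum_singleton, Real.sqrt_sq (norm_nonneg _),
        Matrix.one_mulVec]
      exact h1) s F hF
  have e : ∀ i a x, act s (1 : Mx M) (F i a) x = F i a x := by
    intro i a x
    unfold act
    rw [Finset.sum_eq_single (x s)]
    · rw [Matrix.one_apply_eq, one_mul, Function.update_eq_self]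
    · intro z _ hz
      rw [Matrix.one_apply_ne (Ne.symm hz), zero_mul]
    · intro hx
      exact absurd (Finset.mem_univ _) hx
  simp only [Finset.univ_unique, Finset.sum_singleton, e] at key
  exact key

end Pool.Agent.H714R3.BD
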