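import Pool.Agent.H714R3.BD.Multi
import Pool.Agent.H714R3.BD.One

set_option autoImplicit false

namespace Pool.Agent.H714R3.BD

open Finset BernT Matrix

/-- B5 (file Decay.lean): Haar blocks above the spectrum decay. -/
theorem decayd (d : ℕ) (hd : 1 ≤ d) :
    ∃ C : ℝ, 0 < C ∧ ∀ (M n J : ℕ) (f : GF d M), Specd n f →
      NNd (n + J) f ≤ C * (2 : ℝ) ^ (-((J : ℝ) / (4 * d))) *
        ∑ m ∈ range (d * M), (2 : ℝ) ^ (-(|(m : ℝ) - n| / (4 * d))) * NNd m f := by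
  sorry

end Pool.Agent.H714R3.BD
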