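import Pool.Agent.H714R3.BD.Multi
import Pool.Agent.H714R3.BD.One

set_option autoImplicit false

namespace Pool.Agent.H714R3.BD

open Finset BernT Matrix

/-- B6 (file Mart.lean): `L¹` norm of a level is bounded by its square function. -/
theorem martd (d : ℕ) (hd : 1 ≤ d) :
    ∃ C : ℝ, 0 < C ∧ ∀ (M m : ℕ) (f : GF d M), L1d (Dgd m f) ≤ C * NNd m f := by
  sorry

end Pool.Agent.H714R3.BD
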