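import Pool.Agent.H714R3.BD.HD
import Pool.Agent.H714R3.BD.Decay
import Pool.Agent.H714R3.BD.Mart

set_option autoImplicit false

namespace Pool.Agent.H714R3.BD

open Finset BernT Matrix

theorem absorb_L1_add {d M : ℕ} (f g : GF d M) : L1d (f + g) ≤ L1d f + L1d g := by
  unfold L1d
  rw [← Finset.sum_add_distrib]
  exact Finset.sum_le_sum fun x _ => norm_add_le _ _

theorem absorb_L1_neg {d M : ℕ} (f : GF d M) : L1d (-f) = L1d f := by
  unfold L1d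
  simp

theorem absorb_L1_nonneg {d M : ℕ} (f : GF d M) : 0 ≤ L1d f := by
  unfold L1d
  exact Finset.sum_nonneg fun x _ => norm_nonneg _

theorem absorb_NN_nonneg {d M : ℕ} (m : ℕ) (f : GF d M) : 0 ≤ NNd m f := by
  unfold NNd
  exact Finset.sum_nonneg fun x _ => Real.sqrt_nonneg _

theorem absorb_L1_sum {d M : ℕ} (s : Finset ℕ) (g : ℕ → GF d M) :
    L1d (∑ i ∈ s, g i) ≤ ∑ i ∈ s, L1d (g i) := by
  classical
  induction s using Finset.induction_on with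
  | empty => simp [L1d]
  | insert a s ha ih =>
    rw [Finset.sum_insert ha, Finset.sum_insert ha]
    exact (absorb_L1_add _ _).trans (add_le_add le_rfl ih)

theorem absorb_PK {d M K : ℕ} {f : GF d M} (hK : K ≤ d * M + 1)
    (h1 : ∀ s, act s (Em M 0) f = 0) :
    L1d (PKd K f) ≤ L1d f + ∑ m ∈ Ico K (d * M + 1), L1d (Dgd m f) := by
  have hd := level_decomp f h1
  rw [← Finset.sum_range_add_sum_Ico _ hK] at hd
  have h3 : PKd K f = f + -(∑ m ∈ Ico K (d * M + 1), Dgd m f) := by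
    unfold PKd
    rw [eq_comm, ← sub_eq_add_neg, sub_eq_iff_eq_add]
    exact hd
  rw [h3]
  refine (absorb_L1_add _ _).trans ?_
  rw [absorb_L1_neg]
  exact add_le_add le_rfl (absorb_L1_sum _ _)

/-- uniform bound of the weighted sums -/
theorem absorb_weight (d : ℕ) (hd : 1 ≤ d) : ∃ C : ℝ, 0 < C ∧ ∀ n K : ℕ,
    ∑ m ∈ range K, (2 : ℝ) ^ (-(|(m : ℝ) - n| / (4 * d))) * (|(m : ℝ) - n| + 1) ^ d ≤ C := by
  have hd0 : (0 : ℝ) < d := by exact_mod_cast hd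
  obtain ⟨ρ, hρ⟩ : ∃ ρ : ℝ, ρ = (2 : ℝ) ^ (-(1 / (4 * d) : ℝ)) := ⟨_, rfl⟩
  have hρ0 : 0 < ρ := by rw [hρ]; positivity
  have hρ1 : ρ < 1 := by
    rw [hρ]
    apply Real.rpow_lt_one_of_one_lt_of_neg (by norm_num)
    have : (0 : ℝ) < 1 / (4 * d) := by positivity
    linarith
  have hpow : ∀ j : ℕ, (2 : ℝ) ^ (-((j : ℝ) / (4 * d))) = ρ ^ j := by
    intro j
    rw [hρ, ← Real.rpow_natCast, ← Real.rpow_mul (by norm_num)]
    congr 1; ring
  have hn : ‖ρ‖ < 1 := by rw [Real.norm_of_nonneg hρ0.le]; exact hρ1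
  have hs : Summable fun j : ℕ => (2 : ℝ) ^ (-((j : ℝ) / (4 * d))) * ((j : ℝ) + 1) ^ d := by
    have h0 := summable_pow_mul_geometric_of_norm_lt_one d hn
    have h1 := (summable_nat_add_iff 1).mpr h0
    refine (h1.mul_left ρ⁻¹).congr ?_
    intro j
    rw [hpow j]
    push_cast
    rw [pow_succ ρ j]
    field_simp
  have hz : Summable fun z : ℤ => (2 : ℝ) ^ (-(|(z : ℝ)| / (4 * d))) * (|(z : ℝ)| + 1) ^ d := by
    rw [summable_int_iff_summable_nat_and_neg]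
    constructor
    · refine hs.congr ?_
      intro j
      rw [Int.cast_natCast, abs_of_nonneg (Nat.cast_nonneg j)]
    · refine hs.congr ?_
      intro j
      rw [Int.cast_neg, Int.cast_natCast, abs_neg, abs_of_nonneg (Nat.cast_nonneg j)]
  refine ⟨(∑' z : ℤ, (2 : ℝ) ^ (-(|(z : ℝ)| / (4 * d))) * (|(z : ℝ)| + 1) ^ d) + 1, ?_, ?_⟩
  · have : 0 ≤ ∑' z : ℤ, (2 : ℝ) ^ (-(|(z : ℝ)| / (4 * d))) * (|(z : ℝ)| + 1) ^ d :=
      tsum_nonneg fun z => by positivity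
    linarith
  · intro n K
    have hinj : Function.Injective (fun m : ℕ => (m : ℤ) - (n : ℤ)) := by
      intro a b hab
      beta_reduce at hab
      omega
    have h1 := hz.sum_le_tsum ((range K).map ⟨fun m : ℕ => (m : ℤ) - (n : ℤ), hinj⟩)
      (fun z _ => by positivity)
    rw [Finset.sum_map] at h1
    simp only [Function.Embedding.coeFn_mk, Int.cast_sub, Int.cast_natCast] at h1
    linarith

/-- B9 (file Absorb.lean) -/
theorem absorbd (d : ℕ) (hd : 1 ≤ d)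
    (decay : ∃ C : ℝ, 0 < C ∧ ∀ (M n J : ℕ) (f : GF d M), Specd n f →
      NNd (n + J) f ≤ C * (2 : ℝ) ^ (-((J : ℝ) / (4 * d))) *
        ∑ m ∈ range (d * M), (2 : ℝ) ^ (-(|(m : ℝ) - n| / (4 * d))) * NNd m f)
    (hD : ∃ C : ℝ, 0 < C ∧ ∀ (M K : ℕ), K ≤ M → ∀ (f : GF d M), ∀ m < K,
      NNd m f ≤ C * ((K : ℝ) - m) ^ d * L1d (PKd K f))
    (mart : ∃ C : ℝ, 0 < C ∧ ∀ (M m : ℕ) (f : GF d M), L1d (Dgd m f) ≤ C * NNd m f) :
    ∃ C : ℝ, 0 < C ∧ ∃ L : ℕ, ∀ (M n : ℕ) (f : GF d M), Specd n f → n + L ≤ M →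
      ∀ m, NNd m f ≤ C * (|(m : ℝ) - n| + 1) ^ d * L1d f := by
  obtain ⟨C1, hC1, decay⟩ := decay
  obtain ⟨C2, hC2, hD⟩ := hD
  obtain ⟨C3, hC3, hmart⟩ := mart
  obtain ⟨C4, hC4, hW⟩ := absorb_weight d hd
  have hd0 : (0 : ℝ) < d := by exact_mod_cast hd
  obtain ⟨σ, hσ⟩ : ∃ σ : ℝ, σ = (2 : ℝ) ^ (-(1 / (4 * d) : ℝ)) := ⟨_, rfl⟩
  have hσ0 : 0 < σ := by rw [hσ]; positivity
  have hσ1 : σ < 1 := by
    rw [hσ]
    apply Real.rpow_lt_one_of_one_lt_of_neg (by norm_num)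
    have : (0 : ℝ) < 1 / (4 * d) := by positivity
    linarith
  have hpow : ∀ j : ℕ, (2 : ℝ) ^ (-((j : ℝ) / (4 * d))) = σ ^ j := by
    intro j
    rw [hσ, ← Real.rpow_natCast, ← Real.rpow_mul (by norm_num)]
    congr 1; ring
  obtain ⟨c, hc⟩ : ∃ c : ℝ, c = (1 - σ)⁻¹ := ⟨_, rfl⟩
  have hc0 : 0 < c := by rw [hc]; exact inv_pos.mpr (by linarith)
  -- choice of l
  obtain ⟨l, hl2, hl⟩ : ∃ l : ℕ, 1 ≤ l ∧
      C1 * c * (C2 * C4 * C3 + 1) * ((l : ℝ) ^ d * σ ^ l) ≤ 1 / 2 := by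
    have ht := tendsto_pow_const_mul_const_pow_of_lt_one d hσ0.le hσ1
    have h1 := (ht.const_mul (C1 * c * (C2 * C4 * C3 + 1)))
    rw [mul_zero] at h1
    have h2 := h1.eventually (gt_mem_nhds (show (0 : ℝ) < 1 / 2 by norm_num))
    obtain ⟨l, h3, h4⟩ := (h2.and (Filter.eventually_ge_atTop 1)).exists
    exact ⟨l, h4, le_of_lt h3⟩
  have hl1 : (1 : ℝ) ≤ l := by exact_mod_cast hl2
  refine ⟨2 * C2 * (l : ℝ) ^ d * (1 + C1 * C4), by positivity, l, ?_⟩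
  intro M n f hS hM m
  obtain ⟨Q, hQ⟩ : ∃ Q, Q = ∑ m ∈ range (d * M),
    (2 : ℝ) ^ (-(|(m : ℝ) - n| / (4 * d))) * NNd m f := ⟨_, rfl⟩
  obtain ⟨P, hP⟩ : ∃ P, P = L1d (PKd (n + l) f) := ⟨_, rfl⟩
  obtain ⟨F, hF⟩ : ∃ F, F = L1d f := ⟨_, rfl⟩
  have hQ0 : 0 ≤ Q := by
    rw [hQ]
    exact Finset.sum_nonneg fun m _ => mul_nonneg (by positivity) (absorb_NN_nonneg m f)
  have hP0 : 0 ≤ P := by rw [hP]; exact absorb_L1_nonneg _
  have hF0 : 0 ≤ F := by rw [hF]; exact absorb_L1_nonneg _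
  have hdec : ∀ m', n + l ≤ m' → NNd m' f ≤ C1 * σ ^ (m' - n) * Q := by
    intro m' hm'
    have h1 := decay M n (m' - n) f hS
    rw [hpow, ← hQ] at h1
    have e : n + (m' - n) = m' := by omega
    rwa [e] at h1
  have hMd : M ≤ d * M := by nlinarith
  have hK2 : n + l ≤ d * M := by omega
  have hT' : ∀ m₂, ∑ m' ∈ Ico (n + l) m₂, NNd m' f ≤ C1 * Q * (σ ^ l * c) := by
    intro m₂
    have h1 : ∑ m' ∈ Ico (n + l) m₂, NNd m' f ≤ ∑ m' ∈ Ico (n + l) m₂, C1 * σ ^ (m' - n) * Q := by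
      apply Finset.sum_le_sum
      intro m' hm'
      exact hdec m' (Finset.mem_Ico.mp hm').1
    refine h1.trans ?_
    rw [Finset.sum_Ico_eq_sum_range]
    have h2 : ∀ i ∈ range (m₂ - (n + l)), C1 * σ ^ (n + l + i - n) * Q = (C1 * Q * σ ^ l) * σ ^ i := by
      intro i _
      have e : n + l + i - n = l + i := by omega
      rw [e, pow_add]; ring
    rw [Finset.sum_congr rfl h2, ← Finset.mul_sum]
    have h3 : ∑ i ∈ range (m₂ - (n + l)), σ ^ i ≤ c := by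
      rw [hc, ← tsum_geometric_of_lt_one hσ0.le hσ1]
      exact (summable_geometric_of_lt_one hσ0.le hσ1).sum_le_tsum _ (fun i _ => by positivity)
    calc C1 * Q * σ ^ l * ∑ i ∈ range (m₂ - (n + l)), σ ^ i ≤ C1 * Q * σ ^ l * c :=
          mul_le_mul_of_nonneg_left h3 (by positivity)
      _ = C1 * Q * (σ ^ l * c) := by ring
  have hPb : P ≤ F + C3 * (C1 * Q * (σ ^ l * c)) := by
    rw [hP, hF]
    refine (absorb_PK (by omega) hS.mean).trans (add_le_add le_rfl ?_)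
    calc ∑ m ∈ Ico (n + l) (d * M + 1), L1d (Dgd m f)
        ≤ ∑ m ∈ Ico (n + l) (d * M + 1), C3 * NNd m f :=
          Finset.sum_le_sum fun m _ => hmart M m f
      _ = C3 * ∑ m ∈ Ico (n + l) (d * M + 1), NNd m f := by rw [Finset.mul_sum]
      _ ≤ _ := mul_le_mul_of_nonneg_left (hT' _) hC3.le
  have hT := hT' (d * M)
  have hnl : ∀ m' < n + l, NNd m' f ≤ (|(m' : ℝ) - n| + 1) ^ d * (C2 * (l : ℝ) ^ d * P) := by
    intro m' hm'
    have h1 := hD M (n + l) hM f m' hm'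
    rw [← hP] at h1
    refine h1.trans ?_
    have h2 : (((n + l : ℕ) : ℝ) - m') ^ d ≤ ((|(m' : ℝ) - n| + 1) * l) ^ d := by
      apply pow_le_pow_left₀
      · have : (m' : ℝ) ≤ ((n + l : ℕ) : ℝ) := by exact_mod_cast hm'.le
        linarith
      · push_cast
        have h3 := neg_abs_le ((m' : ℝ) - n)
        have h4 := abs_nonneg ((m' : ℝ) - n)
        nlinarith
    calc C2 * (((n + l : ℕ) : ℝ) - m') ^ d * P ≤ C2 * ((|(m' : ℝ) - n| + 1) * l) ^ d * P :=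
          mul_le_mul_of_nonneg_right (mul_le_mul_of_nonneg_left h2 hC2.le) hP0
      _ = _ := by rw [mul_pow]; ring
  have hQ1 : ∑ m' ∈ range (n + l), (2 : ℝ) ^ (-(|(m' : ℝ) - n| / (4 * d))) * NNd m' f ≤
      C4 * (C2 * (l : ℝ) ^ d * P) := by
    calc ∑ m' ∈ range (n + l), (2 : ℝ) ^ (-(|(m' : ℝ) - n| / (4 * d))) * NNd m' f
        ≤ ∑ m' ∈ range (n + l), ((2 : ℝ) ^ (-(|(m' : ℝ) - n| / (4 * d))) *
            (|(m' : ℝ) - n| + 1) ^ d) * (C2 * (l : ℝ) ^ d * P) := by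
          apply Finset.sum_le_sum
          intro m' hm'
          rw [mul_assoc]
          exact mul_le_mul_of_nonneg_left (hnl m' (Finset.mem_range.mp hm')) (by positivity)
      _ = (∑ m' ∈ range (n + l), (2 : ℝ) ^ (-(|(m' : ℝ) - n| / (4 * d))) *
            (|(m' : ℝ) - n| + 1) ^ d) * (C2 * (l : ℝ) ^ d * P) := by
          rw [Finset.sum_mul]
      _ ≤ C4 * (C2 * (l : ℝ) ^ d * P) := mul_le_mul_of_nonneg_right (hW n (n + l)) (by positivity)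
  have hQ2 : ∑ m' ∈ Ico (n + l) (d * M), (2 : ℝ) ^ (-(|(m' : ℝ) - n| / (4 * d))) * NNd m' f ≤
      C1 * Q * (σ ^ l * c) := by
    refine le_trans (Finset.sum_le_sum ?_) hT
    intro m' _
    have h1 : (2 : ℝ) ^ (-(|(m' : ℝ) - n| / (4 * d))) ≤ 1 := by
      apply Real.rpow_le_one_of_one_le_of_nonpos (by norm_num)
      have : 0 ≤ |(m' : ℝ) - n| / (4 * d) := by positivity
      linarith
    calc (2 : ℝ) ^ (-(|(m' : ℝ) - n| / (4 * d))) * NNd m' f ≤ 1 * NNd m' f :=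
          mul_le_mul_of_nonneg_right h1 (absorb_NN_nonneg m' f)
      _ = NNd m' f := one_mul _
  have hQs : Q ≤ C4 * (C2 * (l : ℝ) ^ d * P) + C1 * Q * (σ ^ l * c) := by
    have h1 : Q = ∑ m' ∈ range (n + l), (2 : ℝ) ^ (-(|(m' : ℝ) - n| / (4 * d))) * NNd m' f +
        ∑ m' ∈ Ico (n + l) (d * M), (2 : ℝ) ^ (-(|(m' : ℝ) - n| / (4 * d))) * NNd m' f := by
      rw [Finset.sum_range_add_sum_Ico _ hK2, hQ]
    exact le_of_eq_of_le h1 (add_le_add hQ1 hQ2)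
  -- absorption
  have hll : (1 : ℝ) ≤ (l : ℝ) ^ d := one_le_pow₀ hl1
  have hsl : 0 < σ ^ l := pow_pos hσ0 l
  have hA : C1 * c * σ ^ l * (C2 * C4 * C3 * (l : ℝ) ^ d + 1) ≤ 1 / 2 := by
    refine le_trans ?_ hl
    have h1 : C2 * C4 * C3 * (l : ℝ) ^ d + 1 ≤ (C2 * C4 * C3 + 1) * (l : ℝ) ^ d := by linarith
    calc C1 * c * σ ^ l * (C2 * C4 * C3 * (l : ℝ) ^ d + 1)
        ≤ C1 * c * σ ^ l * ((C2 * C4 * C3 + 1) * (l : ℝ) ^ d) :=
          mul_le_mul_of_nonneg_left h1 (by positivity)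
      _ = _ := by ring
  have hB : C1 * c * σ ^ l * (C2 * C4 * C3 * (l : ℝ) ^ d) ≤ 1 / 2 := by
    refine le_trans ?_ hA
    apply mul_le_mul_of_nonneg_left _ (by positivity)
    linarith
  have hQf : Q ≤ 2 * (C4 * C2 * (l : ℝ) ^ d) * F := by
    have h1 : C4 * (C2 * (l : ℝ) ^ d * P) ≤
        C4 * (C2 * (l : ℝ) ^ d * (F + C3 * (C1 * Q * (σ ^ l * c)))) :=
      mul_le_mul_of_nonneg_left (mul_le_mul_of_nonneg_left hPb (by positivity)) hC4.le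
    have h2 : C4 * (C2 * (l : ℝ) ^ d * (F + C3 * (C1 * Q * (σ ^ l * c)))) + C1 * Q * (σ ^ l * c) =
        C4 * C2 * (l : ℝ) ^ d * F + (C1 * c * σ ^ l * (C2 * C4 * C3 * (l : ℝ) ^ d + 1)) * Q := by
      ring
    have h3 : (C1 * c * σ ^ l * (C2 * C4 * C3 * (l : ℝ) ^ d + 1)) * Q ≤ 1 / 2 * Q :=
      mul_le_mul_of_nonneg_right hA hQ0
    linarith
  have hPf : P ≤ 2 * F := by
    have h1 : C3 * (C1 * Q * (σ ^ l * c)) ≤
        C3 * (C1 * (2 * (C4 * C2 * (l : ℝ) ^ d) * F) * (σ ^ l * c)) := by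
      apply mul_le_mul_of_nonneg_left _ hC3.le
      apply mul_le_mul_of_nonneg_right _ (by positivity)
      exact mul_le_mul_of_nonneg_left hQf hC1.le
    have h2 : C3 * (C1 * (2 * (C4 * C2 * (l : ℝ) ^ d) * F) * (σ ^ l * c)) =
        2 * ((C1 * c * σ ^ l * (C2 * C4 * C3 * (l : ℝ) ^ d)) * F) := by ring
    have h3 : (C1 * c * σ ^ l * (C2 * C4 * C3 * (l : ℝ) ^ d)) * F ≤ 1 / 2 * F :=
      mul_le_mul_of_nonneg_right hB hF0
    linarith
  rw [← hF]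
  have hd1 : (1 : ℝ) ≤ (|(m : ℝ) - n| + 1) ^ d := by
    apply one_le_pow₀
    have := abs_nonneg ((m : ℝ) - n)
    linarith
  obtain ⟨w, hw⟩ : ∃ w, w = (|(m : ℝ) - n| + 1) ^ d := ⟨_, rfl⟩
  have hnlm := hnl m
  have hdm := hdec m
  rw [← hw] at hd1 hnlm ⊢
  have hwF : F ≤ w * F := by nlinarith
  rcases lt_or_ge m (n + l) with h | h
  · refine (hnlm h).trans ?_
    have h1 : w * (C2 * (l : ℝ) ^ d * P) ≤ w * (C2 * (l : ℝ) ^ d * (2 * F)) :=
      mul_le_mul_of_nonneg_left (mul_le_mul_of_nonneg_left hPf (by positivity)) (by linarith)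
    have h2 : 2 * C2 * (l : ℝ) ^ d * (1 + C1 * C4) * w * F =
        w * (C2 * (l : ℝ) ^ d * (2 * F)) + 2 * C2 * (l : ℝ) ^ d * (C1 * C4) * (w * F) := by ring
    have h3 : 0 ≤ 2 * C2 * (l : ℝ) ^ d * (C1 * C4) * (w * F) := by
      have : 0 ≤ w * F := mul_nonneg (by linarith) hF0
      positivity
    linarith
  · refine (hdm h).trans ?_
    have h1 : σ ^ (m - n) ≤ 1 := pow_le_one₀ hσ0.le hσ1.le
    have h2 : C1 * σ ^ (m - n) * Q ≤ C1 * 1 * (2 * (C4 * C2 * (l : ℝ) ^ d) * F) := by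
      apply mul_le_mul _ hQf hQ0 (by positivity)
      exact mul_le_mul_of_nonneg_left h1 hC1.le
    refine h2.trans ?_
    have h4 : C1 * 1 * (2 * (C4 * C2 * (l : ℝ) ^ d) * F) =
        2 * C2 * (l : ℝ) ^ d * (C1 * C4) * F := by ring
    have h5 : 2 * C2 * (l : ℝ) ^ d * (C1 * C4) * F ≤ 2 * C2 * (l : ℝ) ^ d * (C1 * C4) * (w * F) :=
      mul_le_mul_of_nonneg_left hwF (by positivity)
    have h6 : 0 ≤ 2 * C2 * (l : ℝ) ^ d * (w * F) := by
      have : 0 ≤ w * F := mul_nonneg (by linarith) hF0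
      positivity
    have h7 : 2 * C2 * (l : ℝ) ^ d * (1 + C1 * C4) * w * F =
        2 * C2 * (l : ℝ) ^ d * (w * F) + 2 * C2 * (l : ℝ) ^ d * (C1 * C4) * (w * F) := by ring
    linarith

end Pool.Agent.H714R3.BD
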