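import Pool.Agent.H714R3.BD.Alg1
import Pool.Agent.Helper643.Bern.T15c

set_option autoImplicit false

namespace Pool.Agent.H714R3.BD

open Finset BernT Matrix

variable {d M : ℕ}

/-! B1b (file Alg2.lean) -/

/-! Haar blocks in one variable -/

theorem Dm_idem (M a : ℕ) : Dm M a * Dm M a = Dm M a := BernT.ST15c.Dm_mul_self M a

theorem Dm_orth (M : ℕ) {a b : ℕ} (h : a ≠ b) : Dm M a * Dm M b = 0 :=
  BernT.ST15c.Dm_mul_ne M a b h

theorem Dm_eq_zero {M a : ℕ} (h : M ≤ a) : Dm M a = 0 := BernT.ST15c.Dm_ge M a h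

theorem Alg2_Em_top (M : ℕ) : Em M M = 1 := by
  ext x z
  unfold Em
  rw [Matrix.one_apply]
  simp [Fin.ext_iff]

theorem sum_Dm (M : ℕ) : ∑ a ∈ range M, Dm M a = 1 - Em M 0 := by
  unfold Dm
  rw [Finset.sum_range_sub (fun a => Em M a), Alg2_Em_top]

/-! Haar blocks in `d` variables -/

theorem DD_zero {a : Fin d → ℕ} {s : Fin d} (h : M ≤ a s) (f : GF d M) : DD a f = 0 :=
  tens_zero _ s (Dm_eq_zero h) f

theorem DD_DD (a b : Fin d → ℕ) (f : GF d M) : DD a (DD b f) = if a = b then DD a f else 0 := by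
  unfold DD
  rw [tens_mul]
  split_ifs with h
  · subst h
    simp only [Dm_idem]
  · obtain ⟨s, hs⟩ := Function.ne_iff.1 h
    exact tens_zero _ s (Dm_orth M hs) f

theorem act_DD (a : Fin d → ℕ) (s : Fin d) (f : GF d M) : act s (Dm M (a s)) (DD a f) = DD a f := by
  unfold DD
  rw [act_eq_tens, tens_mul]
  congr 1
  funext r
  by_cases h : r = s
  · subst h
    rw [Function.update_self, Dm_idem]
  · rw [Function.update_of_ne h, one_mul]

theorem Alg2_tens_act (T : Fin d → Mx M) (s : Fin d) (f : GF d M) :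
    tens T f = tens (Function.update T s 1) (act s (T s) f) := by
  rw [act_eq_tens, tens_mul]
  congr 1
  funext r
  by_cases h : r = s
  · subst h
    rw [Function.update_self, Function.update_self, one_mul]
  · rw [Function.update_of_ne h, Function.update_of_ne h, mul_one]

theorem Alg2_tens_zero_fun (T : Fin d → Mx M) : tens T (0 : GF d M) = 0 := by
  funext x
  simp [tens]

/-- a function with mean zero in every coordinate is the sum of its Haar blocks -/
theorem haar_decomp (f : GF d M) (hf : ∀ s, act s (Em M 0) f = 0) :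
    f = ∑ a ∈ Fintype.piFinset (fun _ : Fin d => range M), DD a f := by
  have h1 := tens_prod_sum (fun _ : Fin d => range M) (fun _ i => Dm M i) f
  unfold DD
  rw [← h1]
  simp only [sum_Dm]
  have h2 := tens_one_sub (univ : Finset (Fin d)) (fun _ => Em M 0) f
  simp only [mem_univ, if_true] at h2
  rw [h2, Finset.sum_eq_single (∅ : Finset (Fin d))]
  · simp [tens_one]
  · intro V _ hV
    obtain ⟨s, hs⟩ := Finset.nonempty_iff_ne_empty.2 hV
    rw [Alg2_tens_act _ s, if_pos hs, hf s, Alg2_tens_zero_fun, smul_zero]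
  · intro h
    exact absurd (Finset.empty_mem_powerset _) h

/-- the same, by levels -/
theorem level_decomp (f : GF d M) (hf : ∀ s, act s (Em M 0) f = 0) :
    f = ∑ m ∈ range (d * M + 1), Dgd m f := by
  classical
  have h1 : ∀ m, Dgd m f =
      ∑ a ∈ Fintype.piFinset (fun _ : Fin d => range M) with ∑ s, a s = m, DD a f := by
    intro m
    unfold Dgd
    symm
    apply Finset.sum_subset
    · intro a ha
      rw [Finset.mem_filter] at ha
      exact mem_lv.2 ha.2
    · intro a ha hna
      rw [mem_lv] at ha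
      have h2 : ∃ s, M ≤ a s := by
        by_contra hcon
        push Not at hcon
        apply hna
        rw [Finset.mem_filter, Fintype.mem_piFinset]
        exact ⟨fun s => mem_range.2 (hcon s), ha⟩
      obtain ⟨s, hs⟩ := h2
      exact DD_zero hs f
  simp only [h1]
  rw [Finset.sum_fiberwise_of_maps_to]
  · exact haar_decomp f hf
  · intro a ha
    rw [Fintype.mem_piFinset] at ha
    rw [mem_range, Nat.lt_succ_iff]
    have h2 : ∑ s, a s ≤ ∑ _s : Fin d, M := Finset.sum_le_sum fun s _ => (mem_range.1 (ha s)).le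
    simpa using h2

theorem NNd_nonneg (m : ℕ) (f : GF d M) : 0 ≤ NNd m f :=
  Finset.sum_nonneg fun _ _ => Real.sqrt_nonneg _

/-- levels `m ≥ d * M` are empty -/
theorem NNd_zero {m : ℕ} (h : d * M ≤ m) (hd : 1 ≤ d) (f : GF d M) : NNd m f = 0 := by
  unfold NNd
  apply Finset.sum_eq_zero
  intro x _
  have h1 : ∑ a ∈ lv d m, ‖DD a f x‖ ^ 2 = 0 := by
    apply Finset.sum_eq_zero
    intro a ha
    rw [mem_lv] at ha
    have h2 : ∃ s, M ≤ a s := by
      by_contra hcon
      push Not at hcon
      have h3 : ∑ s, a s < ∑ _s : Fin d, M :=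
        Finset.sum_lt_sum_of_nonempty ⟨⟨0, hd⟩, mem_univ _⟩ fun s _ => hcon s
      simp at h3
      omega
    obtain ⟨s, hs⟩ := h2
    rw [DD_zero hs f]
    simp
  rw [h1, Real.sqrt_zero]

end Pool.Agent.H714R3.BD
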