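import Pool.Agent.H714R3.BD.GDefs

set_option autoImplicit false

namespace Pool.Agent.H714R3.BD

open Finset BernT Matrix

variable {d M : ℕ}

/-! B1a (file Alg1.lean): algebra of tensor product operators -/

theorem Alg1_update (T : Fin d → Mx M) (s : Fin d) (A : Mx M) (x z : Fin d → Fin (2 ^ M)) :
    ∏ t, (Function.update T s A) t (x t) (z t) =
      A (x s) (z s) * ∏ t ∈ univ.erase s, T t (x t) (z t) := by
  rw [← Finset.mul_prod_erase univ _ (mem_univ s), Function.update_self]
  congr 1
  refine Finset.prod_congr rfl fun t ht => ?_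
  rw [Function.update_of_ne (Finset.ne_of_mem_erase ht)]

theorem Alg1_one (x z : Fin d → Fin (2 ^ M)) (P : Finset (Fin d)) :
    ∏ s ∈ P, (1 : Mx M) (x s) (z s) = if ∀ s ∈ P, x s = z s then 1 else 0 := by
  classical
  simp only [Matrix.one_apply]
  rw [Finset.prod_ite_zero]
  simp

theorem tens_mul (T T' : Fin d → Mx M) (f : GF d M) :
    tens T (tens T' f) = tens (fun s => T s * T' s) f := by
  classical
  funext x
  unfold tens
  simp only [Finset.mul_sum]
  rw [Finset.sum_comm]
  refine Finset.sum_congr rfl fun w _ => ?_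
  have h : ∏ s, (T s * T' s) (x s) (w s) =
      ∑ z : Fin d → Fin (2 ^ M), ∏ s, (T s (x s) (z s) * T' s (z s) (w s)) := by
    simp only [Matrix.mul_apply]
    rw [Finset.prod_univ_sum, Fintype.piFinset_univ]
  rw [h, Finset.sum_mul]
  refine Finset.sum_congr rfl fun z _ => ?_
  rw [Finset.prod_mul_distrib]
  ring

theorem tens_one (f : GF d M) : tens (fun _ : Fin d => (1 : Mx M)) f = f := by
  classical
  funext x
  unfold tens
  simp only [Alg1_one, Finset.mem_univ, true_implies]
  rw [Finset.sum_eq_single x]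
  · simp
  · intro z _ hz
    rw [if_neg, zero_mul]
    intro h
    exact hz (funext h).symm
  · simp

theorem act_eq_tens (s : Fin d) (T : Mx M) (f : GF d M) :
    act s T f = tens (Function.update (fun _ => (1 : Mx M)) s T) f := by
  classical
  funext x
  unfold act tens
  refine Fintype.sum_of_injective (fun w => Function.update x s w)
    (Function.update_injective x s) _ _ ?_ ?_
  · intro z hz
    rw [Alg1_update, Alg1_one, if_neg, mul_zero, zero_mul]
    intro h
    apply hz
    refine ⟨z s, ?_⟩
    funext t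
    by_cases ht : t = s
    · subst ht
      simp
    · simp only [Function.update_of_ne ht]
      exact h t (Finset.mem_erase.2 ⟨ht, mem_univ t⟩)
  · intro w
    rw [Alg1_update, Alg1_one, if_pos, mul_one, Function.update_self]
    intro t ht
    rw [Function.update_of_ne (Finset.ne_of_mem_erase ht)]

theorem tens_split (T : Fin d → Mx M) (s : Fin d) (f : GF d M) :
    tens T f = act s (T s) (tens (Function.update T s 1) f) := by
  rw [act_eq_tens, tens_mul]
  congr 1
  funext t
  by_cases ht : t = s
  · subst ht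
    simp
  · simp [Function.update_of_ne ht]

theorem tens_update_sum {ι : Type} (T : Fin d → Mx M) (s : Fin d) (P : Finset ι)
    (A : ι → Mx M) (f : GF d M) :
    tens (Function.update T s (∑ i ∈ P, A i)) f = ∑ i ∈ P, tens (Function.update T s (A i)) f := by
  funext x
  rw [Finset.sum_apply]
  unfold tens
  rw [Finset.sum_comm]
  refine Finset.sum_congr rfl fun z _ => ?_
  simp only [Alg1_update]
  rw [Matrix.sum_apply, Finset.sum_mul, Finset.sum_mul]

theorem tens_update_sub (T : Fin d → Mx M) (s : Fin d) (A B : Mx M) (f : GF d M) :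
    tens (Function.update T s (A - B)) f =
      tens (Function.update T s A) f - tens (Function.update T s B) f := by
  funext x
  rw [Pi.sub_apply]
  unfold tens
  rw [← Finset.sum_sub_distrib]
  refine Finset.sum_congr rfl fun z _ => ?_
  simp only [Alg1_update]
  rw [Matrix.sub_apply]
  ring

theorem tens_zero (T : Fin d → Mx M) (s : Fin d) (h : T s = 0) (f : GF d M) : tens T f = 0 := by
  funext x
  unfold tens
  refine Finset.sum_eq_zero fun z _ => ?_
  rw [Finset.prod_eq_zero (mem_univ s) (by rw [h]; rfl), zero_mul]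

theorem tens_add (T : Fin d → Mx M) (f g : GF d M) : tens T (f + g) = tens T f + tens T g := by
  funext x
  rw [Pi.add_apply]
  unfold tens
  rw [← Finset.sum_add_distrib]
  refine Finset.sum_congr rfl fun z _ => ?_
  rw [Pi.add_apply]
  ring

theorem tens_smul (T : Fin d → Mx M) (c : ℂ) (f : GF d M) : tens T (c • f) = c • tens T f := by
  funext x
  rw [Pi.smul_apply]
  unfold tens
  rw [Finset.smul_sum]
  refine Finset.sum_congr rfl fun z _ => ?_
  rw [Pi.smul_apply, smul_eq_mul, smul_eq_mul]
  ring

theorem tens_sum {ι : Type} (T : Fin d → Mx M) (P : Finset ι) (f : ι → GF d M) :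
    tens T (∑ i ∈ P, f i) = ∑ i ∈ P, tens T (f i) := by
  funext x
  rw [Finset.sum_apply]
  unfold tens
  rw [Finset.sum_comm]
  refine Finset.sum_congr rfl fun z _ => ?_
  rw [Finset.sum_apply, Finset.mul_sum]

/-- expansion of a tensor product of sums -/
theorem tens_prod_sum {ι : Type} [DecidableEq ι] (P : Fin d → Finset ι) (A : Fin d → ι → Mx M)
    (f : GF d M) :
    tens (fun s => ∑ i ∈ P s, A s i) f =
      ∑ a ∈ Fintype.piFinset P, tens (fun s => A s (a s)) f := by
  funext x
  rw [Finset.sum_apply]
  unfold tens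
  rw [Finset.sum_comm]
  refine Finset.sum_congr rfl fun z _ => ?_
  simp only [Matrix.sum_apply]
  rw [Finset.prod_univ_sum, Finset.sum_mul]

theorem act_comm {s t : Fin d} (h : s ≠ t) (T T' : Mx M) (f : GF d M) :
    act s T (act t T' f) = act t T' (act s T f) := by
  rw [act_eq_tens, act_eq_tens, act_eq_tens, act_eq_tens, tens_mul, tens_mul]
  congr 1
  funext u
  by_cases hs : u = s
  · subst hs
    simp [Function.update_of_ne h]
  · by_cases ht : u = t
    · subst ht
      simp [Function.update_of_ne hs]
    · simp [Function.update_of_ne hs, Function.update_of_ne ht]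

theorem act_act (s : Fin d) (T T' : Mx M) (f : GF d M) : act s T (act s T' f) = act s (T * T') f := by
  rw [act_eq_tens, act_eq_tens, act_eq_tens, tens_mul]
  congr 1
  funext u
  by_cases hs : u = s
  · subst hs
    simp
  · simp [Function.update_of_ne hs]

theorem Alg1_ite (U : Finset (Fin d)) (a b : Fin d → ℂ) :
    ∏ s, (if s ∈ U then a s else b s) = (∏ s ∈ U, a s) * ∏ s ∈ univ \ U, b s := by
  classical
  have h := Finset.prod_piecewise univ U a b
  rw [Finset.univ_inter] at h
  rw [← h]
  refine Finset.prod_congr rfl fun s _ => ?_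
  rfl

theorem Alg1_ite' (U : Finset (Fin d)) (A B : Fin d → Mx M) (x z : Fin d → Fin (2 ^ M)) :
    ∏ s, (if s ∈ U then A s else B s) (x s) (z s) =
      (∏ s ∈ U, A s (x s) (z s)) * ∏ s ∈ univ \ U, B s (x s) (z s) := by
  rw [← Alg1_ite]
  refine Finset.prod_congr rfl fun s _ => ?_
  split_ifs <;> rfl

/-- inclusion-exclusion: `∏_{s ∈ U} (1 - A s)` -/
theorem tens_one_sub (U : Finset (Fin d)) (A : Fin d → Mx M) (f : GF d M) :
    tens (fun s => if s ∈ U then 1 - A s else 1) f =
      ∑ V ∈ U.powerset, (-1 : ℂ) ^ V.card • tens (fun s => if s ∈ V then A s else 1) f := by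
  classical
  funext x
  rw [Finset.sum_apply]
  simp only [Pi.smul_apply, smul_eq_mul]
  unfold tens
  simp only [Finset.mul_sum]
  rw [Finset.sum_comm]
  refine Finset.sum_congr rfl fun z _ => ?_
  rw [Alg1_ite' U (fun s => 1 - A s) (fun _ => 1)]
  have h1 : ∏ s ∈ U, (1 - A s) (x s) (z s) =
      ∏ s ∈ U, (-(A s (x s) (z s)) + (1 : Mx M) (x s) (z s)) := by
    refine Finset.prod_congr rfl fun s _ => ?_
    rw [Matrix.sub_apply]
    ring
  rw [h1, Finset.prod_add, Finset.sum_mul, Finset.sum_mul]
  refine Finset.sum_congr rfl fun V hV => ?_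
  rw [Finset.mem_powerset] at hV
  rw [Alg1_ite' V A (fun _ => 1)]
  have h2 : ∏ s ∈ univ \ V, (1 : Mx M) (x s) (z s) =
      (∏ s ∈ univ \ U, (1 : Mx M) (x s) (z s)) * ∏ s ∈ U \ V, (1 : Mx M) (x s) (z s) := by
    rw [← Finset.prod_sdiff (Finset.sdiff_subset_sdiff (Finset.subset_univ U) (Finset.Subset.refl V))]
    congr 2
    ext s
    simp only [Finset.mem_sdiff, Finset.mem_univ, true_and]
    constructor
    · rintro ⟨a, b⟩ c
      exact b ⟨c, a⟩
    · intro a
      exact ⟨fun c => a (hV c), fun c => a c.1⟩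
  rw [h2, Finset.prod_neg]
  ring

end Pool.Agent.H714R3.BD
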