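import Pool.Agent.H714R3.BD.Torus

set_option autoImplicit false

namespace Pool.Agent.H714R3.BD

open Finset MeasureTheory

variable {d : ℕ}

/-- B15 (file Axes.lean): the part of a polynomial with prescribed set of nonzero coordinates. -/
theorem nrmd_proj (S : Finset (Fin d → ℤ)) (c : (Fin d → ℤ) → ℂ) (A : Finset (Fin d)) :
    nrmd (Pd (S.filter (fun k => ∀ s, k s ≠ 0 ↔ s ∈ A)) c) ≤ 2 ^ d * nrmd (Pd S c) := by
  sorry

/-- B15' (file Axes.lean): triangle inequality over the sets of nonzero coordinates. -/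
theorem nrmd_le_sum (S : Finset (Fin d → ℤ)) (c : (Fin d → ℤ) → ℂ) :
    nrmd (Pd S c) ≤ ∑ A : Finset (Fin d), nrmd (Pd (S.filter (fun k => ∀ s, k s ≠ 0 ↔ s ∈ A)) c) := by
  sorry

end Pool.Agent.H714R3.BD
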