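import Pool.Agent.H714R3.BD.Multi
import Pool.Agent.H714R3.BD.One
import Pool.Agent.Helper643.Bern.T16a

set_option autoImplicit false

namespace Pool.Agent.H714R3.BD

open Finset BernT Matrix

variable {d M : ℕ}

/-- offsets -/
noncomputable def Block_W (d M : ℕ) : Finset (Fin d → ℤ) :=
  Fintype.piFinset (fun _ => Finset.Ioo (-(M : ℤ)) M)

/-- levels with given offset -/
noncomputable def Block_P (M m : ℕ) (w : Fin d → ℤ) : Finset (Fin d → ℕ) :=
  (Fintype.piFinset (fun _ : Fin d => range M)).filter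
    (fun a => (∀ s, w s ≤ a s) ∧ ∑ s, ((a s : ℤ) - w s) = m)

theorem Block_reindex {E : Type} [AddCommMonoid E] {m : ℕ} (hm : m + 2 ≤ M)
    (φ : (Fin d → ℕ) → (Fin d → ℕ) → E) :
    ∑ t ∈ lv d m, ∑ a ∈ Fintype.piFinset (fun _ : Fin d => range M), φ t a =
      ∑ w ∈ Block_W d M, ∑ a ∈ Block_P M m w, φ (fun s => ((a s : ℤ) - w s).toNat) a := by
  unfold Block_P
  simp only [Finset.sum_filter]
  rw [Finset.sum_comm]
  conv_rhs => rw [Finset.sum_comm]
  refine Finset.sum_congr rfl fun a ha => ?_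
  rw [Fintype.mem_piFinset] at ha
  rw [← Finset.sum_filter]
  refine Finset.sum_nbij' (fun t s => (a s : ℤ) - t s) (fun w s => ((a s : ℤ) - w s).toNat)
    ?_ ?_ ?_ ?_ ?_
  · intro t ht
    rw [mem_lv] at ht
    rw [Finset.mem_filter, Block_W, Fintype.mem_piFinset]
    refine ⟨fun s => ?_, fun s => by dsimp only; omega, ?_⟩
    · have h1 : t s ≤ m := by
        rw [← ht]
        exact Finset.single_le_sum (fun i _ => Nat.zero_le (t i)) (Finset.mem_univ s)
      have h2 := Finset.mem_range.1 (ha s)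
      rw [Finset.mem_Ioo]
      constructor <;> omega
    · rw [← ht]
      push_cast
      exact Finset.sum_congr rfl fun s _ => by ring
  · intro w hw
    rw [Finset.mem_filter] at hw
    obtain ⟨-, h1, h2⟩ := hw
    rw [mem_lv]
    have h3 : ((∑ s, ((a s : ℤ) - w s).toNat : ℕ) : ℤ) = m := by
      rw [← h2]
      push_cast
      exact Finset.sum_congr rfl fun s _ => by have := h1 s; omega
    exact_mod_cast h3
  · intro t ht
    funext s
    dsimp only
    omega
  · intro w hw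
    rw [Finset.mem_filter] at hw
    funext s
    have := hw.2.1 s
    dsimp only
    omega
  · intro t ht
    have : (fun s => ((a s : ℤ) - ((a s : ℤ) - t s)).toNat) = t := by
      funext s
      omega
    rw [this]

theorem Block_L1d_sum {ι : Type} (S : Finset ι) (g : ι → GF d M) :
    L1d (∑ i ∈ S, g i) ≤ ∑ i ∈ S, L1d (g i) := by
  unfold L1d
  rw [Finset.sum_comm]
  refine Finset.sum_le_sum fun x _ => ?_
  rw [Finset.sum_apply]
  exact norm_sum_le _ _

theorem Block_S_le (hd : 1 ≤ d) {m : ℕ} (w : Fin d → ℤ) (f : GF d M) :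
    ∑ x, Real.sqrt (∑ a ∈ Block_P M m w, ‖DD a f x‖ ^ 2) ≤
      ∑ q ∈ range (d * M), if (q : ℤ) = m + ∑ s, w s then NNd q f else 0 := by
  have hnn : ∀ q ∈ range (d * M), 0 ≤ (if (q : ℤ) = m + ∑ s, w s then NNd q f else 0) := by
    intro q _
    split_ifs
    · exact NNd_nonneg q f
    · exact le_rfl
  rcases (Block_P M m w).eq_empty_or_nonempty with h0 | ⟨a, ha⟩
  · rw [h0]
    simp only [Finset.sum_empty, Real.sqrt_zero, Finset.sum_const_zero]
    exact Finset.sum_nonneg hnn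
  · have hq : ∀ a' ∈ Block_P M m w, ((∑ s, a' s : ℕ) : ℤ) = m + ∑ s, w s := by
      intro a' ha'
      unfold Block_P at ha'
      rw [Finset.mem_filter] at ha'
      have h1 := ha'.2.2
      rw [Finset.sum_sub_distrib] at h1
      push_cast
      linarith
    have hlt : ∑ s, a s < d * M := by
      unfold Block_P at ha
      rw [Finset.mem_filter, Fintype.mem_piFinset] at ha
      have hne : (Finset.univ : Finset (Fin d)).Nonempty := ⟨⟨0, hd⟩, Finset.mem_univ _⟩
      calc ∑ s, a s < ∑ s : Fin d, M :=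
            Finset.sum_lt_sum_of_nonempty hne fun s _ => Finset.mem_range.1 (ha.1 s)
        _ = d * M := by rw [Finset.sum_const, Finset.card_univ, Fintype.card_fin, smul_eq_mul]
    refine le_trans ?_ (Finset.single_le_sum hnn (Finset.mem_range.2 hlt))
    rw [if_pos (hq a ha)]
    unfold NNd
    refine Finset.sum_le_sum fun x _ => Real.sqrt_le_sqrt ?_
    refine Finset.sum_le_sum_of_subset_of_nonneg ?_ fun _ _ _ => by positivity
    intro a' ha'
    rw [mem_lv]
    have h1 := hq a ha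
    rw [← hq a' ha'] at h1
    exact_mod_cast h1.symm

theorem Block_num (m q : ℕ) (w : Fin d → ℤ) (h : (q : ℤ) = m + ∑ s, w s) :
    ∏ s, (2 : ℝ) ^ (-(|(w s : ℝ)| / 2)) ≤
      (2 : ℝ) ^ (-(|(q : ℝ) - m| / 4)) * ∏ s, (2 : ℝ) ^ (-(|(w s : ℝ)| / 4)) := by
  rw [← Real.rpow_sum_of_pos (by norm_num), ← Real.rpow_sum_of_pos (by norm_num),
    ← Real.rpow_add (by norm_num)]
  refine Real.rpow_le_rpow_of_exponent_le (by norm_num) ?_
  have h1 : (q : ℝ) - m = ∑ s, (w s : ℝ) := by
    have h2 : (q : ℝ) = m + ∑ s, (w s : ℝ) := by exact_mod_cast h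
    linarith
  have h2 : |(q : ℝ) - m| ≤ ∑ s, |(w s : ℝ)| := by
    rw [h1]
    exact Finset.abs_sum_le_sum_abs _ _
  rw [Finset.sum_neg_distrib, Finset.sum_neg_distrib, ← Finset.sum_div, ← Finset.sum_div]
  linarith

/-- B10 (file Block.lean): the derivative blocks of one level. -/
theorem blockd (d : ℕ) (hd : 1 ≤ d) (r : ℝ) (hr : 0 ≤ r) :
    ∃ C : ℝ, 0 < C ∧ ∀ (M m : ℕ) (u v : Fin d → ℂ), (∀ s, ‖u s‖ ≤ 1) → (∀ s, ‖v s‖ ≤ 1) →
      m + 2 ≤ M → ∀ (f : GF d M), (∀ s, act s (Em M 0) f = 0) →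
      L1d (∑ t ∈ lv d m, tens (fun s => Mm r (u s) (v s) M (t s)) f) ≤
        C * ∑ q ∈ range (d * M), (2 : ℝ) ^ (-(|(q : ℝ) - m| / 4)) * NNd q f := by
  obtain ⟨C, hC, hfam⟩ := act_mfam r hr
  set K : ℝ := ∑' w : ℤ, (2:ℝ)^(-(|(w:ℝ)|/4)) with hK
  have hKpos : 0 < K := by
    have h := BernT.ST16a.bs_summable.sum_le_tsum {(0:ℤ)} (fun _ _ => by positivity)
    rw [Finset.sum_singleton] at h
    refine lt_of_lt_of_le ?_ h
    positivity
  refine ⟨C ^ d * K ^ d, by positivity, ?_⟩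
  intro M m u v hu hv hm f hf
  have e1 : ∑ t ∈ lv d m, tens (fun s => Mm r (u s) (v s) M (t s)) f =
      ∑ w ∈ Block_W d M, ∑ a ∈ Block_P M m w,
        tens (fun s => TM r (u s) (v s) M (w s) (a s)) (DD a f) := by
    have h1 : ∀ t ∈ lv d m, tens (fun s => Mm r (u s) (v s) M (t s)) f =
        ∑ a ∈ Fintype.piFinset (fun _ : Fin d => range M),
          tens (fun s => Mm r (u s) (v s) M (t s)) (DD a f) := by
      intro t _
      conv_lhs => rw [haar_decomp f hf]
      rw [tens_sum]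
    rw [Finset.sum_congr rfl h1, Block_reindex hm
      (fun t a => tens (fun s => Mm r (u s) (v s) M (t s)) (DD a f))]
    refine Finset.sum_congr rfl fun w _ => Finset.sum_congr rfl fun a ha => ?_
    congr 1
    funext s
    unfold Block_P at ha
    rw [Finset.mem_filter] at ha
    have h2 := ha.2.1 s
    have h3 : (a s : ℤ) - w s ≤ m := by
      rw [← ha.2.2]
      exact Finset.single_le_sum (f := fun s => (a s : ℤ) - w s)
        (fun i _ => by have := ha.2.1 i; omega) (Finset.mem_univ s)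
    unfold TM
    rw [if_pos ⟨by omega, by omega⟩]
  rw [e1]
  have hw : ∀ w ∈ Block_W d M, L1d (∑ a ∈ Block_P M m w,
      tens (fun s => TM r (u s) (v s) M (w s) (a s)) (DD a f)) ≤
      ∑ q ∈ range (d * M), C ^ d * ((2 : ℝ) ^ (-(|(q : ℝ) - m| / 4)) * NNd q f) *
        ∏ s, (2 : ℝ) ^ (-(|(w s : ℝ)| / 4)) := by
    intro w _
    have h1 := multi_sum (M := M) (fun s a => TM r (u s) (v s) M (w s) a)
      (fun s => C * (2 : ℝ) ^ (-(|(w s : ℝ)| / 2))) (fun s => by positivity)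
      (fun s ι _ F hF => hfam d M (u s) (v s) (hu s) (hv s) (w s) s ι F hF)
      (Block_P M m w) (by
        intro a ha s
        unfold Block_P at ha
        rw [Finset.mem_filter, Fintype.mem_piFinset] at ha
        exact Finset.mem_range.1 (ha.1 s)) (fun a => DD a f) (fun a s => act_DD a s f)
    have h2 : L1d (∑ a ∈ Block_P M m w, tens (fun s => TM r (u s) (v s) M (w s) (a s)) (DD a f)) =
        ∑ x, ‖∑ a ∈ Block_P M m w, tens (fun s => TM r (u s) (v s) M (w s) (a s)) (DD a f) x‖ := by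
      unfold L1d
      refine Finset.sum_congr rfl fun x _ => ?_
      rw [Finset.sum_apply]
    rw [h2]
    refine h1.trans ?_
    refine (mul_le_mul_of_nonneg_left (Block_S_le hd w f) (by positivity)).trans ?_
    rw [Finset.mul_sum]
    refine Finset.sum_le_sum fun q _ => ?_
    have hNN := NNd_nonneg q f
    split_ifs with hq
    · have h3 := Block_num m q w hq
      rw [Finset.prod_mul_distrib, Finset.prod_const, Finset.card_univ, Fintype.card_fin]
      calc C ^ d * (∏ s, (2 : ℝ) ^ (-(|(w s : ℝ)| / 2))) * NNd q f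
          ≤ C ^ d * ((2 : ℝ) ^ (-(|(q : ℝ) - m| / 4)) * ∏ s, (2 : ℝ) ^ (-(|(w s : ℝ)| / 4))) *
            NNd q f := by gcongr
        _ = _ := by ring
    · rw [mul_zero]
      positivity
  refine (Block_L1d_sum _ _).trans ((Finset.sum_le_sum hw).trans ?_)
  rw [Finset.sum_comm, Finset.mul_sum]
  refine Finset.sum_le_sum fun q _ => ?_
  have hNN := NNd_nonneg q f
  rw [← Finset.mul_sum]
  have h4 : ∑ w ∈ Block_W d M, ∏ s, (2 : ℝ) ^ (-(|(w s : ℝ)| / 4)) ≤ K ^ d := by
    unfold Block_W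
    rw [← Finset.prod_univ_sum (fun _ : Fin d => Finset.Ioo (-(M : ℤ)) M)
      (fun _ i => (2 : ℝ) ^ (-(|(i : ℝ)| / 4)))]
    calc ∏ _s : Fin d, ∑ i ∈ Finset.Ioo (-(M : ℤ)) M, (2 : ℝ) ^ (-(|(i : ℝ)| / 4))
        ≤ ∏ _s : Fin d, K := by
          refine Finset.prod_le_prod (fun _ _ => by positivity) fun _ _ => ?_
          exact BernT.ST16a.bs_summable.sum_le_tsum _ (fun _ _ => by positivity)
      _ = K ^ d := by rw [Finset.prod_const, Finset.card_univ, Fintype.card_fin]
  calc C ^ d * ((2 : ℝ) ^ (-(|(q : ℝ) - m| / 4)) * NNd q f) *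
        ∑ w ∈ Block_W d M, ∏ s, (2 : ℝ) ^ (-(|(w s : ℝ)| / 4))
      ≤ C ^ d * ((2 : ℝ) ^ (-(|(q : ℝ) - m| / 4)) * NNd q f) * K ^ d := by gcongr
    _ = _ := by ring

end Pool.Agent.H714R3.BD
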