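import Pool.Agent.H714R3.BD.ADefs
import Pool.Agent.H714R3.BD.Alg

set_option autoImplicit false

namespace Pool.Agent.H714R3.BD

open Finset BernT Matrix Pool.Agent.H730R2.LD

variable {d M : ℕ}

/-! B7 (file Bridge.lean): the matrices `Em`, `Dm` and the system `gridSys` -/

theorem act_Em_real (s : Fin d) (k : ℕ) (u : (Fin d → Fin (2 ^ M)) → ℝ) :
    act s (Em M k) (fun x => (u x : ℂ)) = fun x => ((gridSys d M).E s k u x : ℂ) := by
  funext x
  rw [gridSys_E, Egrid_apply]
  unfold act Em
  push_cast
  rw [Finset.sum_div]
  refine Finset.sum_congr rfl fun b _ => ?_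
  by_cases h : b.val / 2 ^ (M - k) = (x s).val / 2 ^ (M - k)
  · rw [if_pos h.symm, if_pos h, div_eq_inv_mul]
  · rw [if_neg (fun h' => h h'.symm), if_neg h]
    simp

theorem tens_Em_real (V : Finset (Fin d)) (K : Fin d → ℕ) (u : (Fin d → Fin (2 ^ M)) → ℝ) :
    tens (fun s => if s ∈ V then Em M (K s) else 1) (fun x => (u x : ℂ)) =
      fun x => ((gridSys d M).EU V K u x : ℂ) := by
  classical
  induction V using Finset.induction_on with
  | empty => simpa using tens_one (fun x => (u x : ℂ))
  | insert s V hs ih =>
    rw [tens_split _ s, Sys.EU_insert _ hs]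
    have h1 : Function.update (fun t => if t ∈ insert s V then Em M (K t) else 1) s 1 =
        fun t => if t ∈ V then Em M (K t) else 1 := by
      funext t
      by_cases ht : t = s
      · subst ht
        rw [Function.update_self, if_neg hs]
      · rw [Function.update_of_ne ht]
        simp [ht]
    rw [h1, ih, if_pos (mem_insert_self s V), act_Em_real]

theorem Bridge_act_sub (s : Fin d) (A B : Mx M) (f : GF d M) :
    act s (A - B) f = act s A f - act s B f := by
  funext x
  unfold act
  rw [Pi.sub_apply, ← Finset.sum_sub_distrib]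
  refine Finset.sum_congr rfl fun z _ => ?_
  rw [Matrix.sub_apply, sub_mul]

theorem Bridge_EU_r {R : ℕ} {X : Type} [Fintype X] (S : Sys d R X) {U : Finset (Fin d)}
    {s : Fin d} (hs : s ∉ U) (K : Fin d → ℕ) (l : ℕ) (f : X → ℝ) :
    S.EU U K (S.r s l * f) = S.r s l * S.EU U K f := by
  classical
  induction U using Finset.induction_on generalizing f with
  | empty => simp
  | insert t U ht ih =>
    have hst : s ≠ t := fun h => hs (h ▸ mem_insert_self t U)
    have hsU : s ∉ U := fun h => hs (mem_insert_of_mem h)
    rw [S.EU_insert ht, S.EU_insert ht, ih hsU, S.E_r_other t s (K t) l hst]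

theorem Bridge_tens_Dm (a : Fin d → ℕ) (ha : ∀ s, a s < M) (u : (Fin d → Fin (2 ^ M)) → ℝ)
    (U : Finset (Fin d)) :
    tens (fun s => if s ∈ U then Dm M (a s) else 1) (fun x => (u x : ℂ)) =
      fun x => ((((gridSys d M).chi U a *
        (gridSys d M).EU U a ((gridSys d M).chi U a * u)) x : ℝ) : ℂ) := by
  classical
  induction U using Finset.induction_on with
  | empty => simpa using tens_one (fun x => (u x : ℂ))
  | insert s U hs ih =>
    rw [tens_split _ s]
    have h1 : Function.update (fun t => if t ∈ insert s U then Dm M (a t) else 1) s 1 =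
        fun t => if t ∈ U then Dm M (a t) else 1 := by
      funext t
      by_cases ht : t = s
      · subst ht
        rw [Function.update_self, if_neg hs]
      · rw [Function.update_of_ne ht]
        simp [ht]
    rw [h1, ih, if_pos (mem_insert_self s U)]
    set S := gridSys d M with hS
    set w := S.chi U a * S.EU U a (S.chi U a * u) with hw
    unfold Dm
    rw [Bridge_act_sub, act_Em_real, act_Em_real, ← hS]
    have h2 := S.haar s (a s) w (ha s)
    have h3 : S.r s (a s) * S.E s (a s) (S.r s (a s) * w) =
        S.chi (insert s U) a * S.EU (insert s U) a (S.chi (insert s U) a * u) := by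
      rw [S.chi_insert hs, S.EU_insert hs, hw]
      have e1 : S.r s (a s) * (S.chi U a * S.EU U a (S.chi U a * u)) =
          S.chi U a * (S.r s (a s) * S.EU U a (S.chi U a * u)) := by ring
      rw [e1, S.E_chi hs, ← Bridge_EU_r S hs]
      have e2 : S.r s (a s) * S.chi U a * u = S.r s (a s) * (S.chi U a * u) := by ring
      rw [e2]
      ring
    rw [h3] at h2
    funext x
    have h4 := congrFun h2 x
    rw [Pi.add_apply] at h4
    rw [Pi.sub_apply, h4]
    push_cast
    ring

theorem DD_real (a : Fin d → ℕ) (ha : ∀ s, a s < M) (u : (Fin d → Fin (2 ^ M)) → ℝ) :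
    DD a (fun x => (u x : ℂ)) =
      fun x => (((gridSys d M).chi univ a x * co (gridSys d M) a u x : ℝ) : ℂ) := by
  have h := Bridge_tens_Dm a ha u univ
  simp only [mem_univ, if_true] at h
  exact h

end Pool.Agent.H714R3.BD
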