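import Pool.Agent.H714R3.BD.InvSys

set_option autoImplicit false

namespace Pool.Agent.H714R3.BD

open Finset Pool.Agent.H730R2.LD

/-- A9a (file Kept.lean): the sign of a digit does not depend on the later digits. -/
theorem grid_r_same (d M : ℕ) (s : Fin d) (k l : ℕ) (hkl : k < l) (hl : l ≤ M)
    (x y : Fin d → Fin (2 ^ M)) (h : (gridSys d M).rel s l x y) :
    (gridSys d M).r s k x = (gridSys d M).r s k y := by
  sorry

/-- A9b (file Kept.lean): the system of the kept digits `ρ s + g * κ`, `κ < M / g`; all other binary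
digits are frozen. -/
theorem exists_kept (d M g : ℕ) (hg : 0 < g) (ρ : Fin d → ℕ) (hρ : ∀ s, ρ s < g) :
    ∃ S' : Sys d (M / g) (Fin d → Fin (2 ^ M)),
      (∀ s κ f, κ ≤ M / g → (gridSys d M).E s (ρ s + g * κ) f = f → S'.E s κ f = f) ∧
      (∀ s κ t k f, S'.E s κ ((gridSys d M).E t k f) = (gridSys d M).E t k (S'.E s κ f)) ∧
      (∀ s κ, κ < M / g → S'.r s κ = (gridSys d M).r s (ρ s + g * κ)) ∧
      (∀ s κ f, κ < M / g → (gridSys d M).E s (ρ s + g * κ) (S'.E s κ f) =
        (gridSys d M).E s (ρ s + g * κ) f) := by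
  sorry

end Pool.Agent.H714R3.BD
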