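import Pool.Agent.H714R3.BD.ADefs

set_option autoImplicit false

namespace Pool.Agent.H714R3.BD

open Finset Pool.Agent.H730R2.LD

variable {d R : ℕ} {X : Type} [Fintype X] (S : Sys d R X)

/-- vector valued Jensen inequality -/
theorem Lep_jensen (s : Fin d) (k : ℕ) {P : Type} (A : Finset P) (ξ : P → X → ℝ) (x : X) :
    ∑ p ∈ A, (S.E s k (ξ p) x) ^ 2 ≤
      (S.E s k (fun y => Real.sqrt (∑ p ∈ A, ξ p y ^ 2)) x) ^ 2 := by
  set W : ℝ := ∑ p ∈ A, (S.E s k (ξ p) x) ^ 2 with hW
  set y : ℝ := S.E s k (fun y => Real.sqrt (∑ p ∈ A, ξ p y ^ 2)) x with hy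
  have hW0 : 0 ≤ W := Finset.sum_nonneg fun _ _ => sq_nonneg _
  have h1 : W = S.E s k (∑ p ∈ A, (S.E s k (ξ p) x) • ξ p) x := by
    rw [map_sum, Finset.sum_apply]
    refine Finset.sum_congr rfl fun p _ => ?_
    rw [map_smul, Pi.smul_apply, smul_eq_mul, sq]
  have h2 : S.E s k (∑ p ∈ A, (S.E s k (ξ p) x) • ξ p) x ≤
      S.E s k (Real.sqrt W • (fun y => Real.sqrt (∑ p ∈ A, ξ p y ^ 2))) x := by
    apply S.E_mono
    intro z
    rw [Finset.sum_apply, Pi.smul_apply, smul_eq_mul]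
    simp only [Pi.smul_apply, smul_eq_mul]
    exact Real.sum_mul_le_sqrt_mul_sqrt A (fun p => S.E s k (ξ p) x) (fun p => ξ p z)
  rw [← h1, map_smul, Pi.smul_apply, smul_eq_mul, ← hy] at h2
  have hs : Real.sqrt W * Real.sqrt W = W := Real.mul_self_sqrt hW0
  have hs0 := Real.sqrt_nonneg W
  rcases hs0.eq_or_lt with h0 | h0
  · have : W = 0 := by rw [← hs, ← h0, mul_zero]
    rw [this]
    exact sq_nonneg _
  · have h3 : Real.sqrt W ≤ y := by
      have : Real.sqrt W * Real.sqrt W ≤ Real.sqrt W * y := by rw [hs]; exact h2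
      exact le_of_mul_le_mul_left this h0
    calc W = Real.sqrt W * Real.sqrt W := hs.symm
      _ ≤ y * y := mul_le_mul h3 h3 hs0 (hs0.trans h3)
      _ = y ^ 2 := (sq y).symm

/-- A10 (file Lep.lean): Lépingle's inequality for vector valued adapted families. -/
theorem lep (s : Fin d) {P : Type} [Fintype P] (κ : P → ℕ) (g ρ : ℕ) (ξ : P → X → ℝ)
    (hξ : ∀ p, S.E s (ρ + g * (κ p + 1)) (ξ p) = ξ p) :
    ∑ x, Real.sqrt (∑ p, (S.E s (ρ + g * κ p) (ξ p) x) ^ 2) ≤
      6 * ∑ x, Real.sqrt (∑ p, (ξ p x) ^ 2) := by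
  classical
  obtain ⟨N, hN⟩ : ∃ N, ∀ p, κ p < N :=
    ⟨Finset.univ.sup κ + 1, fun p => Nat.lt_succ_of_le (Finset.le_sup (Finset.mem_univ p))⟩
  set Z : ℕ → X → ℝ := fun j x => ∑ p ∈ Finset.univ.filter (fun p => κ p = j), ξ p x ^ 2 with hZ
  set Sq : ℕ → X → ℝ := fun j x => ∑ p ∈ Finset.univ.filter (fun p => κ p < j), ξ p x ^ 2 with hSq
  set a : ℕ → X → ℝ := fun j x => Real.sqrt (Sq j x) with ha
  set ζ : ℕ → X → ℝ := fun j x => Real.sqrt (Z j x) with hζ
  have hZ0 : ∀ j x, 0 ≤ Z j x := fun j x => Finset.sum_nonneg fun _ _ => sq_nonneg _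
  have hSq0 : ∀ j x, 0 ≤ Sq j x := fun j x => Finset.sum_nonneg fun _ _ => sq_nonneg _
  have hstep : ∀ j x, Sq (j + 1) x = Sq j x + Z j x := by
    intro j x
    have h1 : Finset.univ.filter (fun p => κ p < j + 1) =
        Finset.univ.filter (fun p => κ p < j) ∪ Finset.univ.filter (fun p => κ p = j) := by
      ext p
      simp only [Finset.mem_filter, Finset.mem_univ, true_and, Finset.mem_union]
      omega
    have h2 : Disjoint (Finset.univ.filter (fun p => κ p < j))
        (Finset.univ.filter (fun p => κ p = j)) := by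
      rw [Finset.disjoint_left]
      intro p hp hp'
      simp only [Finset.mem_filter, Finset.mem_univ, true_and] at hp hp'
      omega
    simp only [hSq, hZ]
    rw [h1, Finset.sum_union h2]
  have ha0 : ∀ j x, 0 ≤ a j x := fun j x => Real.sqrt_nonneg _
  have hζ0 : ∀ j x, 0 ≤ ζ j x := fun j x => Real.sqrt_nonneg _
  have haa : ∀ j x, a j x ^ 2 = Sq j x := fun j x => Real.sq_sqrt (hSq0 j x)
  have hζζ : ∀ j x, ζ j x ^ 2 = Z j x := fun j x => Real.sq_sqrt (hZ0 j x)
  have hmono : ∀ j x, a j x ≤ a (j + 1) x := fun j x => by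
    apply Real.sqrt_le_sqrt
    rw [hstep]
    linarith [hZ0 j x]
  have hmono' : ∀ j x, a j x ≤ a N x ∨ N < j := by
    intro j x
    by_cases hj : j ≤ N
    · left
      exact monotone_nat_of_le_succ (f := fun j => a j x) (fun j => hmono j x) hj
    · right; omega
  have hadd : ∀ j x, a (j + 1) x ≤ a j x + ζ j x := by
    intro j x
    have h1 : 0 ≤ a j x + ζ j x := add_nonneg (ha0 j x) (hζ0 j x)
    apply Real.sqrt_le_iff.2
    refine ⟨h1, ?_⟩
    rw [hstep, ← haa, ← hζζ]
    nlinarith [mul_nonneg (ha0 j x) (hζ0 j x)]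
  -- measurability
  have hmeas : ∀ j x y, S.rel s (ρ + g * j) x y → a j x = a j y := by
    intro j x y hxy
    simp only [ha, hSq]
    congr 1
    refine Finset.sum_congr rfl fun p hp => ?_
    simp only [Finset.mem_filter, Finset.mem_univ, true_and] at hp
    congr 1
    rw [← hξ p]
    refine S.E_meas s _ _ x y (S.rel_mono s _ _ x y ?_ hxy)
    have : g * (κ p + 1) ≤ g * j := Nat.mul_le_mul_left g hp
    omega
  have hEa : ∀ j, S.E s (ρ + g * j) (a j) = a j := by
    intro j
    have := S.E_pull s (ρ + g * j) (a j) 1 (hmeas j)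
    rwa [mul_one, S.E_one, mul_one] at this
  -- the functions `q j`
  set r : ℕ → X → ℝ := fun j x => Z j x / a (j + 1) x with hr
  have hr0 : ∀ j x, 0 ≤ r j x := fun j x => div_nonneg (hZ0 j x) (ha0 _ x)
  set q : ℕ → X → ℝ := fun j => S.E s (ρ + g * j) (r j) with hq
  have hq0 : ∀ j x, 0 ≤ q j x := fun j x => S.E_nonneg s _ (hr0 j) x
  have hy : ∀ j x, (S.E s (ρ + g * j) (ζ j) x) ^ 2 ≤ 2 * (q j x * a j x) + q j x ^ 2 := by
    intro j x
    set y := S.E s (ρ + g * j) (ζ j) x with hydef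
    have hy0 : 0 ≤ y := S.E_nonneg s _ (hζ0 j) x
    have h1 := S.E_cs s (ρ + g * j) (fun z => ζ j z / Real.sqrt (a (j + 1) z))
      (fun z => Real.sqrt (a (j + 1) z)) x
    have e1 : (fun z => ζ j z / Real.sqrt (a (j + 1) z)) * (fun z => Real.sqrt (a (j + 1) z)) =
        ζ j := by
      funext z
      simp only [Pi.mul_apply]
      by_cases h0 : a (j + 1) z = 0
      · have h2 : ζ j z = 0 := by
          have h3 : Sq (j + 1) z = 0 := by rw [← haa, h0]; ring
          have h4 : Z j z = 0 := by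
            have := hstep j z
            have := hSq0 j z
            have := hZ0 j z
            linarith
          simp only [hζ]
          rw [h4, Real.sqrt_zero]
        rw [h2]; simp
      · have h2 : Real.sqrt (a (j + 1) z) ≠ 0 := by
          rw [Real.sqrt_ne_zero']
          exact lt_of_le_of_ne (ha0 _ z) (Ne.symm h0)
        field_simp
    have e2 : (fun z => ζ j z / Real.sqrt (a (j + 1) z)) *
        (fun z => ζ j z / Real.sqrt (a (j + 1) z)) = r j := by
      funext z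
      simp only [Pi.mul_apply, hr]
      rw [div_mul_div_comm, Real.mul_self_sqrt (ha0 _ z), ← sq, hζζ]
    have e3 : (fun z => Real.sqrt (a (j + 1) z)) * (fun z => Real.sqrt (a (j + 1) z)) =
        a (j + 1) := by
      funext z
      simp only [Pi.mul_apply]
      exact Real.mul_self_sqrt (ha0 _ z)
    rw [e1, e2, e3] at h1
    have h2 : S.E s (ρ + g * j) (a (j + 1)) x ≤ a j x + y := by
      have h3 := S.E_mono s (ρ + g * j) (f := a (j + 1)) (g := a j + ζ j)
        (fun z => hadd j z) x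
      rw [map_add, Pi.add_apply, hEa] at h3
      exact h3
    have h3 : y ^ 2 ≤ q j x * (a j x + y) :=
      h1.trans (mul_le_mul_of_nonneg_left h2 (hq0 j x))
    nlinarith [sq_nonneg (q j x - y)]
  -- the pointwise bound
  have hpt : ∀ x, Real.sqrt (∑ p, (S.E s (ρ + g * κ p) (ξ p) x) ^ 2) ≤
      ∑ j ∈ Finset.range N, q j x + a N x := by
    intro x
    set Q := ∑ j ∈ Finset.range N, q j x with hQ
    have hQ0 : 0 ≤ Q := Finset.sum_nonneg fun j _ => hq0 j x
    have h1 : ∑ p, (S.E s (ρ + g * κ p) (ξ p) x) ^ 2 =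
        ∑ j ∈ Finset.range N, ∑ p ∈ Finset.univ.filter (fun p => κ p = j),
          (S.E s (ρ + g * j) (ξ p) x) ^ 2 := by
      rw [← Finset.sum_fiberwise_of_maps_to (s := Finset.univ) (t := Finset.range N) (g := κ)
        (fun p _ => Finset.mem_range.2 (hN p))]
      refine Finset.sum_congr rfl fun j _ => Finset.sum_congr rfl fun p hp => ?_
      rw [(Finset.mem_filter.1 hp).2]
    have h2 : ∑ p, (S.E s (ρ + g * κ p) (ξ p) x) ^ 2 ≤
        ∑ j ∈ Finset.range N, (2 * (q j x * a N x) + q j x ^ 2) := by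
      rw [h1]
      refine Finset.sum_le_sum fun j hj => ?_
      have h3 := Lep_jensen S s (ρ + g * j) (Finset.univ.filter (fun p => κ p = j)) ξ x
      have h4 := hy j x
      have h5 : a j x ≤ a N x := by
        rcases hmono' j x with h | h
        · exact h
        · have := Finset.mem_range.1 hj; omega
      have h6 : q j x * a j x ≤ q j x * a N x := mul_le_mul_of_nonneg_left h5 (hq0 j x)
      have h7 : (S.E s (ρ + g * j) (fun y => Real.sqrt
          (∑ p ∈ Finset.univ.filter (fun p => κ p = j), ξ p y ^ 2)) x) =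
          S.E s (ρ + g * j) (ζ j) x := rfl
      rw [h7] at h3
      linarith
    have h3 : ∑ j ∈ Finset.range N, (2 * (q j x * a N x) + q j x ^ 2) ≤
        (Q + a N x) ^ 2 := by
      rw [Finset.sum_add_distrib, ← Finset.mul_sum, ← Finset.sum_mul, ← hQ]
      have h4 : ∑ j ∈ Finset.range N, q j x ^ 2 ≤ Q ^ 2 :=
        Finset.sum_sq_le_sq_sum_of_nonneg fun j _ => hq0 j x
      nlinarith [sq_nonneg (a N x)]
    calc Real.sqrt (∑ p, (S.E s (ρ + g * κ p) (ξ p) x) ^ 2)
        ≤ Real.sqrt ((Q + a N x) ^ 2) := Real.sqrt_le_sqrt (h2.trans h3)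
      _ = Q + a N x := Real.sqrt_sq (add_nonneg hQ0 (ha0 N x))
  -- the sum of the `q j`
  have hsum : ∑ x, ∑ j ∈ Finset.range N, q j x ≤ 2 * ∑ x, a N x := by
    rw [Finset.sum_comm]
    have h1 : ∀ j ∈ Finset.range N, ∑ x, q j x ≤ 2 * (∑ x, a (j + 1) x - ∑ x, a j x) := by
      intro j _
      have h2 : ∑ x, q j x = ∑ x, r j x := S.E_sum s _ _
      rw [h2, ← Finset.sum_sub_distrib, Finset.mul_sum]
      refine Finset.sum_le_sum fun x _ => ?_
      have h3 : Z j x = a (j + 1) x ^ 2 - a j x ^ 2 := by rw [haa, haa, hstep]; ring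
      have h4 := hmono j x
      have h5 := ha0 j x
      rcases (ha0 (j + 1) x).eq_or_lt with h0 | h0
      · simp only [hr]
        rw [← h0, div_zero]
        linarith
      · simp only [hr]
        rw [div_le_iff₀ h0, h3]
        nlinarith
    refine (Finset.sum_le_sum h1).trans ?_
    rw [← Finset.mul_sum, Finset.sum_range_sub (fun j => ∑ x, a j x)]
    have h2 : 0 ≤ ∑ x, a 0 x := Finset.sum_nonneg fun x _ => ha0 0 x
    linarith
  have haN : ∀ x, a N x = Real.sqrt (∑ p, (ξ p x) ^ 2) := by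
    intro x
    simp only [ha, hSq]
    rw [Finset.filter_true_of_mem fun p _ => hN p]
  have hfin : ∑ x, Real.sqrt (∑ p, (S.E s (ρ + g * κ p) (ξ p) x) ^ 2) ≤
      ∑ x, (∑ j ∈ Finset.range N, q j x + a N x) := Finset.sum_le_sum fun x _ => hpt x
  rw [Finset.sum_add_distrib] at hfin
  have hpos : 0 ≤ ∑ x, a N x := Finset.sum_nonneg fun x _ => ha0 N x
  have heq : ∑ x, Real.sqrt (∑ p, (ξ p x) ^ 2) = ∑ x, a N x :=
    Finset.sum_congr rfl fun x _ => (haN x).symm
  rw [heq]
  linarith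

end Pool.Agent.H714R3.BD
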