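import Pool.Agent.H714R3.BD.Tlt
import Pool.Agent.H714R3.BD.Kept
import Pool.Agent.H714R3.BD.Lep

set_option autoImplicit false

namespace Pool.Agent.H714R3.BD

open Finset Pool.Agent.H730R2.LD

/-- A11 (file Dyt.lean): the dyadic theorem at all levels. -/
theorem dyt (d : ℕ) (hd : 1 ≤ d) :
    ∃ C : ℝ, 0 < C ∧ ∀ (M n m : ℕ) (f : (Fin d → Fin (2 ^ M)) → ℝ),
      HSpec (gridSys d M) n f → m ≤ n → n + 1 ≤ M →
      ∑ x, SQ (gridSys d M) m f x ≤ C * ((n : ℝ) + 1 - m) ^ d * ∑ x, |f x| := by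
  sorry

end Pool.Agent.H714R3.BD
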