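import Pool.Agent.Helper643.BernT

set_option autoImplicit false

/-!
# Grid functions of `d` variables and tensor product operators
-/

namespace Pool.Agent.H714R3.BD

open Finset BernT Matrix

/-- functions on the grid `(Fin (2^M))^d` -/
abbrev GF (d M : ℕ) : Type := (Fin d → Fin (2 ^ M)) → ℂ

/-- one coordinate operators -/
abbrev Mx (M : ℕ) : Type := Matrix (Fin (2 ^ M)) (Fin (2 ^ M)) ℂ

variable {d M : ℕ}

/-- the operator `T` acting on the coordinate `s` -/
noncomputable def act (s : Fin d) (T : Mx M) (f : GF d M) : GF d M :=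
  fun x => ∑ z, T (x s) z * f (Function.update x s z)

/-- tensor product of the operators `T s` -/
noncomputable def tens (T : Fin d → Mx M) (f : GF d M) : GF d M :=
  fun x => ∑ z : Fin d → Fin (2 ^ M), (∏ s, T s (x s) (z s)) * f z

/-- levels with sum `m` -/
noncomputable def lv (d m : ℕ) : Finset (Fin d → ℕ) := Finset.piAntidiag univ m

theorem mem_lv {m : ℕ} {a : Fin d → ℕ} : a ∈ lv d m ↔ ∑ s, a s = m := by
  unfold lv
  rw [Finset.mem_piAntidiag]
  constructor
  · rintro ⟨h, _⟩; exact h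
  · intro h; exact ⟨h, fun i _ => mem_univ i⟩

/-- the Haar block of level `a` -/
noncomputable def DD (a : Fin d → ℕ) (f : GF d M) : GF d M := tens (fun s => Dm M (a s)) f

/-- unnormalised `L¹` norm of the square function of the level `m` -/
noncomputable def NNd (m : ℕ) (f : GF d M) : ℝ :=
  ∑ x, Real.sqrt (∑ a ∈ lv d m, ‖DD a f x‖ ^ 2)

/-- unnormalised `L¹` norm -/
noncomputable def L1d (f : GF d M) : ℝ := ∑ x, ‖f x‖

/-- the level `m` piece -/
noncomputable def Dgd (m : ℕ) (f : GF d M) : GF d M := ∑ a ∈ lv d m, DD a f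

/-- partial sum of the levels `m < K` -/
noncomputable def PKd (K : ℕ) (f : GF d M) : GF d M := ∑ m ∈ range K, Dgd m f

/-- consequences of having spectrum in `∏ |k_s| ≤ 2^n`, all `k_s ≠ 0` -/
structure Specd (n : ℕ) (f : GF d M) : Prop where
  mean : ∀ s, act s (Em M 0) f = 0
  hyp : ∀ (U : Finset (Fin d)) (p : Fin d → ℕ), U.Nonempty → n ≤ ∑ s ∈ U, p s →
    (∀ s ∈ U, p s + 2 ≤ M) → tens (fun s => if s ∈ U then 1 - Vm M (p s) else 1) f = 0

/-- samples of a trigonometric polynomial on the grid -/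
noncomputable def tpd (M : ℕ) (S : Finset (Fin d → ℤ)) (c : (Fin d → ℤ) → ℂ) : GF d M :=
  fun x => ∑ k ∈ S, c k * ∏ s, ex M (k s * ((x s : ℕ) : ℤ))

/-- symbol of the derivative in one variable -/
noncomputable def dsym (r : ℝ) (u v : ℂ) (k : ℤ) : ℂ :=
  (((|(k : ℝ)|) ^ r : ℝ) : ℂ) * (if 0 < k then u else v)

end Pool.Agent.H714R3.BD
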