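import Pool.Agent.H714R3.BD.Alg
import Pool.Agent.Helper643.Bern.T17a

set_option autoImplicit false

namespace Pool.Agent.H714R3.BD

open Finset BernT Matrix

variable {d : ℕ}

/-- a tensor product of matrices acting on a product of functions of one variable -/
theorem Trig_tens_prod {M : ℕ} (T : Fin d → Mx M) (e : Fin d → Fin (2 ^ M) → ℂ) :
    tens T (fun x => ∏ s, e s (x s)) = fun x => ∏ s, (T s *ᵥ e s) (x s) := by
  ext x
  have h1 : ∀ s, (T s *ᵥ e s) (x s) = ∑ z : Fin (2 ^ M), T s (x s) z * e s z := fun s => rfl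
  simp only [h1]
  rw [Finset.prod_univ_sum, Fintype.piFinset_univ]
  unfold tens
  exact Finset.sum_congr rfl fun z _ => (Finset.prod_mul_distrib).symm

theorem Trig_tpd_eq (M : ℕ) (S : Finset (Fin d → ℤ)) (c : (Fin d → ℤ) → ℂ) :
    tpd M S c = ∑ k ∈ S, c k • (fun x : Fin d → Fin (2 ^ M) => ∏ s, ST17a.ev M (k s) (x s)) := by
  ext x
  simp [tpd, Finset.sum_apply, ST17a.ev]

/-- if for every frequency one of the factors is killed, then the polynomial is killed -/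
theorem Trig_tens_tpd_zero (M : ℕ) (S : Finset (Fin d → ℤ)) (c : (Fin d → ℤ) → ℂ)
    (T : Fin d → Mx M) (h : ∀ k ∈ S, ∃ s, T s *ᵥ ST17a.ev M (k s) = 0) :
    tens T (tpd M S c) = 0 := by
  rw [Trig_tpd_eq, tens_sum]
  refine Finset.sum_eq_zero fun k hk => ?_
  rw [tens_smul, Trig_tens_prod]
  obtain ⟨s, hs⟩ := h k hk
  ext x
  have h1 : ∏ t, (T t *ᵥ ST17a.ev M (k t)) (x t) = 0 :=
    Finset.prod_eq_zero (mem_univ s) (by rw [hs]; rfl)
  simp [h1]

theorem Trig_prod_le (k : Fin d → ℤ) (h : ∀ s, k s ≠ 0) (U : Finset (Fin d)) :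
    ∏ s ∈ U, |k s| ≤ ∏ s, |k s| := by
  classical
  rw [← Finset.prod_mul_prod_compl U]
  have h1 : 1 ≤ ∏ s ∈ Uᶜ, |k s| := by
    refine Finset.prod_induction _ (fun a => 1 ≤ a) (fun a b ha hb => ?_) le_rfl
      fun s _ => Int.one_le_abs (h s)
    nlinarith
  have h2 : 0 ≤ ∏ s ∈ U, |k s| := Finset.prod_nonneg fun s _ => abs_nonneg _
  nlinarith

/-- B11 (file Trig.lean): spectral properties of sampled trigonometric polynomials. -/
theorem spec_tpd (M n : ℕ) (hM : n + 3 ≤ M) (S : Finset (Fin d → ℤ)) (c : (Fin d → ℤ) → ℂ)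
    (hS : ∀ k ∈ S, (∀ s, k s ≠ 0) ∧ ∏ s, |k s| ≤ 2 ^ n) : Specd n (tpd M S c) := by
  classical
  have hb : ∀ k ∈ S, ∀ s, |k s| ≤ 2 ^ n := by
    intro k hk s
    have h1 := Trig_prod_le k (hS k hk).1 {s}
    rw [Finset.prod_singleton] at h1
    exact h1.trans (hS k hk).2
  have hpow : (2 : ℤ) ^ n < 2 ^ M := pow_lt_pow_right₀ one_lt_two (by omega)
  constructor
  · intro s
    rw [act_eq_tens]
    refine Trig_tens_tpd_zero M S c _ fun k hk => ⟨s, ?_⟩
    rw [Function.update_self]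
    exact ST17a.Em_ev M (k s) ((hS k hk).1 s) ((hb k hk s).trans_lt hpow)
  · intro U p hU hn hp
    refine Trig_tens_tpd_zero M S c _ fun k hk => ?_
    have h1 : ∃ s ∈ U, |k s| ≤ 2 ^ (p s) := by
      by_contra hcon
      push Not at hcon
      have h2 : ∏ s ∈ U, (2 : ℤ) ^ (p s) < ∏ s ∈ U, |k s| :=
        Finset.prod_lt_prod_of_nonempty (fun s _ => by positivity) hcon hU
      rw [Finset.prod_pow_eq_pow_sum] at h2
      have h3 : (2 : ℤ) ^ n ≤ 2 ^ (∑ s ∈ U, p s) := pow_le_pow_right₀ one_le_two hn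
      have h4 := Trig_prod_le k (hS k hk).1 U
      have h5 := (hS k hk).2
      linarith
    obtain ⟨s, hs, hks⟩ := h1
    refine ⟨s, ?_⟩
    have h6 : |k s| + 2 ^ (p s + 1) < (2 : ℤ) ^ M := by
      have h7 : (2 : ℤ) ^ (n + 3) ≤ 2 ^ M := pow_le_pow_right₀ one_le_two hM
      have h8 : (2 : ℤ) ^ (p s + 2) ≤ 2 ^ M := pow_le_pow_right₀ one_le_two (hp s hs)
      have h9 := hb k hk s
      have h10 : (0 : ℤ) < 2 ^ n := by positivity
      rw [pow_add] at h7 h8
      rw [pow_succ]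
      linarith
    rw [if_pos hs, Matrix.sub_mulVec, Matrix.one_mulVec, ST17a.Vm_ev M (p s) (k s) h6,
      ST17a.Vs_one (p s) (k s) hks]
    simp

end Pool.Agent.H714R3.BD
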