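import Pool.Agent.H714R3.BD.Alg
import Pool.Agent.Helper643.Bern.T17b

set_option autoImplicit false

namespace Pool.Agent.H714R3.BD

open Finset BernT Matrix

variable {d : ℕ}

namespace TrigD

open BernT.ST17b

/-- tensor products act on samples of exponentials -/
theorem tens_tpd (M : ℕ) (T : Fin d → Mx M) (μ : Fin d → ℤ → ℂ)
    (S : Finset (Fin d → ℤ)) (c : (Fin d → ℤ) → ℂ)
    (h : ∀ k ∈ S, ∀ s x, ∑ z : Fin (2 ^ M), T s x z * ex M (k s * (z : ℤ)) =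
      μ s (k s) * ex M (k s * (x : ℤ))) :
    tens T (tpd M S c) = tpd M S (fun k => (∏ s, μ s (k s)) * c k) := by
  funext x
  unfold tens tpd
  simp_rw [Finset.mul_sum]
  rw [Finset.sum_comm]
  apply Finset.sum_congr rfl
  intro k hk
  have h1 : ∀ z : Fin d → Fin (2 ^ M),
      (∏ s, T s (x s) (z s)) * (c k * ∏ s, ex M (k s * ((z s : ℕ) : ℤ))) =
      c k * ∏ s, T s (x s) (z s) * ex M (k s * ((z s : ℕ) : ℤ)) := by
    intro z
    rw [Finset.prod_mul_distrib]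
    ring
  simp_rw [h1]
  rw [← Finset.mul_sum]
  have h2 : ∑ z : Fin d → Fin (2 ^ M), ∏ s, T s (x s) (z s) * ex M (k s * ((z s : ℕ) : ℤ)) =
      ∏ s, ∑ z : Fin (2 ^ M), T s (x s) z * ex M (k s * ((z : ℕ) : ℤ)) := by
    rw [Finset.prod_univ_sum, Fintype.piFinset_univ]
  rw [h2, Finset.prod_congr rfl fun s _ => h k hk s (x s), Finset.prod_mul_distrib]
  ring

theorem ms_act (M n : ℕ) (hM : n + d + 2 ≤ M) (r : ℝ) (u v : ℂ) (t : ℕ)
    (ht : t < n + d) (k : ℤ) (hk : |k| ≤ 2 ^ n) (x : Fin (2 ^ M)) :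
    ∑ z : Fin (2 ^ M), Mm r u v M t x z * ex M (k * (z : ℤ)) =
      ms r u v t k * ex M (k * (x : ℤ)) := by
  unfold Mm
  apply aux_act
  · have h1 : (2 : ℤ) ^ (t + 1) ≤ 2 ^ (n + d) := pow_le_pow_right₀ (by norm_num) (by omega)
    have h2 : (2 : ℤ) ^ (n + d + 2) ≤ 2 ^ M := pow_le_pow_right₀ (by norm_num) hM
    have h3 : (2 : ℤ) ^ n ≤ 2 ^ (n + d) := pow_le_pow_right₀ (by norm_num) (by omega)
    have h4 : (2 : ℤ) ^ (n + d + 2) = 2 ^ (n + d) * 4 := by ring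
    have h5 : (0 : ℤ) < 2 ^ (n + d) := by positivity
    push_cast
    linarith
  · intro k hk
    unfold ms
    rw [aux_bt_zero]
    · simp
    · have h1 : ((2 : ℤ) ^ (t + 1)) ≤ |k| := by
        have := hk.le
        push_cast at this
        exact this
      have h' : (((2 : ℤ) ^ (t + 1) : ℤ) : ℝ) ≤ ((|k| : ℤ) : ℝ) := by exact_mod_cast h1
      push_cast at h'
      exact h'

theorem key (r : ℝ) (u v : ℂ) (k : ℤ) (t : ℕ) :
    (((2 : ℝ) ^ (r * t) : ℝ) : ℂ) * ms r u v t k = dsym r u v k * (bt t k : ℂ) := by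
  unfold ms dsym
  have : (2 : ℝ) ^ (r * t) * (|(k : ℝ)| / 2 ^ t) ^ r = |(k : ℝ)| ^ r := by
    rw [Real.div_rpow (abs_nonneg _) (by positivity)]
    rw [← Real.rpow_natCast 2 t, ← Real.rpow_mul (by norm_num), mul_comm (t : ℝ) r]
    have : (0 : ℝ) < 2 ^ (r * t) := by positivity
    field_simp
  rw [← this]
  push_cast
  ring

/-- the sum of all products of the tents -/
theorem bt_sum (hd : 1 ≤ d) (n : ℕ) (k : Fin d → ℤ) (h0 : ∀ s, k s ≠ 0)
    (hp : ∏ s, |k s| ≤ 2 ^ n) (hk : ∀ s, |k s| ≤ 2 ^ n) :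
    ∑ m ∈ range (n + d), ∑ t ∈ lv d m, ∏ s, (bt (t s) (k s) : ℂ) = 1 := by
  classical
  have hdisj : ∀ m ∈ range (n + d), ∀ m' ∈ range (n + d), m ≠ m' →
      Disjoint (lv d m) (lv d m') := by
    intro m _ m' _ hne
    rw [Finset.disjoint_left]
    intro t ht ht'
    rw [mem_lv] at ht ht'
    exact hne (ht.symm.trans ht')
  rw [← Finset.sum_biUnion hdisj]
  set T1 : Finset (Fin d → ℕ) := (range (n + d)).biUnion (lv d) with hT1
  set T2 : Finset (Fin d → ℕ) := Fintype.piFinset (fun _ : Fin d => range (n + 2)) with hT2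
  have hne : (univ : Finset (Fin d)).Nonempty := ⟨⟨0, hd⟩, mem_univ _⟩
  have z1 : ∀ t ∈ T2, t ∉ T1 → ∏ s, (bt (t s) (k s) : ℂ) = 0 := by
    intro t _ ht
    by_contra hcon
    have hcon := Finset.prod_ne_zero_iff.mp hcon
    have h1 : ∀ s, (2 : ℝ) ^ (t s) < |(k s : ℝ)| * 2 := by
      intro s
      by_contra h2
      push Not at h2
      exact hcon s (mem_univ s) (by rw [aux_bt_zero' _ _ h2]; simp)
    have h2 : n + d ≤ ∑ s, t s := by
      by_contra h3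
      push Not at h3
      exact ht (mem_biUnion.mpr ⟨_, mem_range.mpr h3, mem_lv.mpr rfl⟩)
    have h3 : ∏ s, (2 : ℝ) ^ (t s) < ∏ s, |(k s : ℝ)| * 2 :=
      Finset.prod_lt_prod_of_nonempty (fun s _ => by positivity) (fun s _ => h1 s) hne
    rw [Finset.prod_pow_eq_pow_sum, Finset.prod_mul_distrib, Finset.prod_const, Finset.card_univ,
      Fintype.card_fin] at h3
    have h4 : ∏ s, |(k s : ℝ)| ≤ 2 ^ n := by
      have h5 : ((∏ s, |k s| : ℤ) : ℝ) ≤ (((2 : ℤ) ^ n : ℤ) : ℝ) := by exact_mod_cast hp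
      push_cast at h5
      exact h5
    have h5 : (2 : ℝ) ^ (n + d) ≤ 2 ^ (∑ s, t s) := pow_le_pow_right₀ (by norm_num) h2
    have h6 : (∏ s, |(k s : ℝ)|) * 2 ^ d ≤ 2 ^ n * 2 ^ d :=
      mul_le_mul_of_nonneg_right h4 (by positivity)
    rw [pow_add] at h5
    linarith
  have z2 : ∀ t ∈ T1, t ∉ T2 → ∏ s, (bt (t s) (k s) : ℂ) = 0 := by
    intro t _ ht
    rw [hT2, Fintype.mem_piFinset] at ht
    push Not at ht
    obtain ⟨s, hs⟩ := ht
    rw [mem_range, not_lt] at hs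
    apply Finset.prod_eq_zero (mem_univ s)
    rw [aux_bt_zero']
    · simp
    · have h1 : ((|k s| : ℤ) : ℝ) ≤ (((2 : ℤ) ^ n : ℤ) : ℝ) := by exact_mod_cast hk s
      push_cast at h1
      have h2 : (2 : ℝ) ^ (n + 2) ≤ 2 ^ (t s) := pow_le_pow_right₀ (by norm_num) hs
      have h3 : (2 : ℝ) ^ (n + 2) = 2 ^ n * 4 := by ring
      have h4 : (0 : ℝ) < 2 ^ n := by positivity
      linarith
  have e1 : ∑ t ∈ T1, ∏ s, (bt (t s) (k s) : ℂ) = ∑ t ∈ T1 ∩ T2, ∏ s, (bt (t s) (k s) : ℂ) := by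
    symm
    apply Finset.sum_subset inter_subset_left
    intro t ht ht'
    exact z2 t ht fun h => ht' (mem_inter.mpr ⟨ht, h⟩)
  have e2 : ∑ t ∈ T2, ∏ s, (bt (t s) (k s) : ℂ) = ∑ t ∈ T1 ∩ T2, ∏ s, (bt (t s) (k s) : ℂ) := by
    symm
    apply Finset.sum_subset inter_subset_right
    intro t ht ht'
    exact z1 t ht fun h => ht' (mem_inter.mpr ⟨h, ht⟩)
  have e3 := Finset.prod_univ_sum (fun _ : Fin d => range (n + 2))
    (fun (s : Fin d) (t : ℕ) => (bt t (k s) : ℂ))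
  rw [e1, ← e2, hT2]
  refine e3.symm.trans ?_
  apply Finset.prod_eq_one
  intro s _
  have := aux_bt_sum n (k s) (h0 s) (hk s)
  exact_mod_cast congrArg (fun x : ℝ => (x : ℂ)) this

theorem abs_le_of_prod (n : ℕ) (k : Fin d → ℤ) (h0 : ∀ s, k s ≠ 0)
    (hp : ∏ s, |k s| ≤ 2 ^ n) (s : Fin d) : |k s| ≤ 2 ^ n := by
  classical
  have h1 : |k s| * ∏ s' ∈ univ.erase s, |k s'| = ∏ s', |k s'| :=
    Finset.mul_prod_erase univ (fun s' => |k s'|) (mem_univ s)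
  have h2 : 0 < ∏ s' ∈ univ.erase s, |k s'| :=
    Finset.prod_pos fun s' _ => abs_pos.mpr (h0 s')
  have h3 : 0 < |k s| := abs_pos.mpr (h0 s)
  nlinarith

theorem scalar (hd : 1 ≤ d) (n : ℕ) (r : ℝ) (u v : Fin d → ℂ) (k : Fin d → ℤ)
    (h0 : ∀ s, k s ≠ 0) (hp : ∏ s, |k s| ≤ 2 ^ n) :
    ∑ m ∈ range (n + d), (((2 : ℝ) ^ (r * m) : ℝ) : ℂ) *
      ∑ t ∈ lv d m, ∏ s, ms r (u s) (v s) (t s) (k s) = ∏ s, dsym r (u s) (v s) (k s) := by
  have step : ∀ m ∈ range (n + d), (((2 : ℝ) ^ (r * m) : ℝ) : ℂ) *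
      ∑ t ∈ lv d m, ∏ s, ms r (u s) (v s) (t s) (k s) =
      (∏ s, dsym r (u s) (v s) (k s)) * ∑ t ∈ lv d m, ∏ s, (bt (t s) (k s) : ℂ) := by
    intro m _
    rw [Finset.mul_sum, Finset.mul_sum]
    apply Finset.sum_congr rfl
    intro t ht
    rw [mem_lv] at ht
    have e : (2 : ℝ) ^ (r * m) = ∏ s, (2 : ℝ) ^ (r * (t s : ℝ)) := by
      rw [← Real.rpow_sum_of_pos (by norm_num), ← Finset.mul_sum, ← ht]
      push_cast
      rfl
    rw [e, ← Finset.prod_mul_distrib]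
    push_cast
    rw [← Finset.prod_mul_distrib]
    apply Finset.prod_congr rfl
    intro s _
    exact key r (u s) (v s) (k s) (t s)
  rw [Finset.sum_congr rfl step, ← Finset.mul_sum,
    bt_sum hd n k h0 hp (abs_le_of_prod n k h0 hp), mul_one]

end TrigD

/-- B12 (file TrigD.lean): the derivative is the sum of its blocks. -/
theorem deriv_tpd (hd : 1 ≤ d) (M n : ℕ) (hM : n + d + 2 ≤ M) (r : ℝ) (hr : 0 < r)
    (u v : Fin d → ℂ) (S : Finset (Fin d → ℤ)) (c : (Fin d → ℤ) → ℂ)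
    (hS : ∀ k ∈ S, (∀ s, k s ≠ 0) ∧ ∏ s, |k s| ≤ 2 ^ n) :
    ∑ m ∈ range (n + d), ((((2 : ℝ) ^ (r * m) : ℝ) : ℂ) •
      ∑ t ∈ lv d m, tens (fun s => Mm r (u s) (v s) M (t s)) (tpd M S c)) =
      tpd M S (fun k => (∏ s, dsym r (u s) (v s) (k s)) * c k) := by
  have h1 : ∀ m ∈ range (n + d), ∀ t ∈ lv d m,
      tens (fun s => Mm r (u s) (v s) M (t s)) (tpd M S c) =
        tpd M S (fun k => (∏ s, ms r (u s) (v s) (t s) (k s)) * c k) := by
    intro m hm t ht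
    rw [mem_lv] at ht
    rw [mem_range] at hm
    apply TrigD.tens_tpd M _ (fun s => ms r (u s) (v s) (t s)) S c
    intro k hk s x
    apply TrigD.ms_act M n hM
    · have : t s ≤ ∑ s, t s := Finset.single_le_sum (fun _ _ => Nat.zero_le _) (mem_univ s)
      omega
    · exact TrigD.abs_le_of_prod n k (hS k hk).1 (hS k hk).2 s
  funext x
  have h2 : ∀ m ∈ range (n + d), ((((2 : ℝ) ^ (r * m) : ℝ) : ℂ) •
      ∑ t ∈ lv d m, tens (fun s => Mm r (u s) (v s) M (t s)) (tpd M S c)) x =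
      ∑ k ∈ S, ((((2 : ℝ) ^ (r * m) : ℝ) : ℂ) *
        ∑ t ∈ lv d m, ∏ s, ms r (u s) (v s) (t s) (k s)) *
        (c k * ∏ s, ex M (k s * ((x s : ℕ) : ℤ))) := by
    intro m hm
    rw [Finset.sum_congr rfl (h1 m hm), Pi.smul_apply, Finset.sum_apply, smul_eq_mul]
    unfold tpd
    rw [Finset.sum_comm, Finset.mul_sum]
    apply Finset.sum_congr rfl
    intro k _
    rw [Finset.mul_sum, Finset.mul_sum, Finset.sum_mul]
    apply Finset.sum_congr rfl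
    intro t _
    ring
  rw [Finset.sum_apply, Finset.sum_congr rfl h2, Finset.sum_comm]
  unfold tpd
  apply Finset.sum_congr rfl
  intro k hk
  rw [← Finset.sum_mul, TrigD.scalar hd n r u v k (hS k hk).1 (hS k hk).2]
  ring

end Pool.Agent.H714R3.BD
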