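import Pool.Agent.H714R3.BD.Absorb
import Pool.Agent.H714R3.BD.Block
import Pool.Agent.H714R3.BD.Trig
import Pool.Agent.H714R3.BD.TrigD

set_option autoImplicit false

namespace Pool.Agent.H714R3.BD

open Finset BernT Matrix

theorem GridMain_summ (d : ℕ) (r : ℝ) (hr : 0 < r) :
    Summable (fun k : ℕ => (2:ℝ)^(-(r*k)) * ((k:ℝ)+1)^d) := by
  have h1 : ∀ k : ℕ, (2:ℝ)^(-(r*k)) = ((2:ℝ)^(-r))^k := by
    intro k
    rw [← Real.rpow_natCast, ← Real.rpow_mul (by norm_num : (0:ℝ) ≤ 2)]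
    congr 1; ring
  have h2 : ‖(2:ℝ)^(-r)‖ < 1 := by
    rw [Real.norm_of_nonneg (by positivity)]
    exact Real.rpow_lt_one_of_one_lt_of_neg (by norm_num) (by linarith)
  have s2 := summable_pow_mul_geometric_of_norm_lt_one d h2
  have s3 := ((summable_nat_add_iff 1).2 s2).mul_left (((2:ℝ)^(-r))⁻¹)
  refine s3.congr fun k => ?_
  rw [h1 k]
  have h3 : (2:ℝ)^(-r) ≠ 0 := by positivity
  push_cast
  rw [pow_succ]
  field_simp

theorem GridMain_le {g : ℕ → ℝ} (hg : Summable g) (h0 : ∀ k, 0 ≤ g k) (A : Finset ℕ) (e : ℕ → ℕ)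
    (he : Set.InjOn e A) : ∑ s ∈ A, g (e s) ≤ ∑' k, g k := by
  rw [← Finset.sum_image he]
  exact hg.sum_le_tsum _ (fun _ _ => h0 _)

theorem GridMain_numA (d : ℕ) : ∃ C : ℝ, 0 < C ∧ ∀ (J m n : ℕ),
    ∑ s ∈ range J, (2:ℝ)^(-(|(s:ℝ)-m|/4)) * (|(s:ℝ)-n|+1)^d ≤ C * (|(m:ℝ)-n|+1)^d := by
  have hs := GridMain_summ d (1/4) (by norm_num)
  have h0 : ∀ k : ℕ, 0 ≤ (2:ℝ)^(-((1/4)*(k:ℝ))) * ((k:ℝ)+1)^d := fun k => by positivity
  set g : ℕ → ℝ := fun k => (2:ℝ)^(-((1/4)*(k:ℝ))) * ((k:ℝ)+1)^d with hg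
  have hT : 0 < ∑' k, g k := by
    have h1 : g 0 ≤ ∑' k, g k := hs.le_tsum 0 (fun k _ => h0 k)
    have h2 : g 0 = 1 := by simp [hg]
    linarith
  refine ⟨2 * ∑' k, g k, by linarith, fun J m n => ?_⟩
  have h1 : ∀ s ∈ range J, (2:ℝ)^(-(|(s:ℝ)-m|/4)) * (|(s:ℝ)-n|+1)^d ≤
      ((2:ℝ)^(-(|(s:ℝ)-m|/4)) * (|(s:ℝ)-m|+1)^d) * (|(m:ℝ)-n|+1)^d := by
    intro s _
    rw [mul_assoc]
    apply mul_le_mul_of_nonneg_left _ (by positivity)
    rw [← mul_pow]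
    apply pow_le_pow_left₀ (by positivity)
    have h2 : |(s:ℝ)-n| ≤ |(s:ℝ)-m| + |(m:ℝ)-n| := abs_sub_le _ _ _
    have h3 : 0 ≤ |(s:ℝ)-m| * |(m:ℝ)-n| := by positivity
    nlinarith
  refine (Finset.sum_le_sum h1).trans ?_
  rw [← Finset.sum_mul]
  apply mul_le_mul_of_nonneg_right _ (by positivity)
  rw [← Finset.sum_filter_add_sum_filter_not (range J) (fun s => s ≤ m)]
  have h4 : ∑ s ∈ (range J).filter (fun s => s ≤ m),
      (2:ℝ)^(-(|(s:ℝ)-m|/4)) * (|(s:ℝ)-m|+1)^d ≤ ∑' k, g k := by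
    refine le_trans (le_of_eq ?_) (GridMain_le hs h0 ((range J).filter (fun s => s ≤ m))
      (fun s => m - s) ?_)
    · apply Finset.sum_congr rfl
      intro s hs'
      have hsm : s ≤ m := (Finset.mem_filter.1 hs').2
      have e1 : |(s:ℝ)-m| = ((m - s : ℕ) : ℝ) := by
        rw [Nat.cast_sub hsm, abs_sub_comm, abs_of_nonneg]
        have : (s:ℝ) ≤ m := by exact_mod_cast hsm
        linarith
      rw [e1, show (((m - s : ℕ) : ℝ) / 4) = (1/4) * ((m - s : ℕ) : ℝ) by ring]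
    · intro a ha b hb hab
      have ha' : a ≤ m := (Finset.mem_filter.1 (Finset.mem_coe.1 ha)).2
      have hb' : b ≤ m := (Finset.mem_filter.1 (Finset.mem_coe.1 hb)).2
      have hab' : m - a = m - b := hab
      omega
  have h5 : ∑ s ∈ (range J).filter (fun s => ¬ s ≤ m),
      (2:ℝ)^(-(|(s:ℝ)-m|/4)) * (|(s:ℝ)-m|+1)^d ≤ ∑' k, g k := by
    refine le_trans (le_of_eq ?_) (GridMain_le hs h0 ((range J).filter (fun s => ¬ s ≤ m))
      (fun s => s - m) ?_)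
    · apply Finset.sum_congr rfl
      intro s hs'
      have hsm : m ≤ s := (not_le.1 (Finset.mem_filter.1 hs').2).le
      have e1 : |(s:ℝ)-m| = ((s - m : ℕ) : ℝ) := by
        rw [Nat.cast_sub hsm, abs_of_nonneg]
        have : (m:ℝ) ≤ s := by exact_mod_cast hsm
        linarith
      rw [e1, show (((s - m : ℕ) : ℝ) / 4) = (1/4) * ((s - m : ℕ) : ℝ) by ring]
    · intro a ha b hb hab
      have ha' : ¬ a ≤ m := (Finset.mem_filter.1 (Finset.mem_coe.1 ha)).2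
      have hb' : ¬ b ≤ m := (Finset.mem_filter.1 (Finset.mem_coe.1 hb)).2
      have hab' : a - m = b - m := hab
      omega
  linarith

theorem GridMain_numB (d : ℕ) (r : ℝ) (hr : 0 < r) : ∃ C : ℝ, 0 < C ∧ ∀ n : ℕ,
    ∑ m ∈ range (n+d), (2:ℝ)^(r*m) * (|(m:ℝ)-n|+1)^d ≤ C * (2:ℝ)^(r*n) := by
  have hs := GridMain_summ d r hr
  have h0 : ∀ k : ℕ, 0 ≤ (2:ℝ)^(-(r*(k:ℝ))) * ((k:ℝ)+1)^d := fun k => by positivity
  set g : ℕ → ℝ := fun k => (2:ℝ)^(-(r*(k:ℝ))) * ((k:ℝ)+1)^d with hg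
  have hT : 0 < ∑' k, g k := by
    have h1 : g 0 ≤ ∑' k, g k := hs.le_tsum 0 (fun k _ => h0 k)
    have h2 : g 0 = 1 := by simp [hg]
    linarith
  refine ⟨(∑' k, g k) + ∑ i ∈ range d, (2:ℝ)^(r*i) * ((i:ℝ)+1)^d, by positivity, fun n => ?_⟩
  rw [Finset.sum_range_add, add_mul]
  apply add_le_add
  · have h1 : ∑ m ∈ range n, (2:ℝ)^(r*m) * (|(m:ℝ)-n|+1)^d =
        (∑ m ∈ range n, g (n - m)) * (2:ℝ)^(r*n) := by
      rw [Finset.sum_mul]
      apply Finset.sum_congr rfl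
      intro m hm
      have hmn : m ≤ n := by
        have := Finset.mem_range.1 hm
        omega
      have e1 : |(m:ℝ)-n| = ((n - m : ℕ) : ℝ) := by
        rw [Nat.cast_sub hmn, abs_sub_comm, abs_of_nonneg]
        have : (m:ℝ) ≤ n := by exact_mod_cast hmn
        linarith
      have e2 : (2:ℝ)^(r*m) = (2:ℝ)^(-(r*((n - m : ℕ) : ℝ))) * (2:ℝ)^(r*n) := by
        rw [← Real.rpow_add (by norm_num)]
        congr 1
        rw [Nat.cast_sub hmn]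
        ring
      rw [e1, e2]
      show _ = (2:ℝ)^(-(r*((n - m : ℕ):ℝ))) * (((n - m : ℕ):ℝ)+1)^d * (2:ℝ)^(r*n)
      ring
    rw [h1]
    apply mul_le_mul_of_nonneg_right _ (by positivity)
    apply GridMain_le hs h0
    intro a ha b hb hab
    have ha' := Finset.mem_range.1 (Finset.mem_coe.1 ha)
    have hb' := Finset.mem_range.1 (Finset.mem_coe.1 hb)
    have hab' : n - a = n - b := hab
    omega
  · rw [Finset.sum_mul]
    apply le_of_eq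
    apply Finset.sum_congr rfl
    intro i _
    have e1 : |((n+i : ℕ):ℝ)-n| = i := by
      push_cast
      rw [show (n:ℝ) + i - n = i by ring, abs_of_nonneg (by positivity)]
    rw [e1]
    have e2 : (2:ℝ)^(r*((n+i : ℕ):ℝ)) = (2:ℝ)^(r*i) * (2:ℝ)^(r*n) := by
      rw [← Real.rpow_add (by norm_num)]
      congr 1
      push_cast; ring
    rw [e2]
    ring

theorem GridMain_sum_le {d M : ℕ} (s : Finset ℕ) (F : ℕ → GF d M) :
    L1d (∑ i ∈ s, F i) ≤ ∑ i ∈ s, L1d (F i) := by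
  unfold L1d
  rw [Finset.sum_comm]
  apply Finset.sum_le_sum
  intro x _
  rw [Finset.sum_apply]
  exact norm_sum_le _ _

theorem GridMain_smul {d M : ℕ} (a : ℂ) (f : GF d M) :
    L1d (a • f) = ‖a‖ * L1d f := by
  unfold L1d
  simp only [Pi.smul_apply, smul_eq_mul, norm_mul, ← mul_sum]

theorem GridMain_nonneg {d M : ℕ} (f : GF d M) : 0 ≤ L1d f := by
  unfold L1d; positivity

/-- B13 (file GridMain.lean): the `L¹` Bernstein inequality on the grid. -/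
theorem gridd (d : ℕ) (hd : 1 ≤ d) (r : ℝ) (hr : 0 < r) :
    ∃ C : ℝ, 0 < C ∧ ∃ L : ℕ, ∀ (M n : ℕ) (S : Finset (Fin d → ℤ)) (c : (Fin d → ℤ) → ℂ)
      (u v : Fin d → ℂ), (∀ s, ‖u s‖ ≤ 1) → (∀ s, ‖v s‖ ≤ 1) →
      (∀ k ∈ S, (∀ s, k s ≠ 0) ∧ ∏ s, |k s| ≤ 2 ^ n) → n + L ≤ M →
      L1d (tpd M S (fun k => (∏ s, dsym r (u s) (v s) (k s)) * c k)) ≤
        C * (2 : ℝ) ^ (r * n) * L1d (tpd M S c) := by
  obtain ⟨C1, hC1, L, h1⟩ := absorbd d hd (decayd d hd) (hDd d hd) (martd d hd)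
  obtain ⟨C2, hC2, h2⟩ := blockd d hd r hr.le
  obtain ⟨C3, hC3, h3⟩ := GridMain_numA d
  obtain ⟨C4, hC4, h4⟩ := GridMain_numB d r hr
  refine ⟨C2 * C1 * C3 * C4, by positivity, L + d + 3, ?_⟩
  intro M n S c u v hu hv hS hM
  have hspec := spec_tpd M n (by omega) S c hS
  have hNN := h1 M n (tpd M S c) hspec (by omega)
  rw [← deriv_tpd hd M n (by omega) r hr u v S c hS]
  have hblock : ∀ m ∈ range (n+d), L1d (∑ t ∈ lv d m, tens (fun s => Mm r (u s) (v s) M (t s))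
      (tpd M S c)) ≤ C2 * C1 * C3 * (|(m:ℝ)-n|+1)^d * L1d (tpd M S c) := by
    intro m hm
    rw [mem_range] at hm
    have hb := h2 M m u v hu hv (by omega) (tpd M S c) hspec.mean
    refine hb.trans ?_
    have hs : ∑ q ∈ range (d*M), (2:ℝ)^(-(|(q:ℝ)-m|/4)) * NNd q (tpd M S c) ≤
        ∑ q ∈ range (d*M), ((2:ℝ)^(-(|(q:ℝ)-m|/4)) * (|(q:ℝ)-n|+1)^d) *
          (C1 * L1d (tpd M S c)) := by
      apply sum_le_sum
      intro q _
      have := hNN q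
      have h5 : (0:ℝ) ≤ (2:ℝ)^(-(|(q:ℝ)-m|/4)) := by positivity
      calc (2:ℝ)^(-(|(q:ℝ)-m|/4)) * NNd q (tpd M S c)
          ≤ (2:ℝ)^(-(|(q:ℝ)-m|/4)) * (C1 * (|(q:ℝ)-n|+1)^d * L1d (tpd M S c)) :=
            mul_le_mul_of_nonneg_left this h5
        _ = _ := by ring
    rw [← sum_mul] at hs
    have hs2 := h3 (d*M) m n
    have hL := GridMain_nonneg (tpd M S c)
    calc C2 * ∑ q ∈ range (d*M), (2:ℝ)^(-(|(q:ℝ)-m|/4)) * NNd q (tpd M S c)
        ≤ C2 * ((∑ q ∈ range (d*M), (2:ℝ)^(-(|(q:ℝ)-m|/4)) * (|(q:ℝ)-n|+1)^d) *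
            (C1 * L1d (tpd M S c))) := mul_le_mul_of_nonneg_left hs hC2.le
      _ ≤ C2 * ((C3 * (|(m:ℝ)-n|+1)^d) * (C1 * L1d (tpd M S c))) := by
          apply mul_le_mul_of_nonneg_left _ hC2.le
          exact mul_le_mul_of_nonneg_right hs2 (by positivity)
      _ = _ := by ring
  refine (GridMain_sum_le _ _).trans ?_
  calc ∑ m ∈ range (n+d), L1d ((((2:ℝ)^(r*m) : ℝ) : ℂ) • ∑ t ∈ lv d m,
        tens (fun s => Mm r (u s) (v s) M (t s)) (tpd M S c))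
      ≤ ∑ m ∈ range (n+d), ((2:ℝ)^(r*m) * (|(m:ℝ)-n|+1)^d) *
          (C2 * C1 * C3 * L1d (tpd M S c)) := by
        apply sum_le_sum
        intro m hm
        rw [GridMain_smul]
        have e : ‖(((2:ℝ)^(r*m) : ℝ) : ℂ)‖ = (2:ℝ)^(r*m) := by
          rw [Complex.norm_real, Real.norm_of_nonneg (by positivity)]
        rw [e]
        calc (2:ℝ)^(r*m) * L1d (∑ t ∈ lv d m, tens (fun s => Mm r (u s) (v s) M (t s))
              (tpd M S c))
            ≤ (2:ℝ)^(r*m) * (C2 * C1 * C3 * (|(m:ℝ)-n|+1)^d * L1d (tpd M S c)) :=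
              mul_le_mul_of_nonneg_left (hblock m hm) (by positivity)
          _ = _ := by ring
    _ = (∑ m ∈ range (n+d), (2:ℝ)^(r*m) * (|(m:ℝ)-n|+1)^d) *
          (C2 * C1 * C3 * L1d (tpd M S c)) := by
        rw [sum_mul]
    _ ≤ (C4 * (2:ℝ)^(r*n)) * (C2 * C1 * C3 * L1d (tpd M S c)) := by
        apply mul_le_mul_of_nonneg_right (h4 n)
        have := GridMain_nonneg (tpd M S c)
        positivity
    _ = _ := by ring

end Pool.Agent.H714R3.BD
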