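import Pool.Agent.H714R3.BD.Dyt
import Pool.Agent.H714R3.BD.Bridge
import Pool.Agent.Helper643.Bern.T15c

set_option autoImplicit false

namespace Pool.Agent.H714R3.BD

open Finset BernT Matrix Pool.Agent.H730R2.LD

theorem hd_sqrt_add {A B : ℝ} (hA : 0 ≤ A) (hB : 0 ≤ B) :
    Real.sqrt (A + B) ≤ Real.sqrt A + Real.sqrt B := by
  rw [Real.sqrt_le_iff]
  refine ⟨add_nonneg (Real.sqrt_nonneg _) (Real.sqrt_nonneg _), ?_⟩
  nlinarith [Real.sq_sqrt hA, Real.sq_sqrt hB, mul_nonneg (Real.sqrt_nonneg A) (Real.sqrt_nonneg B)]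

theorem hd_one_sub_Dm (M a l : ℕ) (h : a < l) : (1 - Em M l) * Dm M a = 0 := by
  unfold Dm
  rw [Matrix.sub_mul, Matrix.one_mul, Matrix.mul_sub, BernT.ST15c.Em_mul_ge M l (a + 1) h,
    BernT.ST15c.Em_mul_ge M l a h.le, sub_self]

/-- the cut of a Haar block below the level vanishes -/
theorem hd_cut_DD {d M : ℕ} (a L : Fin d → ℕ) (h : ∑ s, a s < ∑ s, L s) (f : GF d M) :
    tens (fun s => if s ∈ (univ : Finset (Fin d)) then 1 - Em M (L s) else 1) (DD a f) = 0 := by
  obtain ⟨s, _, hs⟩ := Finset.exists_lt_of_sum_lt h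
  unfold DD
  rw [tens_mul]
  apply tens_zero _ s
  simp only [mem_univ, if_true]
  exact hd_one_sub_Dm M (a s) (L s) hs

theorem hd_PKd_eq {d M : ℕ} (K : ℕ) (f : GF d M) :
    PKd K f = ∑ q ∈ range K, ∑ b ∈ lv d q, DD b f := rfl

theorem hd_cut_PKd {d M : ℕ} (K : ℕ) (L : Fin d → ℕ) (h : ∑ s, L s = K) (f : GF d M) :
    tens (fun s => if s ∈ (univ : Finset (Fin d)) then 1 - Em M (L s) else 1) (PKd K f) = 0 := by
  rw [hd_PKd_eq, tens_sum]
  refine Finset.sum_eq_zero fun q hq => ?_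
  rw [tens_sum]
  refine Finset.sum_eq_zero fun b hb => ?_
  apply hd_cut_DD
  rw [mem_lv.mp hb, h]
  exact mem_range.mp hq

theorem hd_DD_PKd {d M : ℕ} {K m : ℕ} (hm : m < K) {a : Fin d → ℕ} (ha : a ∈ lv d m)
    (f : GF d M) : DD a (PKd K f) = DD a f := by
  have h1 : ∀ (ι : Type) (P : Finset ι) (g : ι → GF d M),
      DD a (∑ i ∈ P, g i) = ∑ i ∈ P, DD a (g i) := fun ι P g => by
    unfold DD
    exact tens_sum _ P g
  rw [hd_PKd_eq, h1, Finset.sum_eq_single m]
  · rw [h1, Finset.sum_eq_single a]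
    · rw [DD_DD, if_pos rfl]
    · intro b _ hba
      rw [DD_DD, if_neg hba.symm]
    · intro h
      exact absurd ha h
  · intro q _ hqm
    rw [h1]
    refine Finset.sum_eq_zero fun b hb => ?_
    rw [DD_DD, if_neg]
    rintro rfl
    exact hqm ((mem_lv.mp hb).symm.trans (mem_lv.mp ha))
  · intro h
    exact absurd (mem_range.mpr hm) h

theorem hd_split {d M : ℕ} (g : GF d M) :
    g = (fun x => (((g x).re : ℝ) : ℂ)) + Complex.I • (fun x => (((g x).im : ℝ) : ℂ)) := by
  funext x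
  simp only [Pi.add_apply, Pi.smul_apply, smul_eq_mul]
  rw [mul_comm]
  exact (Complex.re_add_im (g x)).symm

/-- real and imaginary parts satisfy the spectral condition -/
theorem hd_HSpec {d M : ℕ} (n : ℕ) (g : GF d M)
    (h : ∀ L : Fin d → ℕ, ∑ s, L s = n + 1 →
      tens (fun s => if s ∈ (univ : Finset (Fin d)) then 1 - Em M (L s) else 1) g = 0) :
    HSpec (gridSys d M) n (fun x => (g x).re) ∧ HSpec (gridSys d M) n (fun x => (g x).im) := by
  have key : ∀ L : Fin d → ℕ, ∑ s, L s = n + 1 → ∀ x,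
      ((cut (gridSys d M) univ L (fun x => (g x).re) x : ℝ) : ℂ) +
        Complex.I * ((cut (gridSys d M) univ L (fun x => (g x).im) x : ℝ) : ℂ) = 0 := by
    intro L hL x
    have h1 := congrFun (h L hL) x
    rw [tens_one_sub] at h1
    have h2 : ∀ V : Finset (Fin d), tens (fun s => if s ∈ V then Em M (L s) else 1) g x =
        (((gridSys d M).EU V L (fun x => (g x).re) x : ℝ) : ℂ) +
          Complex.I * (((gridSys d M).EU V L (fun x => (g x).im) x : ℝ) : ℂ) := by
      intro V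
      conv_lhs => rw [hd_split g]
      rw [tens_add, tens_smul, tens_Em_real, tens_Em_real]
      rfl
    refine Eq.trans ?_ h1
    unfold cut
    rw [Finset.sum_apply, Finset.sum_apply, Finset.sum_apply]
    simp only [Pi.smul_apply, smul_eq_mul, h2]
    push_cast
    rw [Finset.mul_sum, ← Finset.sum_add_distrib]
    refine Finset.sum_congr rfl fun V _ => ?_
    ring
  have key2 : ∀ a b : ℝ, (a : ℂ) + Complex.I * (b : ℂ) = 0 → a = 0 ∧ b = 0 := by
    intro a b hab
    have h1 := congrArg Complex.re hab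
    have h2 := congrArg Complex.im hab
    simp at h1 h2
    exact ⟨h1, h2⟩
  constructor
  · intro L _ hL
    funext x
    exact (key2 _ _ (key L hL x)).1
  · intro L _ hL
    funext x
    exact (key2 _ _ (key L hL x)).2

theorem hd_norm {d M : ℕ} (g : GF d M) (a : Fin d → ℕ) (ha : ∀ s, a s < M)
    (x : Fin d → Fin (2 ^ M)) :
    ‖DD a g x‖ ^ 2 = (co (gridSys d M) a (fun x => (g x).re) x) ^ 2 +
      (co (gridSys d M) a (fun x => (g x).im) x) ^ 2 := by
  have h1 : DD a g x = (((gridSys d M).chi univ a x *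
        co (gridSys d M) a (fun x => (g x).re) x : ℝ) : ℂ) +
      Complex.I * (((gridSys d M).chi univ a x *
        co (gridSys d M) a (fun x => (g x).im) x : ℝ) : ℂ) := by
    conv_lhs => rw [hd_split g]
    have h2 : ∀ u v : GF d M, DD a (u + Complex.I • v) = DD a u + Complex.I • DD a v := by
      intro u v
      unfold DD
      rw [tens_add, tens_smul]
    rw [h2, DD_real a ha, DD_real a ha]
    rfl
  have h3 := (gridSys d M).chi_sq univ a x
  rw [h1, ← Complex.normSq_eq_norm_sq, mul_comm Complex.I, Complex.normSq_add_mul_I, mul_pow,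
    mul_pow, h3, one_mul, one_mul]

theorem hd_LevN {d M m : ℕ} (h : m < M) : LevN d M m = lv d m := by
  ext a
  rw [mem_LevN, mem_lv]
  constructor
  · rintro ⟨_, h2⟩
    exact h2
  · intro h2
    refine ⟨fun s => ?_, h2⟩
    have := Finset.single_le_sum (f := a) (fun i _ => Nat.zero_le _) (mem_univ s)
    omega

/-- B8 (file HD.lean): the dyadic theorem for complex grid functions. -/
theorem hDd (d : ℕ) (hd : 1 ≤ d) :
    ∃ C : ℝ, 0 < C ∧ ∀ (M K : ℕ), K ≤ M → ∀ (f : GF d M), ∀ m < K,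
      NNd m f ≤ C * ((K : ℝ) - m) ^ d * L1d (PKd K f) := by
  obtain ⟨C, hC, hD⟩ := dyt d hd
  refine ⟨2 * C, by positivity, ?_⟩
  intro M K hKM f m hm
  obtain ⟨n, rfl⟩ : ∃ n, K = n + 1 := ⟨K - 1, by omega⟩
  set g := PKd (n + 1) f with hg
  obtain ⟨hu, hv⟩ := hd_HSpec n g (fun L hL => by rw [hg]; exact hd_cut_PKd _ L hL f)
  have bu := hD M n m _ hu (by omega) hKM
  have bv := hD M n m _ hv (by omega) hKM
  have hmM : m < M := by omega
  have hN : NNd m f ≤ ∑ x, SQ (gridSys d M) m (fun x => (g x).re) x +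
      ∑ x, SQ (gridSys d M) m (fun x => (g x).im) x := by
    rw [← Finset.sum_add_distrib]
    unfold NNd
    refine Finset.sum_le_sum fun x _ => ?_
    unfold SQ
    rw [hd_LevN hmM]
    have e : ∑ a ∈ lv d m, ‖DD a f x‖ ^ 2 =
        ∑ a ∈ lv d m, (co (gridSys d M) a (fun x => (g x).re) x) ^ 2 +
        ∑ a ∈ lv d m, (co (gridSys d M) a (fun x => (g x).im) x) ^ 2 := by
      rw [← Finset.sum_add_distrib]
      refine Finset.sum_congr rfl fun a ha => ?_
      rw [← hd_DD_PKd hm ha f, ← hg]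
      apply hd_norm
      intro s
      have h1 := Finset.single_le_sum (f := a) (fun i _ => Nat.zero_le _) (mem_univ s)
      have h2 := mem_lv.mp ha
      omega
    rw [e]
    exact hd_sqrt_add (Finset.sum_nonneg fun _ _ => sq_nonneg _)
      (Finset.sum_nonneg fun _ _ => sq_nonneg _)
  have h1 : ∑ x, |(g x).re| ≤ L1d g := by
    unfold L1d
    exact Finset.sum_le_sum fun x _ => Complex.abs_re_le_norm _
  have h2 : ∑ x, |(g x).im| ≤ L1d g := by
    unfold L1d
    exact Finset.sum_le_sum fun x _ => Complex.abs_im_le_norm _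
  have hcast : (((n + 1 : ℕ) : ℝ)) - m = (n : ℝ) + 1 - m := by push_cast; ring
  rw [hcast]
  have hpos : 0 ≤ C * ((n : ℝ) + 1 - m) ^ d := by
    have : (m : ℝ) < n + 1 := by exact_mod_cast hm
    have : 0 ≤ (n : ℝ) + 1 - m := by linarith
    positivity
  calc NNd m f ≤ _ := hN
    _ ≤ C * ((n : ℝ) + 1 - m) ^ d * ∑ x, |(g x).re| +
        C * ((n : ℝ) + 1 - m) ^ d * ∑ x, |(g x).im| := add_le_add bu bv
    _ ≤ C * ((n : ℝ) + 1 - m) ^ d * L1d g + C * ((n : ℝ) + 1 - m) ^ d * L1d g :=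
        add_le_add (mul_le_mul_of_nonneg_left h1 hpos) (mul_le_mul_of_nonneg_left h2 hpos)
    _ = _ := by ring

end Pool.Agent.H714R3.BD
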