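import Pool.Agent.H714R3.BD.ADefs

set_option autoImplicit false

namespace Pool.Agent.H714R3.BD

open Finset Pool.Agent.H730R2.LD

/-- commuting involutions with signs -/
structure InvData (d R : ℕ) (X : Type) where
  φ : Fin d → ℕ → X → X
  r : Fin d → ℕ → X → ℝ
  inv : ∀ s k x, φ s k (φ s k x) = x
  comm : ∀ s k t l x, φ s k (φ t l x) = φ t l (φ s k x)
  r_sq : ∀ s k x, r s k x * r s k x = 1
  r_self : ∀ s k x, k < R → r s k (φ s k x) = - r s k x
  r_ne : ∀ s k t l x, l < R → (s ≠ t ∨ (k ≠ l ∧ k < R)) → r s k (φ t l x) = r s k x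

/-- average over the orbit of one involution -/
noncomputable def avg {X : Type} (p : X → X) (f : X → ℝ) : X → ℝ := fun x => (f x + f (p x)) / 2

/-- A8 (file InvSys.lean): the system generated by commuting involutions:
`E s k = avg (φ s k) ∘ avg (φ s (k+1)) ∘ ... ∘ avg (φ s (R-1))`. -/
theorem exists_invSys {d R : ℕ} {X : Type} [Fintype X] (D : InvData d R X) :
    ∃ S : Sys d R X,
      (∀ s k f, k < R → S.E s k f = avg (D.φ s k) (S.E s (k + 1) f)) ∧
      (∀ s k f, R ≤ k → S.E s k f = f) ∧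
      (∀ s k, S.r s k = D.r s k) := by
  sorry

end Pool.Agent.H714R3.BD
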