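import Pool.Agent.H714R3.BD.LPair

set_option autoImplicit false

namespace Pool.Agent.H714R3.BD

open Finset Pool.Agent.H730R2.LD

/-- Jensen for `EU` -/
theorem LMain_EU_sq_le {d R : ℕ} {X : Type} [Fintype X] (S : Sys d R X)
    (U : Finset (Fin d)) (K : Fin d → ℕ) (f : X → ℝ) (x : X) :
    (S.EU U K f x) ^ 2 ≤ S.EU U K (f * f) x := by
  classical
  induction U using Finset.induction_on generalizing x with
  | empty => simp [sq]
  | insert s U hs ih =>
    rw [S.EU_insert hs, S.EU_insert hs]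
    refine (S.E_sq_le s (K s) _ x).trans ?_
    apply S.E_mono s (K s)
    intro y
    have h := ih y
    rw [sq] at h
    exact h

/-- lower bound for the top coefficient of the balanced functions -/
theorem LMain_lower {d R : ℕ} {X : Type} [Fintype X] (S : Sys d R X) (hd : 1 ≤ d)
    {Bs : ℕ → Finset X} {F : Finset (Fin d) → (Fin d → ℕ) → X → ℝ} (hF : LFam S Bs F d)
    (t : ℝ) (ht : t = 1 / (16 * 4 ^ d * (4 * 2 ^ d * d) ^ d))
    (K : Fin d → ℕ) (hK : ∀ s, K s < R) (x : X)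
    (hx : S.EU univ K (ind (Bs 0)) x ≤ t) :
    1 / 2 ≤ S.EU univ K (S.chi univ K * WW S F K) x := by
  classical
  have hd1 : (1 : ℝ) ≤ d := by exact_mod_cast hd
  have h2d : (1 : ℝ) ≤ 2 ^ d := one_le_pow₀ (by norm_num)
  have h4d : (1 : ℝ) ≤ 4 ^ d := one_le_pow₀ (by norm_num)
  have hΛ : (1 : ℝ) ≤ 4 * 2 ^ d * d := by nlinarith
  have hP1 : (1 : ℝ) ≤ (4 * 2 ^ d * d) ^ d := one_le_pow₀ hΛ
  set P : ℝ := (4 * 2 ^ d * d) ^ d with hP
  have hP0 : 0 < P := by linarith
  have ht0 : 0 < t := by rw [ht]; positivity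
  have hPt : P * t = (1 / (4 * 2 ^ d)) ^ 2 := by
    rw [ht]
    have h4 : (4 : ℝ) ^ d = 2 ^ d * 2 ^ d := by rw [← mul_pow]; norm_num
    rw [h4]
    field_simp
    ring
  have ht16 : t ≤ 1 / 16 := by
    rw [ht]
    apply one_div_le_one_div_of_le (by norm_num)
    have : (1 : ℝ) ≤ 4 ^ d * P := by nlinarith
    nlinarith
  have hmem : (∅ : Finset (Fin d)) ∈ (univ : Finset (Fin d)).powerset :=
    Finset.mem_powerset.2 (Finset.empty_subset _)
  set h : Finset (Fin d) → X → ℝ := fun T => S.chi univ K * (S.chi (univ \ T) K * F T K) with hh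
  have hsum : S.chi univ K * WW S F K = ∑ T ∈ (univ : Finset (Fin d)).powerset, h T := by
    unfold WW
    rw [Finset.mul_sum]
  have hE0 : S.EU univ K (h ∅) x = 1 - S.EU univ K (ind (Bs 0)) x := by
    have e1 : h ∅ = (fun _ => (1 : ℝ)) - ind (Bs 0) := by
      ext y
      simp only [hh]
      rw [hF.zero, Finset.sdiff_empty]
      simp only [Pi.mul_apply, Pi.sub_apply, Pi.one_apply]
      have := S.chi_sq univ K y
      calc S.chi univ K y * (S.chi univ K y * (1 - ind (Bs 0) y))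
          = S.chi univ K y ^ 2 * (1 - ind (Bs 0) y) := by ring
        _ = _ := by rw [this, one_mul]
    rw [e1, map_sub, Pi.sub_apply, S.EU_const]
  have hET : ∀ T ∈ (univ : Finset (Fin d)).powerset.erase ∅,
      - (1 / (4 * 2 ^ d)) ≤ S.EU univ K (h T) x := by
    intro T hT
    have hne : T.Nonempty := Finset.nonempty_iff_ne_empty.2 (Finset.mem_erase.1 hT).1
    have hcard : T.card ≤ d := by simpa using Finset.card_le_univ T
    have e1 : h T * h T = F T K * F T K := by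
      ext y
      simp only [hh, Pi.mul_apply]
      have h1 := S.chi_sq univ K y
      have h2 := S.chi_sq (univ \ T) K y
      calc S.chi univ K y * (S.chi (univ \ T) K y * F T K y) *
            (S.chi univ K y * (S.chi (univ \ T) K y * F T K y))
          = S.chi univ K y ^ 2 * S.chi (univ \ T) K y ^ 2 * (F T K y * F T K y) := by ring
        _ = _ := by rw [h1, h2, one_mul, one_mul]
    have h1 := LMain_EU_sq_le S univ K (h T) x
    rw [e1] at h1
    have h2 := lfam_point S hF hd T hne K hK x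
    have hi0 : 0 ≤ S.EU univ K (ind (Bs 0)) x := S.EU_nonneg K (fun y => ind_nonneg _ _) x
    have h3 : (4 * 2 ^ d * (d : ℝ)) ^ T.card * S.EU univ K (ind (Bs 0)) x ≤ P * t := by
      apply mul_le_mul (pow_le_pow_right₀ hΛ hcard) hx hi0 hP0.le
    have h4 : (S.EU univ K (h T) x) ^ 2 ≤ (1 / (4 * 2 ^ d)) ^ 2 := by
      rw [← hPt]
      exact h1.trans (h2.trans h3)
    exact (abs_le.1 (abs_le_of_sq_le_sq h4 (by positivity))).1
  have hcardP : (((univ : Finset (Fin d)).powerset.erase ∅).card : ℝ) ≤ 2 ^ d := by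
    have h1 : ((univ : Finset (Fin d)).powerset.erase ∅).card ≤ 2 ^ d := by
      refine (Finset.card_erase_le).trans ?_
      rw [Finset.card_powerset]; simp
    exact_mod_cast h1
  have hrest : - (1 / 4 : ℝ) ≤ ∑ T ∈ (univ : Finset (Fin d)).powerset.erase ∅,
      S.EU univ K (h T) x := by
    calc - (1 / 4 : ℝ) = - (2 ^ d * (1 / (4 * 2 ^ d))) := by
          field_simp
      _ ≤ - ((((univ : Finset (Fin d)).powerset.erase ∅).card : ℝ) * (1 / (4 * 2 ^ d))) := by
          apply neg_le_neg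
          exact mul_le_mul_of_nonneg_right hcardP (by positivity)
      _ = ∑ T ∈ (univ : Finset (Fin d)).powerset.erase ∅, - (1 / (4 * 2 ^ d) : ℝ) := by
          rw [Finset.sum_const, nsmul_eq_mul]; ring
      _ ≤ _ := Finset.sum_le_sum hET
  rw [hsum, map_sum, Finset.sum_apply, ← Finset.add_sum_erase _ _ hmem, hE0]
  linarith

/-- A4 (file LMain.lean): balanced functions supported off `B`, local version of `abstract_main`. -/
theorem loc_main (d : ℕ) (hd : 1 ≤ d) :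
    ∃ C : ℝ, 1 ≤ C ∧ ∀ (R : ℕ) (X : Type) [Fintype X] (S : Sys d R X) (B : Finset X),
      ∃ (B' : Finset X) (W : (Fin d → ℕ) → X → ℝ),
        (B'.card : ℝ) ≤ C * B.card ∧
        (∀ K, (∀ s, K s < R) → ∀ s, S.E s (K s) (W K) = 0) ∧
        (∀ K, (∀ s, K s < R) → ∀ x, x ∉ B' → 1 / 2 ≤ S.EU univ K (S.chi univ K * W K) x) ∧
        (∀ (g : X → ℝ) (M : ℝ), (∀ x, x ∉ B → |g x| ≤ M) →
          ∑ K ∈ Lev d R univ, nsq (S.EU univ K (g * W K)) ≤
            C * (nsq (g * (1 - ind B)) + M ^ 2 * B.card)) := by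
  have hd1 : (1 : ℝ) ≤ d := by exact_mod_cast hd
  have h2d : (1 : ℝ) ≤ 2 ^ d := one_le_pow₀ (by norm_num)
  have h4d : (1 : ℝ) ≤ 4 ^ d := one_le_pow₀ (by norm_num)
  set L : ℝ := 4 * d * 2 ^ d * 2 ^ d with hLdef
  have hL1 : 1 ≤ L := by
    have : (1 : ℝ) ≤ d * 2 ^ d := by nlinarith
    have h3 : (1 : ℝ) ≤ d * 2 ^ d * 2 ^ d := by nlinarith
    nlinarith
  have hL0 : 0 < L := by linarith
  have hL : 4 * (d : ℝ) * 2 ^ d * (2 ^ d / L) ≤ 1 := by
    rw [← mul_div_assoc, div_le_one hL0]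
  set t : ℝ := 1 / 2 / L ^ d with htdef
  have ht : 0 < t := by positivity
  have ht1 : t < 1 := by
    rw [htdef, div_lt_one (by positivity)]
    have : (1 : ℝ) ≤ L ^ d := one_le_pow₀ hL1
    linarith
  set κ : ℝ := (4 ^ d / t ^ 2) ^ d with hκ
  have hκ0 : 0 < κ := by positivity
  have hΛ : (1 : ℝ) ≤ 4 * 2 ^ d * d := by nlinarith
  have hP1 : (1 : ℝ) ≤ (4 * 2 ^ d * d) ^ d := one_le_pow₀ hΛ
  set P : ℝ := (4 * 2 ^ d * d) ^ d with hP
  have hP0 : 0 < P := by linarith
  set t' : ℝ := 1 / (16 * 4 ^ d * P) with ht'def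
  have ht'0 : 0 < t' := by positivity
  have ht'1 : t' < 1 := by
    rw [ht'def, div_lt_one (by positivity)]
    have : (1 : ℝ) ≤ 4 ^ d * P := by nlinarith
    nlinarith
  have hc1 : 0 < 4 ^ d / t' ^ 2 * κ := by positivity
  have hc2 : (0 : ℝ) < 2 ^ d * 2 ^ d := by positivity
  have hc3 : 0 < 2 ^ d * 2 ^ d * (P * κ) := by positivity
  refine ⟨1 + 4 ^ d / t' ^ 2 * κ + 2 ^ d * 2 ^ d + 2 ^ d * 2 ^ d * (P * κ), by linarith, ?_⟩
  intro R X _ S B
  obtain ⟨Bs, hBs0, hBs1, hBs2⟩ := chain S B t ht ht1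
  obtain ⟨F, hF⟩ := exists_lfam S L hL1 hL Bs hBs1 d le_rfl
  have hmono : ∀ q, q < d → ∀ x ∈ Bs (q + 1), x ∈ Bs q := fun q hq => (hBs1 q hq).1
  obtain ⟨B', hB'1, hB'2, hB'3⟩ := maximal S (Bs 0) t' ht'0 ht'1
  have hb : ((Bs 0).card : ℝ) ≤ κ * B.card := hBs2
  have hcB : (0 : ℝ) ≤ B.card := Nat.cast_nonneg _
  refine ⟨B', WW S F, ?_, ?_, ?_, ?_⟩
  · calc (B'.card : ℝ) ≤ 4 ^ d / t' ^ 2 * (Bs 0).card := hB'2
      _ ≤ 4 ^ d / t' ^ 2 * (κ * B.card) := mul_le_mul_of_nonneg_left hb (by positivity)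
      _ = (4 ^ d / t' ^ 2 * κ) * B.card := by ring
      _ ≤ _ := mul_le_mul_of_nonneg_right (by linarith) hcB
  · intro K hK s
    unfold WW
    apply E_whole S F K univ s (Finset.mem_univ s)
    intro T _ hsT
    exact hF.bal T K (by simpa using Finset.card_le_univ T) (fun s => (hK s).le) s hsT
  · intro K hK x hx
    exact LMain_lower S hd hF t' ht'def K hK x (hB'3 x hx univ K (fun s => (hK s).le))
  · intro g M hg
    have h1 := pairing_loc S hF hd hmono g M (by rw [hBs0]; exact hg)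
    rw [hBs0] at h1
    refine h1.trans ?_
    have hn := nsq_nonneg (g * (1 - ind B))
    have hM := sq_nonneg M
    have hMB : 0 ≤ M ^ 2 * B.card := mul_nonneg hM hcB
    have h2 : M ^ 2 * (P * (Bs 0).card) ≤ M ^ 2 * (P * (κ * B.card)) := by gcongr
    calc 2 ^ d * 2 ^ d * (nsq (g * (1 - ind B)) + M ^ 2 * (P * (Bs 0).card))
        ≤ 2 ^ d * 2 ^ d * (nsq (g * (1 - ind B)) + M ^ 2 * (P * (κ * B.card))) := by
          apply mul_le_mul_of_nonneg_left _ hc2.le
          linarith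
      _ = 2 ^ d * 2 ^ d * nsq (g * (1 - ind B)) +
            2 ^ d * 2 ^ d * (P * κ) * (M ^ 2 * B.card) := by ring
      _ ≤ (1 + 4 ^ d / t' ^ 2 * κ + 2 ^ d * 2 ^ d + 2 ^ d * 2 ^ d * (P * κ)) *
            nsq (g * (1 - ind B)) +
          (1 + 4 ^ d / t' ^ 2 * κ + 2 ^ d * 2 ^ d + 2 ^ d * 2 ^ d * (P * κ)) *
            (M ^ 2 * B.card) := by
          apply add_le_add
          · exact mul_le_mul_of_nonneg_right (by linarith) hn
          · exact mul_le_mul_of_nonneg_right (by linarith) hMB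
      _ = _ := by ring

end Pool.Agent.H714R3.BD
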