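import Pool.Agent.H714R3.BD.LRecur

set_option autoImplicit false

namespace Pool.Agent.H714R3.BD

open Finset Pool.Agent.H730R2.LD

variable {d R : ℕ} {X : Type} [Fintype X] (S : Sys d R X)

theorem LPair_nsq_mul_self (f : X → ℝ) : nsq f = ∑ x, (f * f) x := by
  unfold nsq
  exact Finset.sum_congr rfl fun x _ => by rw [Pi.mul_apply, sq]

/-- A3a (file LPair.lean): the local family is a family. -/
theorem LFam.toFam {Bs : ℕ → Finset X} {F : Finset (Fin d) → (Fin d → ℕ) → X → ℝ} {q : ℕ}
    (hF : LFam S Bs F q) : Fam S Bs F q := by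
  refine ⟨hF.zero, hF.dep, hF.supp, hF.bal, fun V K hV hne hK => ?_⟩
  rw [LPair_nsq_mul_self, ← S.EU_sum (U := V) K (F V K * F V K)]
  calc ∑ x, S.EU V K (F V K * F V K) x
      ≤ ∑ x, 4 * 2 ^ d * ∑ s ∈ V, S.EU V K (S.E s (K s) (S.r s (K s) * F (V.erase s) K) *
          S.E s (K s) (S.r s (K s) * F (V.erase s) K)) x :=
        Finset.sum_le_sum fun x _ => hF.norm V K hV hne hK x
    _ = 4 * 2 ^ d * ∑ s ∈ V, ∑ x, S.EU V K (S.E s (K s) (S.r s (K s) * F (V.erase s) K) *
          S.E s (K s) (S.r s (K s) * F (V.erase s) K)) x := by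
        rw [← Finset.mul_sum, Finset.sum_comm]
    _ = _ := by
        congr 1
        apply Finset.sum_congr rfl
        intro s _
        rw [S.EU_sum, ← LPair_nsq_mul_self]

theorem LPair_EU_univ (V : Finset (Fin d)) (K : Fin d → ℕ) (g : X → ℝ) :
    S.EU univ K (S.EU V K g) = S.EU univ K g := by
  classical
  induction V using Finset.induction_on generalizing g with
  | empty => simp
  | insert s U hs ih =>
    rw [S.EU_insert hs, S.EU_E_mem (mem_univ s), ih]

theorem LPair_rr (s : Fin d) (k : ℕ) (f : X → ℝ) : S.r s k * f * (S.r s k * f) = f * f := by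
  have h := S.r_mul_r s k
  calc S.r s k * f * (S.r s k * f) = (S.r s k * S.r s k) * (f * f) := by ring
    _ = f * f := by rw [h, one_mul]

omit [Fintype X] in
theorem LPair_ind_mul (A : Finset X) : ind A * ind A = ind A := by
  ext x
  rw [Pi.mul_apply]
  by_cases hx : x ∈ A
  · rw [ind_mem hx, one_mul]
  · rw [ind_notMem hx, zero_mul]

/-- A3b (file LPair.lean): pointwise local size of the family. -/
theorem lfam_point {Bs : ℕ → Finset X} {F : Finset (Fin d) → (Fin d → ℕ) → X → ℝ}
    (hF : LFam S Bs F d) (hd : 1 ≤ d) (V : Finset (Fin d)) (hV : V.Nonempty) (K : Fin d → ℕ)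
    (hK : ∀ s, K s < R) (x : X) :
    S.EU univ K (F V K * F V K) x ≤
      (4 * 2 ^ d * d) ^ V.card * S.EU univ K (ind (Bs 0)) x := by
  classical
  induction hn : V.card using Nat.strong_induction_on generalizing V with
  | _ n ih =>
    have hcard : V.card ≤ d := by simpa using Finset.card_le_univ V
    have hnpos : 0 < V.card := Finset.card_pos.2 hV
    have hI0 : 0 ≤ S.EU univ K (ind (Bs 0)) x := S.EU_nonneg K (ind_nonneg _) x
    set h : Fin d → X → ℝ := fun s => S.E s (K s) (S.r s (K s) * F (V.erase s) K) with hh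
    have h1 : S.EU univ K (F V K * F V K) x ≤ 4 * 2 ^ d * ∑ s ∈ V, S.EU univ K (h s * h s) x := by
      have h2 := S.EU_mono (U := univ) K (f := S.EU V K (F V K * F V K))
        (g := (4 * 2 ^ d : ℝ) • ∑ s ∈ V, S.EU V K (h s * h s)) (fun y => by
          have := hF.norm V K hcard hV (fun s => (hK s).le) y
          rw [Pi.smul_apply, smul_eq_mul, Finset.sum_apply]
          exact this) x
      rw [LPair_EU_univ, map_smul, map_sum, Pi.smul_apply, smul_eq_mul, Finset.sum_apply] at h2
      refine h2.trans (le_of_eq ?_)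
      congr 1
      exact Finset.sum_congr rfl fun s _ => by rw [LPair_EU_univ]
    have hdir : ∀ s ∈ V, S.EU univ K (h s * h s) x ≤
        (4 * 2 ^ d * d) ^ (V.card - 1) * S.EU univ K (ind (Bs 0)) x := by
      intro s hs
      rcases Finset.eq_empty_or_nonempty (V.erase s) with he | he
      · have hc1 : V.card = 1 := by
          have := Finset.card_erase_of_mem hs
          rw [he, Finset.card_empty] at this
          omega
        have e1 : h s = - S.E s (K s) (S.r s (K s) * ind (Bs 0)) := by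
          simp only [hh]
          rw [he, hF.zero, mul_sub, mul_one, map_sub, S.E_r s (K s) (hK s), zero_sub]
        rw [hc1, Nat.sub_self, pow_zero, one_mul, ← S.EU_E_mem (mem_univ s) K (ind (Bs 0))]
        apply S.EU_mono
        intro y
        rw [e1]
        have h3 := S.E_sq_le s (K s) (S.r s (K s) * ind (Bs 0)) y
        rw [LPair_rr, LPair_ind_mul] at h3
        simp only [Pi.mul_apply, Pi.neg_apply]
        calc -(S.E s (K s) (S.r s (K s) * ind (Bs 0))) y * -(S.E s (K s) (S.r s (K s) * ind (Bs 0))) y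
            = (S.E s (K s) (S.r s (K s) * ind (Bs 0)) y) ^ 2 := by ring
          _ ≤ _ := h3
      · have hce : (V.erase s).card = V.card - 1 := Finset.card_erase_of_mem hs
        have h3 := ih (V.erase s).card (by omega) (V.erase s) he rfl
        rw [hce] at h3
        refine le_trans ?_ h3
        rw [← S.EU_E_mem (mem_univ s) K (F (V.erase s) K * F (V.erase s) K)]
        apply S.EU_mono
        intro y
        have h4 := S.E_sq_le s (K s) (S.r s (K s) * F (V.erase s) K) y
        rw [LPair_rr, sq] at h4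
        exact h4
    have hsum : ∑ s ∈ V, S.EU univ K (h s * h s) x ≤
        V.card * ((4 * 2 ^ d * d) ^ (V.card - 1) * S.EU univ K (ind (Bs 0)) x) := by
      refine (Finset.sum_le_sum hdir).trans (le_of_eq ?_)
      rw [Finset.sum_const, nsmul_eq_mul]
    calc S.EU univ K (F V K * F V K) x ≤ 4 * 2 ^ d * ∑ s ∈ V, S.EU univ K (h s * h s) x := h1
      _ ≤ 4 * 2 ^ d * (V.card * ((4 * 2 ^ d * d) ^ (V.card - 1) * S.EU univ K (ind (Bs 0)) x)) :=
          mul_le_mul_of_nonneg_left hsum (by positivity)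
      _ ≤ 4 * 2 ^ d * (d * ((4 * 2 ^ d * d) ^ (V.card - 1) * S.EU univ K (ind (Bs 0)) x)) := by
          have : (V.card : ℝ) ≤ d := by exact_mod_cast hcard
          gcongr
      _ = (4 * 2 ^ d * d) ^ n * S.EU univ K (ind (Bs 0)) x := by
          have : n = (V.card - 1) + 1 := by omega
          rw [this, pow_succ]; ring

/-- A3c (file LPair.lean): pairing with a function bounded off `Bs d`, local version. -/
theorem pairing_loc {Bs : ℕ → Finset X} {F : Finset (Fin d) → (Fin d → ℕ) → X → ℝ}
    (hF : LFam S Bs F d) (hd : 1 ≤ d) (hmono : ∀ q, q < d → ∀ x ∈ Bs (q + 1), x ∈ Bs q)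
    (g : X → ℝ) (M : ℝ) (hg : ∀ x, x ∉ Bs d → |g x| ≤ M) :
    ∑ K ∈ Lev d R univ, nsq (S.EU univ K (g * WW S F K)) ≤
      (2 ^ d * 2 ^ d) * (nsq (g * (1 - ind (Bs d))) + M ^ 2 * ((4 * 2 ^ d * d) ^ d * (Bs 0).card)) := by
  classical
  have hFam := hF.toFam
  have hd1 : (1 : ℝ) ≤ d := by exact_mod_cast hd
  have h2d : (1 : ℝ) ≤ 2 ^ d := one_le_pow₀ (by norm_num)
  have hΛ : (1 : ℝ) ≤ 4 * 2 ^ d * d := by nlinarith
  have hb0 : (0 : ℝ) ≤ (Bs 0).card := Nat.cast_nonneg _
  have hA0 : 0 ≤ nsq (g * (1 - ind (Bs d))) := nsq_nonneg _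
  have hB0 : 0 ≤ M ^ 2 * ((4 * 2 ^ d * (d : ℝ)) ^ d * (Bs 0).card) := by positivity
  have hsub : ∀ x, x ∈ Bs d → x ∈ Bs 0 := by
    intro x hx
    have hm : ∀ j, j ≤ d → x ∈ Bs (d - j) := by
      intro j
      induction j with
      | zero => intro _; simpa using hx
      | succ j ih =>
        intro hj
        have h1 := ih (by omega)
        have e : d - j = (d - (j + 1)) + 1 := by omega
        rw [e] at h1
        exact hmono _ (by omega) x h1
    have := hm d le_rfl
    rwa [Nat.sub_self] at this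
  -- one set V
  have hone : ∀ V ∈ (univ : Finset (Fin d)).powerset, ∑ K ∈ Lev d R univ,
      nsq (S.EU univ K (S.chi (univ \ V) K * (g * F V K))) ≤
        nsq (g * (1 - ind (Bs d))) + M ^ 2 * ((4 * 2 ^ d * d) ^ d * (Bs 0).card) := by
    intro V _
    have hcard : V.card ≤ d := by simpa using Finset.card_le_univ V
    have hdisj : Disjoint V (univ \ V) := Finset.disjoint_sdiff
    have hun : V ∪ (univ \ V) = univ := Finset.union_sdiff_of_subset (Finset.subset_univ V)
    have h1 : ∑ K ∈ Lev d R univ, nsq (S.EU univ K (S.chi (univ \ V) K * (g * F V K))) ≤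
        ∑ K ∈ Lev d R univ, nsq (S.EU (univ \ V) K (S.chi (univ \ V) K * (g * F V K))) := by
      apply Finset.sum_le_sum
      intro K _
      have e : S.EU univ K (S.chi (univ \ V) K * (g * F V K)) =
          S.EU V K (S.EU (univ \ V) K (S.chi (univ \ V) K * (g * F V K))) := by
        rw [← EU_union S hdisj, hun]
      rw [e]
      exact S.nsq_EU_le K _
    have h2 := bessel_multi S V (univ \ V) hdisj (fun K => g * F V K) (by
      intro K K' h
      rw [hF.dep V K K' h])
    rw [hun] at h2
    refine (h1.trans h2).trans ?_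
    rcases Finset.eq_empty_or_nonempty V with he | he
    · rw [he, Lev_empty, Finset.sum_singleton, hF.zero]
      have hle : nsq (g * (1 - ind (Bs 0))) ≤ nsq (g * (1 - ind (Bs d))) := by
        unfold nsq
        apply Finset.sum_le_sum
        intro x _
        simp only [Pi.mul_apply, Pi.sub_apply, Pi.one_apply]
        by_cases hx : x ∈ Bs 0
        · rw [ind_mem hx, sub_self, mul_zero]
          simpa using sq_nonneg (g x * (1 - ind (Bs d) x))
        · rw [ind_notMem hx, ind_notMem (fun h => hx (hsub x h))]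
      linarith
    · have h3 : ∀ K ∈ Lev d R V, nsq (g * F V K) ≤ M ^ 2 * nsq (F V K) := by
        intro K hK
        unfold nsq
        rw [Finset.mul_sum]
        apply Finset.sum_le_sum
        intro x _
        simp only [Pi.mul_apply]
        by_cases hx : x ∈ Bs d
        · rw [fam_B S hFam hmono K (Lev_le hK) V x hx]
          simp
        · rw [mul_pow]
          apply mul_le_mul_of_nonneg_right _ (sq_nonneg _)
          rw [← sq_abs]
          exact pow_le_pow_left₀ (abs_nonneg _) (hg x hx) 2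
      have h4 : ∑ K ∈ Lev d R V, nsq (F V K) ≤ (4 * 2 ^ d * d) ^ d * (Bs 0).card := by
        refine (sum_fam S hFam hd V he).trans ?_
        have : (4 * 2 ^ d * (d : ℝ)) ^ V.card ≤ (4 * 2 ^ d * d) ^ d := pow_le_pow_right₀ hΛ hcard
        exact mul_le_mul_of_nonneg_right this hb0
      calc ∑ K ∈ Lev d R V, nsq (g * F V K)
          ≤ ∑ K ∈ Lev d R V, M ^ 2 * nsq (F V K) := Finset.sum_le_sum h3
        _ = M ^ 2 * ∑ K ∈ Lev d R V, nsq (F V K) := by rw [Finset.mul_sum]
        _ ≤ M ^ 2 * ((4 * 2 ^ d * d) ^ d * (Bs 0).card) :=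
            mul_le_mul_of_nonneg_left h4 (sq_nonneg M)
        _ ≤ _ := by linarith
  have hsplit : ∀ K, S.EU univ K (g * WW S F K) =
      ∑ V ∈ (univ : Finset (Fin d)).powerset,
        S.EU univ K (S.chi (univ \ V) K * (g * F V K)) := by
    intro K
    unfold WW
    rw [Finset.mul_sum, map_sum]
    apply Finset.sum_congr rfl
    intro V _
    congr 1
    ring
  have hcp : (((univ : Finset (Fin d)).powerset.card : ℕ) : ℝ) = 2 ^ d := by
    rw [Finset.card_powerset]; simp
  calc ∑ K ∈ Lev d R univ, nsq (S.EU univ K (g * WW S F K))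
      ≤ ∑ K ∈ Lev d R univ, 2 ^ d * ∑ V ∈ (univ : Finset (Fin d)).powerset,
          nsq (S.EU univ K (S.chi (univ \ V) K * (g * F V K))) := by
        apply Finset.sum_le_sum
        intro K _
        rw [hsplit, ← hcp]
        exact nsq_sum_le _ _
    _ = 2 ^ d * ∑ V ∈ (univ : Finset (Fin d)).powerset, ∑ K ∈ Lev d R univ,
          nsq (S.EU univ K (S.chi (univ \ V) K * (g * F V K))) := by
        rw [← Finset.mul_sum, Finset.sum_comm]
    _ ≤ 2 ^ d * ∑ V ∈ (univ : Finset (Fin d)).powerset,
          (nsq (g * (1 - ind (Bs d))) + M ^ 2 * ((4 * 2 ^ d * d) ^ d * ((Bs 0).card : ℝ))) :=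
        mul_le_mul_of_nonneg_left (Finset.sum_le_sum hone) (by positivity)
    _ = _ := by rw [Finset.sum_const, nsmul_eq_mul, hcp]; ring

end Pool.Agent.H714R3.BD
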