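import Pool.Agent.H714R3.BD.LSolver

set_option autoImplicit false

namespace Pool.Agent.H714R3.BD

open Finset Pool.Agent.H730R2.LD

variable {d R : ℕ} {X : Type} [Fintype X] (S : Sys d R X)

/-- the family up to size `q`, with LOCAL norm bounds (compare `Fam` of H730R2/LD/Recur.lean) -/
structure LFam (Bs : ℕ → Finset X) (F : Finset (Fin d) → (Fin d → ℕ) → X → ℝ) (q : ℕ) :
    Prop where
  zero : ∀ K, F ∅ K = 1 - ind (Bs 0)
  dep : ∀ V K K', (∀ s ∈ V, K s = K' s) → F V K = F V K'
  supp : ∀ V K, V.card ≤ q → (∀ s, K s ≤ R) → ∀ x ∈ Bs V.card, F V K x = 0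
  bal : ∀ V K, V.card ≤ q → (∀ s, K s ≤ R) → ∀ s ∈ V,
    S.E s (K s) (F V K) = - S.E s (K s) (S.r s (K s) * F (V.erase s) K)
  norm : ∀ V K, V.card ≤ q → V.Nonempty → (∀ s, K s ≤ R) → ∀ x,
    S.EU V K (F V K * F V K) x ≤ 4 * 2 ^ d * ∑ s ∈ V, S.EU V K
      (S.E s (K s) (S.r s (K s) * F (V.erase s) K) * S.E s (K s) (S.r s (K s) * F (V.erase s) K)) x

/-- one step of the construction, with local norm bounds -/
theorem LRecur_step (V : Finset (Fin d)) (K : Fin d → ℕ) (hK : ∀ s, K s ≤ R) (L : ℝ)
    (hL1 : 1 ≤ L) (hL : 4 * (d : ℝ) * 2 ^ d * (2 ^ d / L) ≤ 1) (Bq B : Finset X)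
    (hB : ∀ x, x ∉ Bq → ∀ (U : Finset (Fin d)) (K : Fin d → ℕ), (∀ s, K s ≤ R) →
        S.EU U K (ind B) x ≤ 1 / 2 / L ^ d)
    (F : Finset (Fin d) → (Fin d → ℕ) → X → ℝ)
    (hsupp : ∀ s ∈ V, ∀ x ∈ Bq, F (V.erase s) K x = 0)
    (hbal : ∀ T, T ⊆ V → T ≠ V → ∀ s ∈ T,
      S.E s (K s) (F T K) = - S.E s (K s) (S.r s (K s) * F (T.erase s) K)) :
    ∃ f : X → ℝ, (∀ x ∈ B, f x = 0) ∧
      (∀ s ∈ V, S.E s (K s) f = - S.E s (K s) (S.r s (K s) * F (V.erase s) K)) ∧
      ∀ x, S.EU V K (f * f) x ≤ 4 * 2 ^ d * ∑ s ∈ V, S.EU V K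
        (S.E s (K s) (S.r s (K s) * F (V.erase s) K) *
          S.E s (K s) (S.r s (K s) * F (V.erase s) K)) x := by
  classical
  obtain ⟨A, hA1, hA2, hA3⟩ := clean S V K B L hL1
  set G : X → ℝ := ∑ T ∈ V.powerset.erase V, S.chi (V \ T) K * F T K with hG
  have hEG : ∀ s ∈ V, S.E s (K s) G = S.E s (K s) (S.r s (K s) * F (V.erase s) K) := by
    intro s hs
    exact E_partial S F K V s hs (fun T h1 h2 h3 => hbal T h1 h2 s h3)
  have hL0 : 0 < L := by linarith
  have hcard : V.card ≤ d := by
    have := Finset.card_le_univ V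
    simpa using this
  have h2c : (2 : ℝ) ^ V.card ≤ 2 ^ d := pow_le_pow_right₀ (by norm_num) hcard
  obtain ⟨f, hf1, hf2, hf3⟩ := solver_loc S V K A (2 ^ d / L) (by positivity) (by
    refine le_trans ?_ hL
    have hc : (V.card : ℝ) ≤ d := by exact_mod_cast hcard
    have : (0 : ℝ) ≤ 2 ^ d / L := by positivity
    gcongr) hA3 G (by
    intro s hs x hx
    rw [hEG s hs]
    have : S.E s (K s) (S.r s (K s) * F (V.erase s) K) x = S.E s (K s) (fun _ => 0) x := by
      apply S.E_local
      intro y hy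
      have hyA := hx y hy
      have hyB : y ∈ Bq := by
        by_contra h
        exact hyA (hA2 y (fun U _ => hB y h U K hK))
      simp only [Pi.mul_apply]
      rw [hsupp s hs y hyB, mul_zero]
    rw [this, S.E_const])
  refine ⟨f, fun x hx => hf1 x (fun h => hA1 x h hx), fun s hs => ?_, fun x => ?_⟩
  · have h := hf2 s hs
    rw [map_add, hEG s hs] at h
    exact eq_neg_of_add_eq_zero_right h
  · have hsum : ∑ s ∈ V, S.EU V K (S.E s (K s) G * S.E s (K s) G) x =
        ∑ s ∈ V, S.EU V K (S.E s (K s) (S.r s (K s) * F (V.erase s) K) *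
          S.E s (K s) (S.r s (K s) * F (V.erase s) K)) x :=
      Finset.sum_congr rfl fun s hs => by rw [hEG s hs]
    have hx := hf3 x
    rw [hsum] at hx
    refine hx.trans ?_
    have h0 : 0 ≤ ∑ s ∈ V, S.EU V K (S.E s (K s) (S.r s (K s) * F (V.erase s) K) *
          S.E s (K s) (S.r s (K s) * F (V.erase s) K)) x :=
      Finset.sum_nonneg fun s _ => S.EU_nonneg K (fun y => mul_self_nonneg _) x
    gcongr

/-- A2 (file LRecur.lean): existence of the local family. -/
theorem exists_lfam (L : ℝ) (hL1 : 1 ≤ L) (hL : 4 * (d : ℝ) * 2 ^ d * (2 ^ d / L) ≤ 1)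
    (Bs : ℕ → Finset X)
    (hBs : ∀ q, q < d → (∀ x ∈ Bs (q + 1), x ∈ Bs q) ∧
      (∀ x, x ∉ Bs q → ∀ (U : Finset (Fin d)) (K : Fin d → ℕ), (∀ s, K s ≤ R) →
        S.EU U K (ind (Bs (q + 1))) x ≤ 1 / 2 / L ^ d)) (q : ℕ) (hq : q ≤ d) :
    ∃ F : Finset (Fin d) → (Fin d → ℕ) → X → ℝ, LFam S Bs F q := by
  classical
  induction q with
  | zero =>
    refine ⟨fun V _ => if V = ∅ then 1 - ind (Bs 0) else 0, ?_, ?_, ?_, ?_, ?_⟩
    · intro K; simp
    · intro V K K' _; rfl
    · intro V K hV _ x hx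
      have : V = ∅ := Finset.card_eq_zero.1 (Nat.le_zero.1 hV)
      subst this
      simp only [Finset.card_empty] at hx
      simp [ind_mem hx]
    · intro V K hV _ s hs
      have : V = ∅ := Finset.card_eq_zero.1 (Nat.le_zero.1 hV)
      subst this
      exact absurd hs (Finset.notMem_empty s)
    · intro V K hV hne
      have : V = ∅ := Finset.card_eq_zero.1 (Nat.le_zero.1 hV)
      subst this
      exact absurd hne Finset.not_nonempty_empty
  | succ q ih =>
    obtain ⟨F, hF⟩ := ih (by omega)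
    obtain ⟨_, hB2⟩ := hBs q (by omega)
    have key : ∀ (V : Finset (Fin d)) (K : Fin d → ℕ), ∃ f : X → ℝ, V.card = q + 1 →
        (∀ s, K s ≤ R) → ((∀ x ∈ Bs (q + 1), f x = 0) ∧
        (∀ s ∈ V, S.E s (K s) f = - S.E s (K s) (S.r s (K s) * F (V.erase s) K)) ∧
        ∀ x, S.EU V K (f * f) x ≤ 4 * 2 ^ d * ∑ s ∈ V, S.EU V K
          (S.E s (K s) (S.r s (K s) * F (V.erase s) K) *
            S.E s (K s) (S.r s (K s) * F (V.erase s) K)) x) := by
      intro V K
      by_cases hV : V.card = q + 1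
      · by_cases hK : ∀ s, K s ≤ R
        · obtain ⟨f, hf⟩ := LRecur_step S V K hK L hL1 hL (Bs q) (Bs (q + 1)) hB2 F (by
            intro s hs x hx
            have hc : (V.erase s).card = q := by rw [Finset.card_erase_of_mem hs, hV]; rfl
            exact hF.supp (V.erase s) K hc.le hK x (by rw [hc]; exact hx)) (by
            intro T hT hTV s hs
            have hc : T.card < V.card :=
              Finset.card_lt_card (Finset.ssubset_iff_subset_ne.2 ⟨hT, hTV⟩)
            exact hF.bal T K (by omega) hK s hs)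
          exact ⟨f, fun _ _ => hf⟩
        · exact ⟨0, fun _ h => absurd h hK⟩
      · exact ⟨0, fun h => absurd h hV⟩
    choose g hg using key
    refine ⟨fun V K => if V.card = q + 1 then g V (mask V K) else F V K, ?_, ?_, ?_, ?_, ?_⟩
    · intro K
      have h0 : ¬ ((∅ : Finset (Fin d)).card = q + 1) := by simp
      rw [if_neg h0]
      exact hF.zero K
    · intro V K K' h
      rw [mask_congr h, hF.dep V K K' h]
    · intro V K hV hK x hx
      by_cases hc : V.card = q + 1
      · rw [if_pos hc]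
        exact (hg V (mask V K) hc (mask_le hK)).1 x (by rw [← hc]; exact hx)
      · rw [if_neg hc]
        exact hF.supp V K (by omega) hK x hx
    · intro V K hV hK s hs
      have hce : (V.erase s).card = V.card - 1 := Finset.card_erase_of_mem hs
      have hpos : 0 < V.card := Finset.card_pos.2 ⟨s, hs⟩
      rw [if_neg (show ¬ (V.erase s).card = q + 1 by omega)]
      by_cases hc : V.card = q + 1
      · rw [if_pos hc]
        have h := (hg V (mask V K) hc (mask_le hK)).2.1 s hs
        rw [mask_mem hs, hF.dep (V.erase s) (mask V K) K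
          (fun t ht => mask_mem (Finset.mem_of_mem_erase ht))] at h
        exact h
      · rw [if_neg hc]
        exact hF.bal V K (by omega) hK s hs
    · intro V K hV hne hK x
      have hce : ∀ s ∈ V, ¬ (V.erase s).card = q + 1 := by
        intro s hs
        have h1 : (V.erase s).card = V.card - 1 := Finset.card_erase_of_mem hs
        have hpos : 0 < V.card := Finset.card_pos.2 ⟨s, hs⟩
        omega
      have hsum : ∑ s ∈ V, S.EU V K (S.E s (K s) (S.r s (K s) *
          (if (V.erase s).card = q + 1 then g (V.erase s) (mask (V.erase s) K)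
            else F (V.erase s) K)) * S.E s (K s) (S.r s (K s) *
          (if (V.erase s).card = q + 1 then g (V.erase s) (mask (V.erase s) K)
            else F (V.erase s) K))) x =
          ∑ s ∈ V, S.EU V K (S.E s (K s) (S.r s (K s) * F (V.erase s) K) *
            S.E s (K s) (S.r s (K s) * F (V.erase s) K)) x :=
        Finset.sum_congr rfl fun s hs => by rw [if_neg (hce s hs)]
      rw [hsum]
      by_cases hc : V.card = q + 1
      · rw [if_pos hc]
        have h := (hg V (mask V K) hc (mask_le hK)).2.2 x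
        have hEU : ∀ f : X → ℝ, S.EU V (mask V K) f = S.EU V K f := fun f =>
          S.EU_congr (fun s hs => mask_mem hs) f
        have hsum2 : ∑ s ∈ V, S.EU V (mask V K) (S.E s (mask V K s) (S.r s (mask V K s) *
            F (V.erase s) (mask V K)) * S.E s (mask V K s) (S.r s (mask V K s) *
            F (V.erase s) (mask V K))) x =
            ∑ s ∈ V, S.EU V K (S.E s (K s) (S.r s (K s) * F (V.erase s) K) *
              S.E s (K s) (S.r s (K s) * F (V.erase s) K)) x := by
          apply Finset.sum_congr rfl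
          intro s hs
          rw [mask_mem hs, hF.dep (V.erase s) (mask V K) K
            (fun t ht => mask_mem (Finset.mem_of_mem_erase ht)), hEU]
        rw [hsum2, hEU] at h
        exact h
      · rw [if_neg hc]
        exact hF.norm V K (by omega) hne hK x

end Pool.Agent.H714R3.BD
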