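import Pool.Agent.H714R3.BD.ADefs

set_option autoImplicit false

namespace Pool.Agent.H714R3.BD

open Finset Pool.Agent.H730R2.LD

variable {d R : ℕ} {X : Type} [Fintype X] (S : Sys d R X)

theorem lsolver_rep (V : Finset (Fin d)) (K : Fin d → ℕ) :
    ∃ ρ : X → X, (∀ x g, S.EU V K g (ρ x) = S.EU V K g x) ∧
      ∀ x y, (∀ g, S.EU V K g x = S.EU V K g y) → ρ x = ρ y := by
  let st : Setoid X :=
    { r := fun x y => ∀ g, S.EU V K g x = S.EU V K g y
      iseqv := ⟨fun _ _ => rfl, fun h g => (h g).symm, fun h h' g => (h g).trans (h' g)⟩ }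
  refine ⟨fun x => (Quotient.mk st x).out, fun x g => ?_, fun x y h => ?_⟩
  · exact (Quotient.exact (Quotient.out_eq (Quotient.mk st x))) g
  · have h1 : Quotient.mk st x = Quotient.mk st y := Quotient.sound h
    exact congrArg Quotient.out h1

/-- A1 (file LSolver.lean): the solver of `H730R2/LD/Solver.lean` with LOCAL norm bounds. -/
theorem solver_loc (V : Finset (Fin d)) (K : Fin d → ℕ) (A : Finset X) (η : ℝ) (hη0 : 0 ≤ η)
    (hη : 4 * V.card * 2 ^ V.card * η ≤ 1)
    (hreg : ∀ s ∈ V, ∀ x ∈ A, S.E s (K s) (1 - ind A) x ≤ η) (G : X → ℝ)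
    (hG : ∀ s ∈ V, ∀ x, (∀ y, S.rel s (K s) x y → y ∉ A) → S.E s (K s) G x = 0) :
    ∃ f : X → ℝ, (∀ x, x ∉ A → f x = 0) ∧ (∀ s ∈ V, S.E s (K s) (G + f) = 0) ∧
      ∀ x, S.EU V K (f * f) x ≤
        4 * 2 ^ V.card * ∑ s ∈ V, S.EU V K (S.E s (K s) G * S.E s (K s) G) x := by
  classical
  obtain ⟨ρ, hρ1, hρ2⟩ := lsolver_rep S V K
  have F1 : ∀ s ∈ V, ∀ x y, S.rel s (K s) x y → ρ x = ρ y := fun s hs x y h =>
    hρ2 x y (fun g => S.EU_meas hs K g x y h)
  set one : X → X → ℝ := fun c x => if ρ x = c then 1 else 0 with hone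
  have F2 : ∀ s ∈ V, ∀ c (h : X → ℝ), S.E s (K s) (one c * h) = one c * S.E s (K s) h := by
    intro s hs c h
    refine S.E_pull s (K s) (one c) h (fun x y hxy => ?_)
    simp only [hone]
    rw [F1 s hs x y hxy]
  have F3 : ∀ c (h : X → ℝ), S.EU V K (one c * h) = one c * S.EU V K h := by
    have key : ∀ U : Finset (Fin d), U ⊆ V → ∀ c (h : X → ℝ),
        S.EU U K (one c * h) = one c * S.EU U K h := by
      intro U
      induction U using Finset.induction_on with
      | empty => intro _ c h; simp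
      | insert s U hs ih =>
        intro hU c h
        rw [S.EU_insert hs, S.EU_insert hs,
          ih (fun t ht => hU (mem_insert_of_mem ht)) c h, F2 s (hU (mem_insert_self s U))]
    exact key V subset_rfl
  have main : ∀ c : X, ∃ f : X → ℝ, (∀ x, x ∉ A.filter (fun x => ρ x = c) → f x = 0) ∧
      (∀ s ∈ V, S.E s (K s) (one c * G + f) = 0) ∧
      nsq f ≤ 4 * 2 ^ V.card * ∑ s ∈ V, nsq (S.E s (K s) (one c * G)) := by
    intro c
    refine solver S V K (A.filter (fun x => ρ x = c)) η hη0 hη ?_ (one c * G) ?_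
    · intro s hs x hx
      rw [mem_filter] at hx
      refine le_trans (le_of_eq ?_) (hreg s hs x hx.1)
      refine S.E_local s (K s) x (fun y hy => ?_)
      have h1 : ρ y = c := (F1 s hs x y hy).symm.trans hx.2
      simp only [Pi.sub_apply, Pi.one_apply]
      congr 1
      by_cases h2 : y ∈ A
      · rw [ind_mem h2, ind_mem (mem_filter.2 ⟨h2, h1⟩)]
      · rw [ind_notMem h2, ind_notMem (fun h => h2 (mem_filter.1 h).1)]
    · intro s hs x hx
      rw [F2 s hs, Pi.mul_apply]
      by_cases h1 : ρ x = c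
      · rw [hG s hs x, mul_zero]
        intro y hy hyA
        exact hx y hy (mem_filter.2 ⟨hyA, (F1 s hs x y hy).symm.trans h1⟩)
      · simp [hone, h1]
  choose F hF1 hF2 hF3 using main
  refine ⟨fun x => F (ρ x) x, ?_, ?_, ?_⟩
  · intro x hx
    exact hF1 (ρ x) x (fun h => hx (mem_filter.1 h).1)
  · intro s hs
    ext x
    have h1 : S.E s (K s) (G + fun x => F (ρ x) x) x = S.E s (K s) (one (ρ x) * G + F (ρ x)) x := by
      refine S.E_local s (K s) x (fun y hy => ?_)
      have h2 := F1 s hs x y hy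
      simp only [Pi.add_apply, Pi.mul_apply, hone, ← h2, if_true, one_mul]
    rw [h1, hF2 (ρ x) s hs]
  · intro x
    set c := ρ x with hc
    set Y : Finset X := univ.filter (fun y => ρ y = c) with hY
    have hxY : x ∈ Y := mem_filter.2 ⟨mem_univ _, rfl⟩
    have hYpos : (0 : ℝ) < Y.card := by
      exact_mod_cast Finset.card_pos.2 ⟨x, hxY⟩
    have hconst : ∀ (h : X → ℝ) y, ρ y = c → S.EU V K h y = S.EU V K h x := by
      intro h y hy
      rw [← hρ1 y h, hy, hc, hρ1 x h]
    have avg : ∀ h : X → ℝ, (Y.card : ℝ) * S.EU V K h x = ∑ y ∈ Y, h y := by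
      intro h
      calc (Y.card : ℝ) * S.EU V K h x = ∑ y ∈ Y, S.EU V K h y := by
            rw [Finset.sum_congr rfl (fun y hy => hconst h y (mem_filter.1 hy).2),
              Finset.sum_const, nsmul_eq_mul]
        _ = ∑ y, (one c * S.EU V K h) y := by
            rw [hY, Finset.sum_filter]
            refine Finset.sum_congr rfl fun y _ => ?_
            simp only [hone, Pi.mul_apply, ite_mul, one_mul, zero_mul]
        _ = ∑ y, S.EU V K (one c * h) y := by rw [F3]
        _ = ∑ y, (one c * h) y := S.EU_sum K _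
        _ = ∑ y ∈ Y, h y := by
            rw [hY, Finset.sum_filter]
            refine Finset.sum_congr rfl fun y _ => ?_
            simp only [hone, Pi.mul_apply, ite_mul, one_mul, zero_mul]
    have e1 : (Y.card : ℝ) * S.EU V K ((fun x => F (ρ x) x) * fun x => F (ρ x) x) x ≤
        nsq (F c) := by
      rw [avg]
      unfold nsq
      calc ∑ y ∈ Y, ((fun x => F (ρ x) x) * fun x => F (ρ x) x) y = ∑ y ∈ Y, F c y ^ 2 := by
            refine Finset.sum_congr rfl fun y hy => ?_
            simp only [Pi.mul_apply]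
            rw [(mem_filter.1 hy).2, sq]
        _ ≤ ∑ y, F c y ^ 2 :=
            Finset.sum_le_sum_of_subset_of_nonneg (Finset.subset_univ _)
              (fun _ _ _ => sq_nonneg _)
    have e2 : ∀ s ∈ V, nsq (S.E s (K s) (one c * G)) =
        (Y.card : ℝ) * S.EU V K (S.E s (K s) G * S.E s (K s) G) x := by
      intro s hs
      rw [avg, F2 s hs]
      unfold nsq
      rw [hY, Finset.sum_filter]
      refine Finset.sum_congr rfl fun y _ => ?_
      simp only [hone, Pi.mul_apply]
      split_ifs <;> ring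
    have e3 := hF3 c
    rw [Finset.sum_congr rfl e2, ← Finset.mul_sum] at e3
    have e4 : (Y.card : ℝ) * S.EU V K ((fun x => F (ρ x) x) * fun x => F (ρ x) x) x ≤
        (Y.card : ℝ) * (4 * 2 ^ V.card *
          ∑ s ∈ V, S.EU V K (S.E s (K s) G * S.E s (K s) G) x) := by
      refine (e1.trans e3).trans (le_of_eq ?_)
      ring
    exact le_of_mul_le_mul_left e4 hYpos

end Pool.Agent.H714R3.BD
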