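import Mathlib

set_option autoImplicit false

namespace Pool.Agent.H714R3.BD

open Finset

lemma layer_low (s a : ℝ) (hs : 0 < s) (M : ℕ) :
    min a (s * 2 ^ M) ≤ s + ∑ j ∈ range M, (if s * 2 ^ j < a then s * 2 ^ j else 0) := by
  induction M with
  | zero => simp
  | succ M ih =>
    rw [sum_range_succ]
    have hp : 0 < s * 2 ^ M := by positivity
    by_cases hc : s * 2 ^ M < a
    · rw [if_pos hc]
      rw [min_eq_right hc.le] at ih
      have : min a (s * 2 ^ (M + 1)) ≤ s * 2 ^ (M + 1) := min_le_right _ _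
      have e : s * 2 ^ (M + 1) = s * 2 ^ M + s * 2 ^ M := by ring
      linarith
    · rw [if_neg hc]
      rw [min_eq_left (not_lt.mp hc)] at ih
      have : min a (s * 2 ^ (M + 1)) ≤ a := min_le_left _ _
      linarith

lemma layer_ind (s b : ℝ) (hs : 0 < s) (hb : 0 ≤ b) (M : ℕ) :
    ∑ j ∈ range M, (s * 2 ^ j) * (if s * 2 ^ j < b then (1 : ℝ) else 0) ≤
      min (2 * b) (s * 2 ^ M) := by
  induction M with
  | zero =>
    simp only [range_zero, sum_empty, pow_zero, mul_one]
    exact le_min (by linarith) hs.le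
  | succ M ih =>
    rw [sum_range_succ]
    have hp : 0 < s * 2 ^ M := by positivity
    have e : s * 2 ^ (M + 1) = s * 2 ^ M + s * 2 ^ M := by ring
    have i1 := ih.trans (min_le_left _ _)
    have i2 := ih.trans (min_le_right _ _)
    by_cases hc : s * 2 ^ M < b
    · rw [if_pos hc, e]
      refine le_min ?_ ?_ <;> linarith
    · rw [if_neg hc, e]
      refine le_min ?_ ?_ <;> linarith

lemma layer_sq (s b : ℝ) (hs : 0 < s) (hb : 0 ≤ b) (M : ℕ) :
    (∑ j ∈ range M, (s * 2 ^ j) * (min (b ^ 2) ((s * 2 ^ j) ^ 2) / (s * 2 ^ j) ^ 2) ≤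
      s * 2 ^ M) ∧ (b ≤ s * 2 ^ M →
    ∑ j ∈ range M, (s * 2 ^ j) * (min (b ^ 2) ((s * 2 ^ j) ^ 2) / (s * 2 ^ j) ^ 2) ≤
      4 * b - 2 * b ^ 2 / (s * 2 ^ M)) := by
  induction M with
  | zero =>
    refine ⟨by simp [hs.le], fun h => ?_⟩
    simp only [range_zero, sum_empty, pow_zero, mul_one] at *
    have : 2 * b ^ 2 / s ≤ 2 * b := by
      rw [div_le_iff₀ hs]; nlinarith
    linarith
  | succ M ih =>
    rw [sum_range_succ]
    set t := s * 2 ^ M with ht
    have hp : 0 < t := by rw [ht]; positivity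
    have e : s * 2 ^ (M + 1) = 2 * t := by rw [ht]; ring
    rw [e]
    set S := ∑ j ∈ range M, (s * 2 ^ j) * (min (b ^ 2) ((s * 2 ^ j) ^ 2) / (s * 2 ^ j) ^ 2)
    have m1 : t * (min (b ^ 2) (t ^ 2) / t ^ 2) ≤ t := by
      have : min (b ^ 2) (t ^ 2) / t ^ 2 ≤ 1 := by
        rw [div_le_one (by positivity)]; exact min_le_right _ _
      nlinarith
    have m2 : t * (min (b ^ 2) (t ^ 2) / t ^ 2) ≤ b ^ 2 / t := by
      have : min (b ^ 2) (t ^ 2) / t ^ 2 ≤ b ^ 2 / t ^ 2 := by
        gcongr; exact min_le_left _ _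
      calc t * (min (b ^ 2) (t ^ 2) / t ^ 2) ≤ t * (b ^ 2 / t ^ 2) := by gcongr
        _ = b ^ 2 / t := by field_simp
    refine ⟨by linarith [ih.1], fun h => ?_⟩
    have e2 : 2 * b ^ 2 / (2 * t) = b ^ 2 / t := by field_simp
    rw [e2]
    by_cases hc : b ≤ t
    · have i2 := ih.2 hc
      have e3 : 2 * b ^ 2 / t = b ^ 2 / t + b ^ 2 / t := by ring
      rw [e3] at i2
      linarith
    · push Not at hc
      have i1 := ih.1
      have : t + t ≤ 4 * b - b ^ 2 / t := by
        have h1 : b ^ 2 / t ≤ 2 * b := by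
          rw [div_le_iff₀ hp]; nlinarith
        linarith
      linarith

lemma layer_sq' (s b : ℝ) (hs : 0 < s) (hb : 0 ≤ b) (M : ℕ) :
    ∑ j ∈ range M, (s * 2 ^ j) * (min (b ^ 2) ((s * 2 ^ j) ^ 2) / (s * 2 ^ j) ^ 2) ≤ 4 * b := by
  have hp : 0 < s * 2 ^ M := by positivity
  by_cases h : b ≤ s * 2 ^ M
  · have := (layer_sq s b hs hb M).2 h
    have : 0 ≤ 2 * b ^ 2 / (s * 2 ^ M) := by positivity
    linarith
  · have := (layer_sq s b hs hb M).1
    push Not at h
    linarith

/-- A6 (file Layer.lean): integration of a distributional inequality. -/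
theorem layer {X : Type} [Fintype X] (F f : X → ℝ) (hF : ∀ x, 0 ≤ F x) (C : ℝ) (hC : 0 ≤ C)
    (h : ∀ t : ℝ, 0 < t → ((univ.filter (fun x => t < F x)).card : ℝ) ≤
      C * ∑ x, ((if t < |f x| then (1 : ℝ) else 0) + min (f x ^ 2) (t ^ 2) / t ^ 2)) :
    ∑ x, F x ≤ 16 * C * ∑ x, |f x| := by
  have key : ∑ x, F x ≤ 6 * C * ∑ x, |f x| := by
    refine le_of_forall_pos_le_add fun ε hε => ?_
    set s : ℝ := ε / (Fintype.card X + 1) with hs
    have hs0 : 0 < s := by positivity
    obtain ⟨M, hM⟩ : ∃ M : ℕ, (∑ x, F x) / s < 2 ^ M :=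
      pow_unbounded_of_one_lt _ (by norm_num)
    have hM' : ∑ x, F x ≤ s * 2 ^ M := by
      rw [div_lt_iff₀ hs0] at hM
      linarith
    have hle : ∀ x, F x ≤ s * 2 ^ M := fun x =>
      (single_le_sum (fun i _ => hF i) (mem_univ x)).trans hM'
    have h1 : ∀ x, F x ≤ s + ∑ j ∈ range M, (if s * 2 ^ j < F x then s * 2 ^ j else 0) := by
      intro x
      have := layer_low s (F x) hs0 M
      rwa [min_eq_left (hle x)] at this
    have h2 : ∑ x, F x ≤ Fintype.card X * s +
        ∑ j ∈ range M, (s * 2 ^ j) * ((univ.filter (fun x => s * 2 ^ j < F x)).card : ℝ) := by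
      refine (sum_le_sum fun x _ => h1 x).trans (le_of_eq ?_)
      rw [sum_add_distrib, sum_const, card_univ, nsmul_eq_mul, sum_comm]
      congr 1
      refine sum_congr rfl fun j _ => ?_
      rw [← sum_filter, sum_const, nsmul_eq_mul, mul_comm]
    have h3 : ∑ j ∈ range M, (s * 2 ^ j) * ((univ.filter (fun x => s * 2 ^ j < F x)).card : ℝ) ≤
        C * ∑ x, 6 * |f x| := by
      calc ∑ j ∈ range M, (s * 2 ^ j) * ((univ.filter (fun x => s * 2 ^ j < F x)).card : ℝ)
          ≤ ∑ j ∈ range M, (s * 2 ^ j) * (C * ∑ x, ((if s * 2 ^ j < |f x| then (1 : ℝ) else 0) +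
            min (f x ^ 2) ((s * 2 ^ j) ^ 2) / (s * 2 ^ j) ^ 2)) := by
            refine sum_le_sum fun j _ => ?_
            have hp : 0 < s * 2 ^ j := by positivity
            exact mul_le_mul_of_nonneg_left (h _ hp) hp.le
        _ = C * ∑ x, (∑ j ∈ range M, (s * 2 ^ j) * (if s * 2 ^ j < |f x| then (1 : ℝ) else 0) +
            ∑ j ∈ range M, (s * 2 ^ j) * (min (|f x| ^ 2) ((s * 2 ^ j) ^ 2) / (s * 2 ^ j) ^ 2)) := by
            simp only [sq_abs]
            simp only [← sum_add_distrib, ← mul_add]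
            rw [sum_comm, mul_sum]
            refine sum_congr rfl fun j _ => ?_
            rw [← mul_sum]
            ring
        _ ≤ C * ∑ x, 6 * |f x| := by
            refine mul_le_mul_of_nonneg_left (sum_le_sum fun x _ => ?_) hC
            have a1 := (layer_ind s |f x| hs0 (abs_nonneg _) M).trans (min_le_left _ _)
            have a2 := layer_sq' s |f x| hs0 (abs_nonneg _) M
            linarith
    have h4 : (Fintype.card X : ℝ) * s ≤ ε := by
      rw [hs]
      rw [mul_div_assoc', div_le_iff₀ (by positivity)]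
      nlinarith
    rw [← mul_sum] at h3
    linarith
  have h0 : 0 ≤ C * ∑ x, |f x| := mul_nonneg hC (sum_nonneg fun _ _ => abs_nonneg _)
  nlinarith

end Pool.Agent.H714R3.BD
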