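import Pool.Agent.H714R3.BD.Alg

set_option autoImplicit false

namespace Pool.Agent.H714R3.BD

open Finset BernT Matrix

variable {d M : ℕ}

/-! B4 (file Multi.lean): iteration over the coordinates -/

theorem Multi_act_zero (s : Fin d) (A : Mx M) : act s A (0 : GF d M) = 0 := by
  funext x
  simp [act]

theorem Multi_act_sum {ι : Type} (s : Fin d) (A : Mx M) (P : Finset ι) (f : ι → GF d M) :
    act s A (∑ i ∈ P, f i) = ∑ i ∈ P, act s A (f i) := by
  rw [act_eq_tens, tens_sum]
  exact Finset.sum_congr rfl fun i _ => (act_eq_tens s A (f i)).symm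

theorem Multi_tens_zero (A : Fin d → Mx M) : tens A (0 : GF d M) = 0 := by
  funext x
  simp [tens]

/-- one more coordinate -/
theorem Multi_insert (T : Fin d → ℕ → Mx M) (U : Finset (Fin d)) (s : Fin d) (hs : s ∉ U)
    (a : Fin d → ℕ) (g : GF d M) :
    tens (fun t => if t ∈ insert s U then T t (a t) else 1) g =
      act s (T s (a s)) (tens (fun t => if t ∈ U then T t (a t) else 1) g) := by
  rw [tens_split _ s]
  have h1 : Function.update (fun t => if t ∈ insert s U then T t (a t) else (1 : Mx M)) s 1 =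
      fun t => if t ∈ U then T t (a t) else 1 := by
    funext t
    by_cases ht : t = s
    · subst ht
      rw [Function.update_self, if_neg hs]
    · rw [Function.update_of_ne ht]
      by_cases hU : t ∈ U
      · rw [if_pos (Finset.mem_insert_of_mem hU), if_pos hU]
      · rw [if_neg hU, if_neg]
        intro h
        rcases Finset.mem_insert.1 h with h | h
        · exact ht h
        · exact hU h
  rw [h1, if_pos (Finset.mem_insert_self s U)]

/-- operators in other coordinates commute -/
theorem Multi_comm (U : Finset (Fin d)) (A : Fin d → Mx M) (s : Fin d) (hs : s ∉ U) (D : Mx M)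
    (g : GF d M) :
    act s D (tens (fun t => if t ∈ U then A t else 1) g) =
      tens (fun t => if t ∈ U then A t else 1) (act s D g) := by
  rw [act_eq_tens s D, tens_mul, act_eq_tens s D, tens_mul]
  congr 1
  funext t
  by_cases ht : t = s
  · subst ht
    rw [Function.update_self, if_neg hs, mul_one, one_mul]
  · rw [Function.update_of_ne ht, mul_one, one_mul]

/-- B4a: family version -/
theorem multi_fam (T : Fin d → ℕ → Mx M) (c : Fin d → ℝ) (hc : ∀ s, 0 ≤ c s)
    (hT : ∀ (s : Fin d) (ι : Type) [Fintype ι] (F : ι → ℕ → GF d M),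
      (∀ i a, act s (Dm M a) (F i a) = F i a) →
      ∑ x, Real.sqrt (∑ i, ∑ a ∈ range M, ‖act s (T s a) (F i a) x‖ ^ 2) ≤
        c s * ∑ x, Real.sqrt (∑ i, ∑ a ∈ range M, ‖F i a x‖ ^ 2))
    (U : Finset (Fin d)) (P : Finset (Fin d → ℕ)) (hP : ∀ a ∈ P, ∀ s, a s < M)
    (G : (Fin d → ℕ) → GF d M) (hG : ∀ a s, act s (Dm M (a s)) (G a) = G a) :
    ∑ x, Real.sqrt (∑ a ∈ P, ‖tens (fun s => if s ∈ U then T s (a s) else 1) (G a) x‖ ^ 2) ≤
      (∏ s ∈ U, c s) * ∑ x, Real.sqrt (∑ a ∈ P, ‖G a x‖ ^ 2) := by
  induction U using Finset.induction_on with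
  | empty =>
    rw [Finset.prod_empty, one_mul]
    refine le_of_eq (Finset.sum_congr rfl fun x _ => ?_)
    congr 1
    refine Finset.sum_congr rfl fun a _ => ?_
    have h1 : (fun s => if s ∈ (∅ : Finset (Fin d)) then T s (a s) else (1 : Mx M)) = fun _ => 1 := by
      funext s
      rw [if_neg (Finset.notMem_empty s)]
    rw [h1, tens_one]
  | insert s U hs ih =>
    rw [Finset.prod_insert hs, mul_assoc]
    refine le_trans ?_ (mul_le_mul_of_nonneg_left ih (hc s))
    have key := hT s {a // a ∈ P}
      (fun i a' => if a' = i.1 s then tens (fun t => if t ∈ U then T t (i.1 t) else 1) (G i.1) else 0)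
      (by
        intro i a'
        split_ifs with h
        · rw [Multi_comm U (fun t => T t (i.1 t)) s hs, h, hG]
        · exact Multi_act_zero _ _)
    have e1 : ∀ x, ∑ i : {a // a ∈ P}, ∑ a' ∈ range M, ‖act s (T s a')
        (if a' = i.1 s then tens (fun t => if t ∈ U then T t (i.1 t) else 1) (G i.1) else 0) x‖ ^ 2 =
        ∑ a ∈ P, ‖tens (fun t => if t ∈ insert s U then T t (a t) else 1) (G a) x‖ ^ 2 := by
      intro x
      rw [← Finset.sum_coe_sort P
        (fun a => ‖tens (fun t => if t ∈ insert s U then T t (a t) else 1) (G a) x‖ ^ 2)]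
      refine Finset.sum_congr rfl fun i _ => ?_
      rw [Finset.sum_eq_single (i.1 s)]
      · rw [if_pos rfl, Multi_insert T U s hs]
      · intro b _ hb
        rw [if_neg hb, Multi_act_zero]
        simp
      · intro h
        exact absurd (Finset.mem_range.2 (hP _ i.2 s)) h
    have e2 : ∀ x, ∑ i : {a // a ∈ P}, ∑ a' ∈ range M, 
        ‖(if a' = i.1 s then tens (fun t => if t ∈ U then T t (i.1 t) else 1) (G i.1) else 0 : GF d M)
          x‖ ^ 2 =
        ∑ a ∈ P, ‖tens (fun t => if t ∈ U then T t (a t) else 1) (G a) x‖ ^ 2 := by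
      intro x
      rw [← Finset.sum_coe_sort P
        (fun a => ‖tens (fun t => if t ∈ U then T t (a t) else 1) (G a) x‖ ^ 2)]
      refine Finset.sum_congr rfl fun i _ => ?_
      rw [Finset.sum_eq_single (i.1 s)]
      · rw [if_pos rfl]
      · intro b _ hb
        rw [if_neg hb]
        simp
      · intro h
        exact absurd (Finset.mem_range.2 (hP _ i.2 s)) h
    simp only [e1, e2] at key
    exact key

/-- index sets -/
noncomputable def MultiB (M : ℕ) (U : Finset (Fin d)) : Finset (Fin d → ℕ) :=
  Fintype.piFinset (fun t => if t ∈ U then range M else {0})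

theorem mem_MultiB (U : Finset (Fin d)) (a : Fin d → ℕ) :
    a ∈ MultiB M U ↔ (∀ t ∈ U, a t < M) ∧ ∀ t, t ∉ U → a t = 0 := by
  unfold MultiB
  rw [Fintype.mem_piFinset]
  constructor
  · intro h
    refine ⟨fun t ht => ?_, fun t ht => ?_⟩
    · have := h t
      rw [if_pos ht, Finset.mem_range] at this
      exact this
    · have := h t
      rw [if_neg ht, Finset.mem_singleton] at this
      exact this
  · rintro ⟨h1, h2⟩ t
    by_cases ht : t ∈ U
    · rw [if_pos ht, Finset.mem_range]
      exact h1 t ht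
    · rw [if_neg ht, Finset.mem_singleton]
      exact h2 t ht

theorem MultiB_sum {A : Type} [AddCommMonoid A] (U : Finset (Fin d)) (s : Fin d) (hs : s ∉ U)
    (φ : (Fin d → ℕ) → A) :
    ∑ a ∈ MultiB M (insert s U), φ a =
      ∑ b ∈ MultiB M U, ∑ a' ∈ range M, φ (Function.update b s a') := by
  rw [← Finset.sum_product']
  symm
  refine Finset.sum_bij' (fun p _ => Function.update p.1 s p.2)
    (fun a _ => (Function.update a s 0, a s)) ?_ ?_ ?_ ?_ ?_
  · rintro ⟨b, a'⟩ hp
    rw [Finset.mem_product, mem_MultiB, Finset.mem_range] at hp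
    obtain ⟨⟨h1, h2⟩, h3⟩ := hp
    rw [mem_MultiB]
    refine ⟨fun t ht => ?_, fun t ht => ?_⟩
    · by_cases hts : t = s
      · subst hts
        simpa using h3
      · simp only [Function.update_of_ne hts]
        exact h1 t (Finset.mem_of_mem_insert_of_ne ht hts)
    · have hts : t ≠ s := by
        rintro rfl
        exact ht (Finset.mem_insert_self _ _)
      simp only [Function.update_of_ne hts]
      exact h2 t (fun h => ht (Finset.mem_insert_of_mem h))
  · intro a ha
    rw [mem_MultiB] at ha
    obtain ⟨h1, h2⟩ := ha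
    rw [Finset.mem_product, mem_MultiB, Finset.mem_range]
    refine ⟨⟨fun t ht => ?_, fun t ht => ?_⟩, h1 s (Finset.mem_insert_self _ _)⟩
    · have hts : t ≠ s := by
        rintro rfl
        exact hs ht
      simp only [Function.update_of_ne hts]
      exact h1 t (Finset.mem_insert_of_mem ht)
    · by_cases hts : t = s
      · subst hts
        simp
      · simp only [Function.update_of_ne hts]
        exact h2 t (fun h => ht (Finset.mem_of_mem_insert_of_ne h hts))
  · rintro ⟨b, a'⟩ hp
    rw [Finset.mem_product, mem_MultiB, Finset.mem_range] at hp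
    obtain ⟨⟨h1, h2⟩, h3⟩ := hp
    simp only [Function.update_idem, Function.update_self]
    rw [← h2 s hs, Function.update_eq_self]
  · intro a ha
    simp
  · intro a ha
    rfl

theorem multi_sum_aux (T : Fin d → ℕ → Mx M) (c : Fin d → ℝ) (hc : ∀ s, 0 ≤ c s)
    (hT : ∀ (s : Fin d) (ι : Type) [Fintype ι] (F : ι → ℕ → GF d M),
      (∀ i a, act s (Dm M a) (F i a) = F i a) →
      ∑ x, Real.sqrt (∑ i, ‖∑ a ∈ range M, act s (T s a) (F i a) x‖ ^ 2) ≤
        c s * ∑ x, Real.sqrt (∑ i, ∑ a ∈ range M, ‖F i a x‖ ^ 2))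
    (U : Finset (Fin d)) : ∀ (G : (Fin d → ℕ) → GF d M),
    (∀ a, ∀ s ∈ U, act s (Dm M (a s)) (G a) = G a) →
    ∑ x, ‖∑ a ∈ MultiB M U, tens (fun s => if s ∈ U then T s (a s) else 1) (G a) x‖ ≤
      (∏ s ∈ U, c s) * ∑ x, Real.sqrt (∑ a ∈ MultiB M U, ‖G a x‖ ^ 2) := by
  induction U using Finset.induction_on with
  | empty =>
    intro G _
    rw [Finset.prod_empty, one_mul]
    refine le_of_eq (Finset.sum_congr rfl fun x _ => ?_)
    have hB : MultiB M (∅ : Finset (Fin d)) = {0} := by
      ext a
      rw [mem_MultiB, Finset.mem_singleton]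
      constructor
      · rintro ⟨_, h⟩
        funext t
        exact h t (Finset.notMem_empty t)
      · rintro rfl
        exact ⟨fun t ht => absurd ht (Finset.notMem_empty t), fun _ _ => rfl⟩
    rw [hB, Finset.sum_singleton, Finset.sum_singleton, Real.sqrt_sq (norm_nonneg _)]
    have h1 : (fun s => if s ∈ (∅ : Finset (Fin d)) then T s ((0 : Fin d → ℕ) s) else (1 : Mx M)) =
        fun _ => 1 := by
      funext s
      rw [if_neg (Finset.notMem_empty s)]
    rw [h1, tens_one]
  | insert s U hs ih =>
    intro G hG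
    rw [Finset.prod_insert hs, mul_comm (c s), mul_assoc]
    have hss : s ∈ insert s U := Finset.mem_insert_self s U
    have h1 := ih (fun b => ∑ a' ∈ range M, act s (T s a') (G (Function.update b s a'))) (by
      intro b t ht
      have hts : t ≠ s := by
        rintro rfl
        exact hs ht
      rw [Multi_act_sum]
      refine Finset.sum_congr rfl fun a' _ => ?_
      rw [act_comm hts]
      have h2 := hG (Function.update b s a') t (Finset.mem_insert_of_mem ht)
      rw [Function.update_of_ne hts] at h2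
      rw [h2])
    have key := hT s {b // b ∈ MultiB M U} (fun i a' => G (Function.update i.1 s a')) (by
      intro i a'
      have h2 := hG (Function.update i.1 s a') s hss
      rw [Function.update_self] at h2
      exact h2)
    have e1 : ∀ x, ∑ i : {b // b ∈ MultiB M U}, ∑ a' ∈ range M,
        ‖G (Function.update i.1 s a') x‖ ^ 2 = ∑ a ∈ MultiB M (insert s U), ‖G a x‖ ^ 2 := by
      intro x
      rw [MultiB_sum U s hs, ← Finset.sum_coe_sort (MultiB M U)]
    have e2 : ∀ x, ∑ i : {b // b ∈ MultiB M U}, ‖∑ a' ∈ range M,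
        act s (T s a') (G (Function.update i.1 s a')) x‖ ^ 2 = ∑ b ∈ MultiB M U,
        ‖(∑ a' ∈ range M, act s (T s a') (G (Function.update b s a'))) x‖ ^ 2 := by
      intro x
      rw [← Finset.sum_coe_sort (MultiB M U)]
      refine Finset.sum_congr rfl fun i _ => ?_
      rw [Finset.sum_apply]
    simp only [e1, e2] at key
    refine le_trans (le_of_eq ?_) (h1.trans (mul_le_mul_of_nonneg_left key
      (Finset.prod_nonneg fun t _ => hc t)))
    refine Finset.sum_congr rfl fun x _ => ?_
    congr 1
    rw [MultiB_sum U s hs]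
    refine Finset.sum_congr rfl fun b _ => ?_
    rw [tens_sum, Finset.sum_apply]
    refine Finset.sum_congr rfl fun a' _ => ?_
    rw [Multi_insert T U s hs, Function.update_self]
    have e3 : (fun t => if t ∈ U then T t (Function.update b s a' t) else (1 : Mx M)) =
        fun t => if t ∈ U then T t (b t) else 1 := by
      funext t
      by_cases ht : t ∈ U
      · have hts : t ≠ s := by
          rintro rfl
          exact hs ht
        rw [Function.update_of_ne hts]
      · rw [if_neg ht, if_neg ht]
    rw [e3, Multi_comm U (fun t => T t (b t)) s hs]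

/-- B4b: summed version -/
theorem multi_sum (T : Fin d → ℕ → Mx M) (c : Fin d → ℝ) (hc : ∀ s, 0 ≤ c s)
    (hT : ∀ (s : Fin d) (ι : Type) [Fintype ι] (F : ι → ℕ → GF d M),
      (∀ i a, act s (Dm M a) (F i a) = F i a) →
      ∑ x, Real.sqrt (∑ i, ‖∑ a ∈ range M, act s (T s a) (F i a) x‖ ^ 2) ≤
        c s * ∑ x, Real.sqrt (∑ i, ∑ a ∈ range M, ‖F i a x‖ ^ 2))
    (P : Finset (Fin d → ℕ)) (hP : ∀ a ∈ P, ∀ s, a s < M)
    (G : (Fin d → ℕ) → GF d M) (hG : ∀ a s, act s (Dm M (a s)) (G a) = G a) :
    ∑ x, ‖∑ a ∈ P, tens (fun s => T s (a s)) (G a) x‖ ≤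
      (∏ s, c s) * ∑ x, Real.sqrt (∑ a ∈ P, ‖G a x‖ ^ 2) := by
  classical
  have key := multi_sum_aux T c hc hT univ (fun a => if a ∈ P then G a else 0) (by
    intro a s _
    split_ifs
    · exact hG a s
    · exact Multi_act_zero _ _)
  have hsub : P ⊆ MultiB M univ := by
    intro a ha
    rw [mem_MultiB]
    exact ⟨fun t _ => hP a ha t, fun t ht => absurd (Finset.mem_univ t) ht⟩
  have e1 : ∀ x, ∑ a ∈ MultiB M univ, tens (fun s => if s ∈ univ then T s (a s) else 1)
      (if a ∈ P then G a else 0) x = ∑ a ∈ P, tens (fun s => T s (a s)) (G a) x := by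
    intro x
    symm
    rw [← Finset.sum_subset hsub]
    · refine Finset.sum_congr rfl fun a ha => ?_
      rw [if_pos ha]
      congr 1
      funext s
      rw [if_pos (Finset.mem_univ s)]
    · intro a _ ha
      rw [if_neg ha, Multi_tens_zero]
      rfl
  have e2 : ∀ x, ∑ a ∈ MultiB M univ, ‖(if a ∈ P then G a else 0 : GF d M) x‖ ^ 2 =
      ∑ a ∈ P, ‖G a x‖ ^ 2 := by
    intro x
    symm
    rw [← Finset.sum_subset hsub]
    · refine Finset.sum_congr rfl fun a ha => ?_
      rw [if_pos ha]
    · intro a _ ha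
      rw [if_neg ha]
      simp
  simp only [e1, e2] at key
  exact key

end Pool.Agent.H714R3.BD
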