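import Pool.Agent.H714R3.BD.GDefs

set_option autoImplicit false

namespace Pool.Agent.H714R3.BD

open Finset MeasureTheory

/-- the trigonometric polynomial `∑_{k ∈ S} c k e^{i (k, x)}` -/
noncomputable def Pd {d : ℕ} (S : Finset (Fin d → ℤ)) (c : (Fin d → ℤ) → ℂ) (x : Fin d → ℝ) : ℂ :=
  ∑ k ∈ S, c k * Complex.exp (Complex.I * ∑ s, ((k s : ℂ) * (x s : ℂ)))

/-- normalised `L¹` norm on `[0, 2π]^d` -/
noncomputable def nrmd {d : ℕ} (F : (Fin d → ℝ) → ℂ) : ℝ :=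
  (1 / (2 * Real.pi) ^ d) * ∫ x in Set.Icc (0 : Fin d → ℝ) (fun _ => 2 * Real.pi), ‖F x‖

end Pool.Agent.H714R3.BD
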