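import Pool.Agent.H714R3.BD.ADefs

set_option autoImplicit false

namespace Pool.Agent.H714R3.BD

open Finset Pool.Agent.H730R2.LD

variable {d R : ℕ} {X : Type} [Fintype X] (S : Sys d R X)

/-- A5 (file Top.lean): at a top level, a balanced function sees only the Haar coefficient. -/
theorem top_identity (n : ℕ) (f : X → ℝ) (hf : HSpec S n f) (K : Fin d → ℕ) (hK : ∀ s, K s < R)
    (hKn : ∑ s, K s = n) (W : X → ℝ) (hW : ∀ s, S.E s (K s) W = 0) :
    S.EU univ K (f * W) = co S K f * S.EU univ K (S.chi univ K * W) := by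
  sorry

/-- A5' (file Top.lean): `cut` kills functions that are measurable in one coordinate. -/
theorem cut_eq_zero {U : Finset (Fin d)} {K : Fin d → ℕ} {s : Fin d} (hs : s ∈ U) {h : X → ℝ}
    (hh : S.E s (K s) h = h) : cut S U K h = 0 := by
  sorry

end Pool.Agent.H714R3.BD
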