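import Pool.Agent.H714R3.BD.LMain
import Pool.Agent.H714R3.BD.Top
import Pool.Agent.H714R3.BD.Layer

set_option autoImplicit false

namespace Pool.Agent.H714R3.BD

open Finset Pool.Agent.H730R2.LD

/-- A7 (file Tlt.lean): the multi-parameter Lépingle type inequality at the top level. -/
theorem tlt (d : ℕ) (hd : 1 ≤ d) :
    ∃ C : ℝ, 0 < C ∧ ∀ (R : ℕ) (X : Type) [Fintype X] (S : Sys d R X) (n : ℕ) (f : X → ℝ),
      HSpec S n f → ∑ x, SQ S n f x ≤ C * ∑ x, |f x| := by
  classical
  obtain ⟨C0, hC0, hmain⟩ := loc_main d hd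
  refine ⟨16 * (5 * C0), by linarith, ?_⟩
  intro R X _ S n f hf
  apply layer (SQ S n f) f (fun x => Real.sqrt_nonneg _) (5 * C0) (by linarith)
  intro t ht
  set B : Finset X := univ.filter (fun x => t < |f x|) with hB
  obtain ⟨B', W, hcard, hbal, hlow, hpair⟩ := hmain R X S B
  have ht2 : 0 < t ^ 2 := by positivity
  -- the pairing bound
  have hp := hpair f t (fun x hx => by
    have : ¬ t < |f x| := fun h => hx (by rw [hB, mem_filter]; exact ⟨mem_univ x, h⟩)
    exact not_lt.mp this)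
  -- coefficient bound off `B'`
  have hco : ∀ K ∈ LevN d R n, ∀ x, x ∉ B' →
      (co S K f x) ^ 2 ≤ 4 * (S.EU univ K (f * W K) x) ^ 2 := by
    intro K hK x hx
    obtain ⟨hK1, hK2⟩ := mem_LevN.mp hK
    have h1 := congrFun (top_identity S n f hf K hK1 hK2 (W K) (hbal K hK1)) x
    have h2 := hlow K hK1 x hx
    rw [Pi.mul_apply] at h1
    rw [h1, mul_pow]
    have h3 : (1 : ℝ) ≤ 4 * (S.EU univ K (S.chi univ K * W K) x) ^ 2 := by nlinarith
    nlinarith [sq_nonneg (co S K f x)]
  have hsub : LevN d R n ⊆ Lev d R univ := by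
    unfold LevN
    exact filter_subset _ _
  -- counting
  have hcount : ((univ.filter (fun x => t < SQ S n f x)).card : ℝ) ≤ B'.card +
      ((univ.filter (fun x => x ∉ B' ∧ t < SQ S n f x)).card : ℝ) := by
    have : univ.filter (fun x => t < SQ S n f x) ⊆
        B' ∪ univ.filter (fun x => x ∉ B' ∧ t < SQ S n f x) := by
      intro x hx
      rw [mem_filter] at hx
      rw [mem_union, mem_filter]
      by_cases h : x ∈ B'
      · exact Or.inl h
      · exact Or.inr ⟨mem_univ x, h, hx.2⟩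
    have h2 := (card_le_card this).trans (card_union_le _ _)
    exact_mod_cast h2
  have hcheb : t ^ 2 * ((univ.filter (fun x => x ∉ B' ∧ t < SQ S n f x)).card : ℝ) ≤
      4 * ∑ K ∈ Lev d R univ, nsq (S.EU univ K (f * W K)) := by
    calc t ^ 2 * ((univ.filter (fun x => x ∉ B' ∧ t < SQ S n f x)).card : ℝ)
        = ∑ x ∈ univ.filter (fun x => x ∉ B' ∧ t < SQ S n f x), t ^ 2 := by
          rw [sum_const, nsmul_eq_mul, mul_comm]
      _ ≤ ∑ x ∈ univ.filter (fun x => x ∉ B' ∧ t < SQ S n f x),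
            4 * ∑ K ∈ Lev d R univ, (S.EU univ K (f * W K) x) ^ 2 := by
          apply sum_le_sum
          intro x hx
          rw [mem_filter] at hx
          obtain ⟨-, hx1, hx2⟩ := hx
          have h1 : t ^ 2 ≤ (SQ S n f x) ^ 2 := by
            apply pow_le_pow_left₀ ht.le hx2.le
          have h2 : (SQ S n f x) ^ 2 = ∑ K ∈ LevN d R n, (co S K f x) ^ 2 := by
            unfold SQ
            rw [Real.sq_sqrt (sum_nonneg fun K _ => sq_nonneg _)]
          calc t ^ 2 ≤ ∑ K ∈ LevN d R n, (co S K f x) ^ 2 := h1.trans h2.le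
            _ ≤ ∑ K ∈ LevN d R n, 4 * (S.EU univ K (f * W K) x) ^ 2 :=
                sum_le_sum fun K hK => hco K hK x hx1
            _ ≤ ∑ K ∈ Lev d R univ, 4 * (S.EU univ K (f * W K) x) ^ 2 :=
                sum_le_sum_of_subset_of_nonneg hsub fun K _ _ => by positivity
            _ = 4 * ∑ K ∈ Lev d R univ, (S.EU univ K (f * W K) x) ^ 2 := by rw [mul_sum]
      _ ≤ ∑ x, 4 * ∑ K ∈ Lev d R univ, (S.EU univ K (f * W K) x) ^ 2 :=
          sum_le_sum_of_subset_of_nonneg (filter_subset _ _) fun x _ _ =>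
            mul_nonneg (by norm_num) (sum_nonneg fun K _ => sq_nonneg _)
      _ = 4 * ∑ K ∈ Lev d R univ, nsq (S.EU univ K (f * W K)) := by
          rw [← mul_sum, sum_comm]
          rfl
  -- `B` as a sum
  have hBc : (B.card : ℝ) = ∑ x, (if t < |f x| then (1 : ℝ) else 0) := by
    rw [hB, card_filter]
    push_cast
    rfl
  have hn : nsq (f * (1 - ind B)) ≤ ∑ x, min (f x ^ 2) (t ^ 2) := by
    unfold nsq
    apply sum_le_sum
    intro x _
    rw [Pi.mul_apply, Pi.sub_apply, Pi.one_apply]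
    by_cases h : t < |f x|
    · rw [ind_mem (by rw [hB, mem_filter]; exact ⟨mem_univ x, h⟩)]
      simp only [sub_self, mul_zero]
      rw [zero_pow two_ne_zero]
      positivity
    · rw [ind_notMem (by rw [hB, mem_filter]; exact fun h' => h h'.2), sub_zero, mul_one]
      apply le_min le_rfl
      rw [← sq_abs]
      exact pow_le_pow_left₀ (abs_nonneg _) (not_lt.mp h) 2
  set A : ℝ := ∑ x, (if t < |f x| then (1 : ℝ) else 0) with hA
  set D : ℝ := ∑ x, min (f x ^ 2) (t ^ 2) with hD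
  have hA0 : 0 ≤ A := by rw [← hBc]; positivity
  have hD0 : 0 ≤ D := sum_nonneg fun x _ => by positivity
  have hsum : ∑ x, ((if t < |f x| then (1 : ℝ) else 0) + min (f x ^ 2) (t ^ 2) / t ^ 2)
      = A + D / t ^ 2 := by
    rw [sum_add_distrib, hA, hD, sum_div]
  rw [hsum]
  rw [hBc] at hcard hp
  have h5 : t ^ 2 * ((univ.filter (fun x => x ∉ B' ∧ t < SQ S n f x)).card : ℝ)
      ≤ 4 * (C0 * (D + t ^ 2 * A)) := by
    refine hcheb.trans ?_
    have : C0 * (nsq (f * (1 - ind B)) + t ^ 2 * A) ≤ C0 * (D + t ^ 2 * A) := by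
      apply mul_le_mul_of_nonneg_left _ (by linarith)
      linarith
    linarith
  have h6 : ((univ.filter (fun x => x ∉ B' ∧ t < SQ S n f x)).card : ℝ)
      ≤ 4 * C0 * (D / t ^ 2) + 4 * C0 * A := by
    rw [← mul_le_mul_iff_right₀ ht2]
    refine h5.trans (le_of_eq ?_)
    field_simp
  have h7 : 0 ≤ D / t ^ 2 := by positivity
  nlinarith [mul_nonneg (by linarith : (0:ℝ) ≤ C0) h7]

end Pool.Agent.H714R3.BD
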