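import Pool.Agent.H714R3.BD.TDefs

set_option autoImplicit false

namespace Pool.Agent.H714R3.BD

open Finset MeasureTheory

variable {d : ℕ}

/-- B14d (file Torus2.lean): basic properties of the norm -/
theorem nrmd_nonneg (F : (Fin d → ℝ) → ℂ) : 0 ≤ nrmd F := by
  sorry

theorem nrmd_add_le (S S' : Finset (Fin d → ℤ)) (c c' : (Fin d → ℤ) → ℂ) :
    nrmd (fun x => Pd S c x + Pd S' c' x) ≤ nrmd (Pd S c) + nrmd (Pd S' c') := by
  sorry

/-- a nonzero polynomial has positive norm -/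
theorem nrmd_pos (S : Finset (Fin d → ℤ)) (c : (Fin d → ℤ) → ℂ) (h : ∃ k ∈ S, c k ≠ 0) :
    0 < nrmd (Pd S c) := by
  sorry

/-- a single exponential -/
theorem nrmd_single (k : Fin d → ℤ) (a : ℂ) : nrmd (Pd {k} (fun _ => a)) = ‖a‖ := by
  sorry

end Pool.Agent.H714R3.BD
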