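import Pool.Agent.H714R3.BD.TDefs

set_option autoImplicit false

namespace Pool.Agent.H714R3.BD

open Finset MeasureTheory
open scoped Pointwise

variable {d : ℕ}

private noncomputable def Torus1_b (d : ℕ) : Module.Basis (Fin d) ℝ (Fin d → ℝ) :=
  (Pi.basisFun ℝ (Fin d)).isUnitSMul (w := fun _ => 2 * Real.pi)
    (fun _ => IsUnit.mk0 _ (by positivity))

private theorem Torus1_repr (x : Fin d → ℝ) (i : Fin d) :
    (Torus1_b d).repr x i = (2 * Real.pi)⁻¹ * x i := by
  unfold Torus1_b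
  rw [Module.Basis.repr_isUnitSMul]
  simp [Units.smul_def]

private theorem Torus1_fd : ZSpan.fundamentalDomain (Torus1_b d) =
    Set.pi Set.univ (fun _ : Fin d => Set.Ico (0:ℝ) (2 * Real.pi)) := by
  ext x
  have h2 : (0:ℝ) < 2 * Real.pi := by positivity
  simp only [ZSpan.mem_fundamentalDomain, Torus1_repr, Set.mem_pi, Set.mem_univ, forall_true_left,
    Set.mem_Ico]
  refine forall_congr' fun i => and_congr ?_ ?_
  · constructor
    · intro h
      have := mul_nonneg h2.le h
      rwa [← mul_assoc, mul_inv_cancel₀ h2.ne', one_mul] at this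
    · intro h; positivity
  · rw [inv_mul_lt_iff₀ h2, mul_one]

private theorem Torus1_fd_ae : (ZSpan.fundamentalDomain (Torus1_b d) : Set (Fin d → ℝ)) =ᵐ[volume]
    Set.Icc (0 : Fin d → ℝ) (fun _ => 2 * Real.pi) := by
  rw [Torus1_fd]
  exact Measure.univ_pi_Ico_ae_eq_Icc (f := (0 : Fin d → ℝ)) (g := fun _ => 2 * Real.pi)

private theorem Torus1_fd2 (h : Fin d → ℝ) :
    IsAddFundamentalDomain (Submodule.span ℤ (Set.range (Torus1_b d))).toAddSubgroup
      (h +ᵥ ZSpan.fundamentalDomain (Torus1_b d)) (volume : Measure (Fin d → ℝ)) := by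
  have := (ZSpan.isAddFundamentalDomain' (Torus1_b d) volume).vadd_of_comm h
  exact this

private instance Torus1_ctb : Countable (Submodule.span ℤ (Set.range (Torus1_b d))).toAddSubgroup :=
  inferInstanceAs (Countable (Submodule.span ℤ (Set.range (Torus1_b d))))

private theorem Torus1_period (F : (Fin d → ℝ) → ℝ)
    (hF : ∀ (n : Fin d → ℤ) x, F (x + fun i => 2 * Real.pi * (n i : ℝ)) = F x) (h : Fin d → ℝ) :
    ∫ x in Set.Icc (0 : Fin d → ℝ) (fun _ => 2 * Real.pi), F (x + h) =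
      ∫ x in Set.Icc (0 : Fin d → ℝ) (fun _ => 2 * Real.pi), F x := by
  rw [← setIntegral_congr_set (Torus1_fd_ae (d := d)), ← setIntegral_congr_set (Torus1_fd_ae (d := d))]
  have h1 := (Torus1_fd2 h).setIntegral_eq (ZSpan.isAddFundamentalDomain' (Torus1_b d) volume)
    (f := F) (by
      rintro ⟨g, hg⟩ x
      have hg' : g ∈ Submodule.span ℤ (Set.range (Torus1_b d)) := hg
      rw [Submodule.mem_span_range_iff_exists_fun] at hg'
      obtain ⟨n, rfl⟩ := hg'
      show F ((∑ i, n i • (Torus1_b d) i) + x) = F x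
      rw [add_comm, ← hF n x]
      congr 2
      ext j
      rw [Finset.sum_apply, Finset.sum_eq_single j]
      · simp [Torus1_b, Module.Basis.isUnitSMul_apply]
        ring
      · intro i _ hij
        simp [Torus1_b, Module.Basis.isUnitSMul_apply, hij.symm]
      · simp)
  rw [← h1]
  have h2 := (measurePreserving_vadd h (volume : Measure (Fin d → ℝ))).setIntegral_image_emb
    (measurableEmbedding_const_vadd h) F (ZSpan.fundamentalDomain (Torus1_b d))
  have h3 : ((fun x => h +ᵥ x) '' (ZSpan.fundamentalDomain (Torus1_b d))) =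
    h +ᵥ ZSpan.fundamentalDomain (Torus1_b d) := rfl
  rw [h3] at h2
  rw [h2]
  refine integral_congr_ae (Filter.Eventually.of_forall fun x => ?_)
  show F (x + h) = F (h +ᵥ x)
  rw [vadd_eq_add, add_comm]

/-- translation of a trigonometric polynomial -/
theorem Pd_translate (S : Finset (Fin d → ℤ)) (c : (Fin d → ℤ) → ℂ) (h x : Fin d → ℝ) :
    Pd S c (x + h) =
      Pd S (fun k => c k * Complex.exp (Complex.I * ∑ s, ((k s : ℂ) * (h s : ℂ)))) x := by
  unfold Pd
  refine Finset.sum_congr rfl fun k _ => ?_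
  rw [mul_assoc, ← Complex.exp_add]
  congr 2
  rw [← mul_add, ← Finset.sum_add_distrib]
  congr 1
  refine Finset.sum_congr rfl fun s _ => ?_
  rw [Pi.add_apply, Complex.ofReal_add]
  ring

private theorem Torus1_cont (S : Finset (Fin d → ℤ)) (c : (Fin d → ℤ) → ℂ) : Continuous (Pd S c) := by
  unfold Pd
  fun_prop

private theorem Torus1_Pd_period (S : Finset (Fin d → ℤ)) (c : (Fin d → ℤ) → ℂ) (n : Fin d → ℤ)
    (x : Fin d → ℝ) : Pd S c (x + fun i => 2 * Real.pi * (n i : ℝ)) = Pd S c x := by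
  rw [Pd_translate]
  unfold Pd
  refine Finset.sum_congr rfl fun k _ => ?_
  have h1 : Complex.exp (Complex.I * ∑ s, ((k s : ℂ) * ((2 * Real.pi * (n s : ℝ) : ℝ) : ℂ))) = 1 := by
    rw [Complex.exp_eq_one_iff]
    refine ⟨∑ s, k s * n s, ?_⟩
    push_cast
    rw [Finset.mul_sum, Finset.sum_mul]
    refine Finset.sum_congr rfl fun s _ => ?_
    ring
  beta_reduce
  rw [h1, mul_one]

/-- B14a (file Torus1.lean): translation invariance. -/
theorem nrmd_translate (S : Finset (Fin d → ℤ)) (c : (Fin d → ℤ) → ℂ) (h : Fin d → ℝ) :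
    nrmd (fun x => Pd S c (x + h)) = nrmd (Pd S c) := by
  unfold nrmd
  congr 1
  exact Torus1_period (fun x => ‖Pd S c x‖) (fun n x => by rw [Torus1_Pd_period]) h

private theorem Torus1_tpd (M : ℕ) (S : Finset (Fin d → ℤ)) (c : (Fin d → ℤ) → ℂ) (θ : Fin d → ℝ)
    (x : Fin d → Fin (2 ^ M)) :
    tpd M S (fun k => c k * Complex.exp (Complex.I * ∑ s, ((k s : ℂ) * (θ s : ℂ)))) x =
      Pd S c (θ + fun s => 2 * Real.pi * ((x s : ℕ) : ℝ) / 2 ^ M) := by
  unfold tpd Pd
  refine Finset.sum_congr rfl fun k _ => ?_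
  rw [mul_assoc]
  congr 1
  have h1 : ∏ s, BernT.ex M (k s * ((x s : ℕ) : ℤ)) =
      Complex.exp (∑ s, 2 * Real.pi * Complex.I * (((k s * ((x s : ℕ) : ℤ) : ℤ)) : ℂ) / (2:ℂ)^M) := by
    rw [Complex.exp_sum]
    rfl
  rw [h1, ← Complex.exp_add]
  congr 1
  rw [Finset.mul_sum, Finset.mul_sum, ← Finset.sum_add_distrib]
  refine Finset.sum_congr rfl fun s _ => ?_
  rw [Pi.add_apply]
  push_cast
  ring

/-- B14c (file Torus1.lean): integrability of the averages -/
theorem L1d_integrable (M : ℕ) (S : Finset (Fin d → ℤ)) (c : (Fin d → ℤ) → ℂ) :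
    IntegrableOn (fun θ : Fin d → ℝ =>
      L1d (tpd M S (fun k => c k * Complex.exp (Complex.I * ∑ s, ((k s : ℂ) * (θ s : ℂ))))))
      (Set.Icc (0 : Fin d → ℝ) (fun _ => 2 * Real.pi)) := by
  apply Continuous.integrableOn_Icc
  unfold L1d
  refine continuous_finsetSum _ fun x _ => ?_
  simp only [Torus1_tpd]
  exact ((Torus1_cont S c).comp (continuous_id.add continuous_const)).norm

/-- B14b (file Torus1.lean): average over shifted grids. -/
theorem nrmd_avg (M : ℕ) (S : Finset (Fin d → ℤ)) (c : (Fin d → ℤ) → ℂ) :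
    nrmd (Pd S c) = (1 / (2 * Real.pi) ^ d) *
      ∫ θ in Set.Icc (0 : Fin d → ℝ) (fun _ => 2 * Real.pi), ((2 : ℝ) ^ (M * d))⁻¹ *
        L1d (tpd M S (fun k => c k * Complex.exp (Complex.I * ∑ s, ((k s : ℂ) * (θ s : ℂ))))) := by
  unfold nrmd
  congr 1
  rw [integral_const_mul]
  unfold L1d
  rw [integral_finsetSum]
  · have h1 : ∀ x ∈ (Finset.univ : Finset (Fin d → Fin (2 ^ M))),
        ∫ θ in Set.Icc (0 : Fin d → ℝ) (fun _ => 2 * Real.pi),
          ‖tpd M S (fun k => c k * Complex.exp (Complex.I * ∑ s, ((k s : ℂ) * (θ s : ℂ)))) x‖ =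
        ∫ θ in Set.Icc (0 : Fin d → ℝ) (fun _ => 2 * Real.pi), ‖Pd S c θ‖ := by
      intro x _
      simp only [Torus1_tpd]
      exact Torus1_period (fun x => ‖Pd S c x‖) (fun n x => by rw [Torus1_Pd_period]) _
    rw [Finset.sum_congr rfl h1, Finset.sum_const, Finset.card_univ, Fintype.card_fun,
      Fintype.card_fin, Fintype.card_fin, nsmul_eq_mul, ← mul_assoc]
    rw [pow_mul]
    push_cast
    rw [inv_mul_cancel₀ (by positivity), one_mul]
  · intro x _
    apply Continuous.integrableOn_Icc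
    simp only [Torus1_tpd]
    exact ((Torus1_cont S c).comp (continuous_id.add continuous_const)).norm

end Pool.Agent.H714R3.BD
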