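import Pool.Agent.H714R3.BD.Axes
import Pool.Agent.H714R3.BD.GridMain

set_option autoImplicit false

namespace Pool.Agent.H714R3.BD

open Finset MeasureTheory

/-- B16 (file TorusMain.lean): the `L¹` Bernstein inequality on the torus, away from the axes. -/
theorem torusd (d : ℕ) (hd : 1 ≤ d) (r : ℝ) (hr : 0 < r) :
    ∃ C : ℝ, 0 < C ∧ ∀ (n : ℕ) (S : Finset (Fin d → ℤ)) (c : (Fin d → ℤ) → ℂ)
      (u v : Fin d → ℂ), (∀ s, ‖u s‖ ≤ 1) → (∀ s, ‖v s‖ ≤ 1) →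
      (∀ k ∈ S, (∀ s, k s ≠ 0) ∧ ∏ s, |k s| ≤ 2 ^ n) →
      nrmd (Pd S (fun k => (∏ s, dsym r (u s) (v s) (k s)) * c k)) ≤
        C * (2 : ℝ) ^ (r * n) * nrmd (Pd S c) := by
  sorry

end Pool.Agent.H714R3.BD
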